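import Pool.Agent.H714R2.LA.Gam

set_option autoImplicit false

/-!
# T5: expansion of `1 - gg` over chains
-/

namespace Pool.Agent.H714R2.LA

open Finset

/-- Combinatorial identity.  Let `W` be a set of subsets of `Fin d`, contained in `GG d`, such
that `c₁ ∩ c₂ ∈ W` for all incomparable `c₁, c₂ ∈ W`.  Then the sum of `(-1)^(|C|+1)` over the
nonempty chains `C ⊆ W` is `1` if `W` is nonempty (and `0` otherwise): if `W ≠ ∅`, it has a least
element `m` and `C ↦ C ∆ {m}` is a sign reversing involution of all chains of `W` (including the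
empty one). -/
theorem chain_sum {d : ℕ} (W : Finset (Finset (Fin d))) (hW : W ⊆ GG d)
    (hI : ∀ a ∈ W, ∀ b ∈ W, ¬ a ⊆ b → ¬ b ⊆ a → a ∩ b ∈ W) :
    ∑ C ∈ (Ch d).filter (fun C => C ⊆ W), (-1 : ℝ) ^ (C.card + 1) = if W = ∅ then 0 else 1 := by
  classical
  have hmemCh : ∀ C : Finset (Finset (Fin d)), C ∈ Ch d ↔ C ⊆ GG d ∧ C.Nonempty ∧ IsCh C := by
    intro C
    unfold Ch
    simp [mem_filter, mem_powerset]
  by_cases hWe : W = ∅
  · rw [if_pos hWe]
    apply Finset.sum_eq_zero
    intro C hC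
    rw [mem_filter, hmemCh, hWe] at hC
    exact absurd (subset_empty.mp hC.2) (Finset.nonempty_iff_ne_empty.mp hC.1.2.1)
  · rw [if_neg hWe]
    obtain ⟨m, hm, hmin⟩ := Finset.exists_min_image W Finset.card
      (Finset.nonempty_iff_ne_empty.mpr hWe)
    have hmle : ∀ b ∈ W, m ⊆ b := by
      intro b hb
      by_contra h1
      by_cases h2 : b ⊆ m
      · have h3 : b ≠ m := by
          rintro rfl
          exact h1 (Finset.Subset.refl _)
        have h4 := Finset.card_lt_card (Finset.ssubset_iff_subset_ne.mpr ⟨h2, h3⟩)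
        have h5 := hmin b hb
        omega
      · have h3 := hI m hm b hb h1 h2
        have h4 := hmin _ h3
        have h5 : m ∩ b ⊂ m := by
          refine Finset.ssubset_iff_subset_ne.mpr ⟨Finset.inter_subset_left, ?_⟩
          intro h
          exact h1 (Finset.inter_eq_left.mp h)
        have h6 := Finset.card_lt_card h5
        omega
    set T : Finset (Finset (Finset (Fin d))) := W.powerset.filter fun C => IsCh C with hT
    have hTmem : ∀ C, C ∈ T ↔ C ⊆ W ∧ IsCh C := by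
      intro C
      simp [hT, mem_filter, mem_powerset]
    have hzero : ∑ C ∈ T, (-1 : ℝ) ^ (C.card + 1) = 0 := by
      refine Finset.sum_involution (fun C _ => if m ∈ C then C.erase m else insert m C) ?_ ?_ ?_ ?_
      · intro C hC
        by_cases hmC : m ∈ C
        · simp only [if_pos hmC]
          have h1 : (C.erase m).card + 1 = C.card := Finset.card_erase_add_one hmC
          rw [← h1, pow_succ]
          ring
        · simp only [if_neg hmC]
          rw [Finset.card_insert_of_notMem hmC, pow_succ]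
          ring
      · intro C hC _
        by_cases hmC : m ∈ C
        · simp only [if_pos hmC]
          intro h
          have : m ∈ C.erase m := by rw [h]; exact hmC
          exact (Finset.notMem_erase m C) this
        · simp only [if_neg hmC]
          intro h
          exact hmC (by rw [← h]; exact Finset.mem_insert_self m C)
      · intro C hC
        rw [hTmem] at hC ⊢
        by_cases hmC : m ∈ C
        · simp only [if_pos hmC]
          exact ⟨(Finset.erase_subset _ _).trans hC.1, fun a ha b hb =>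
            hC.2 a (Finset.mem_of_mem_erase ha) b (Finset.mem_of_mem_erase hb)⟩
        · simp only [if_neg hmC]
          refine ⟨Finset.insert_subset hm hC.1, ?_⟩
          intro a ha b hb
          rw [Finset.mem_insert] at ha hb
          rcases ha with rfl | ha
          · rcases hb with rfl | hb
            · exact Or.inl (Finset.Subset.refl _)
            · exact Or.inl (hmle b (hC.1 hb))
          · rcases hb with rfl | hb
            · exact Or.inr (hmle a (hC.1 ha))
            · exact hC.2 a ha b hb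
      · intro C hC
        by_cases hmC : m ∈ C
        · simp only [if_pos hmC, Finset.notMem_erase, if_false, Finset.insert_erase hmC]
        · simp only [if_neg hmC, Finset.mem_insert_self, if_true, Finset.erase_insert hmC]
    have hTins : T = insert ∅ ((Ch d).filter (fun C => C ⊆ W)) := by
      ext C
      rw [hTmem, Finset.mem_insert, mem_filter, hmemCh]
      constructor
      · rintro ⟨h1, h2⟩
        by_cases hC : C = ∅
        · exact Or.inl hC
        · exact Or.inr ⟨⟨h1.trans hW, Finset.nonempty_iff_ne_empty.mpr hC, h2⟩, h1⟩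
      · rintro (rfl | ⟨⟨_, _, h2⟩, h1⟩)
        · exact ⟨Finset.empty_subset _, fun a ha => absurd ha (Finset.notMem_empty a)⟩
        · exact ⟨h1, h2⟩
    have hnot : (∅ : Finset (Finset (Fin d))) ∉ (Ch d).filter (fun C => C ⊆ W) := by
      rw [mem_filter, hmemCh]
      rintro ⟨⟨_, h, _⟩, _⟩
      exact Finset.not_nonempty_empty h
    rw [hTins, Finset.sum_insert hnot] at hzero
    simp only [Finset.card_empty, zero_add, pow_one] at hzero
    linarith

variable {d R : ℕ} {s : Fin d → Fin R} {ζ : ℕ → ℝ} {ε : ℝ} {f : Om d R → ℝ}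

theorem mem_Ch {C : Finset (Finset (Fin d))} :
    C ∈ Ch d ↔ C ⊆ GG d ∧ C.Nonempty ∧ IsCh C := by
  classical
  unfold Ch
  simp [mem_filter, mem_powerset]

/-- pointwise form: `W = {c ∈ GG d | γ_c u = 1}`; if `W` is closed under the intersection of
incomparable pairs then the left side is zero, otherwise it is at most `1 + |Ch d|` and the right
side at least that -/
theorem chain_pointwise (u : Om d R) :
    |(1 - gg ζ f s u) - ∑ C ∈ Ch d, (-1 : ℝ) ^ (C.card + 1) * ∏ c ∈ C, gam ζ f s c u| ≤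
      (1 + ((Ch d).card : ℝ)) * ∑ a ∈ GG d, ∑ b ∈ (GG d).filter (fun b => ¬ a ⊆ b ∧ ¬ b ⊆ a),
        (1 - gam ζ f s (a ∩ b) u) * (gam ζ f s a u * gam ζ f s b u) := by
  classical
  set W : Finset (Finset (Fin d)) := (GG d).filter (fun c => gam ζ f s c u = 1) with hWdef
  have hWsub : W ⊆ GG d := Finset.filter_subset _ _
  have hzo := fun c => gam_zero_or_one ζ f s c u
  have hmem : ∀ c, c ∈ W ↔ c ∈ GG d ∧ gam ζ f s c u = 1 := by
    intro c
    simp [hWdef, mem_filter]
  have hterm : ∀ a b, 0 ≤ (1 - gam ζ f s (a ∩ b) u) * (gam ζ f s a u * gam ζ f s b u) := by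
    intro a b
    exact mul_nonneg (by linarith [gam_le_one ζ f s (a ∩ b) u])
      (mul_nonneg (gam_nonneg ζ f s a u) (gam_nonneg ζ f s b u))
  have hRn : 0 ≤ ∑ a ∈ GG d, ∑ b ∈ (GG d).filter (fun b => ¬ a ⊆ b ∧ ¬ b ⊆ a),
      (1 - gam ζ f s (a ∩ b) u) * (gam ζ f s a u * gam ζ f s b u) :=
    Finset.sum_nonneg fun a _ => Finset.sum_nonneg fun b _ => hterm a b
  have hgg : gg ζ f s u = if W = ∅ then 1 else 0 := by
    unfold gg
    by_cases hWe : W = ∅
    · rw [if_pos hWe]
      apply Finset.prod_eq_one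
      intro c hc
      rcases hzo c with h | h
      · rw [h]; ring
      · exfalso
        have : c ∈ W := (hmem c).mpr ⟨hc, h⟩
        rw [hWe] at this
        exact Finset.notMem_empty c this
    · rw [if_neg hWe]
      obtain ⟨c, hc⟩ := Finset.nonempty_iff_ne_empty.mpr hWe
      have h := (hmem c).mp hc
      exact Finset.prod_eq_zero h.1 (by rw [h.2]; ring)
  have hprod : ∀ C ∈ Ch d, (∏ c ∈ C, gam ζ f s c u) = if C ⊆ W then 1 else 0 := by
    intro C hC
    by_cases hCW : C ⊆ W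
    · rw [if_pos hCW]
      exact Finset.prod_eq_one fun c hc => ((hmem c).mp (hCW hc)).2
    · rw [if_neg hCW]
      obtain ⟨c, hc, hcW⟩ := Finset.not_subset.mp hCW
      refine Finset.prod_eq_zero hc ?_
      rcases hzo c with h | h
      · exact h
      · exact absurd ((hmem c).mpr ⟨(mem_Ch.mp hC).1 hc, h⟩) hcW
  have hsum : ∑ C ∈ Ch d, (-1 : ℝ) ^ (C.card + 1) * ∏ c ∈ C, gam ζ f s c u =
      ∑ C ∈ (Ch d).filter (fun C => C ⊆ W), (-1 : ℝ) ^ (C.card + 1) := by
    rw [Finset.sum_filter]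
    refine Finset.sum_congr rfl fun C hC => ?_
    rw [hprod C hC]
    by_cases hCW : C ⊆ W
    · simp [hCW]
    · simp [hCW]
  by_cases hI : ∀ a ∈ W, ∀ b ∈ W, ¬ a ⊆ b → ¬ b ⊆ a → a ∩ b ∈ W
  · have h0 : (1 - gg ζ f s u) - ∑ C ∈ Ch d, (-1 : ℝ) ^ (C.card + 1) *
        ∏ c ∈ C, gam ζ f s c u = 0 := by
      rw [hsum, chain_sum W hWsub hI, hgg]
      by_cases hWe : W = ∅
      · simp [hWe]
      · simp [hWe]
    rw [h0, abs_zero]
    exact mul_nonneg (by positivity) hRn
  · push Not at hI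
    obtain ⟨a, ha, b, hb, h12, h21, hab⟩ := hI
    have haG := (hmem a).mp ha
    have hbG := (hmem b).mp hb
    have habG : a ∩ b ∈ GG d := by
      have h1 : a.card + 2 ≤ d := by
        have := haG.1
        simpa [GG, mem_filter] using this
      have h2 := Finset.card_le_card (Finset.inter_subset_left : a ∩ b ⊆ a)
      simp only [GG, mem_filter, mem_univ, true_and]
      omega
    have hg0 : gam ζ f s (a ∩ b) u = 0 := by
      rcases hzo (a ∩ b) with h | h
      · exact h
      · exact absurd ((hmem _).mpr ⟨habG, h⟩) hab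
    have hone : 1 ≤ ∑ a ∈ GG d, ∑ b ∈ (GG d).filter (fun b => ¬ a ⊆ b ∧ ¬ b ⊆ a),
        (1 - gam ζ f s (a ∩ b) u) * (gam ζ f s a u * gam ζ f s b u) := by
      have h1 : (1 - gam ζ f s (a ∩ b) u) * (gam ζ f s a u * gam ζ f s b u) ≤
          ∑ b ∈ (GG d).filter (fun b => ¬ a ⊆ b ∧ ¬ b ⊆ a),
            (1 - gam ζ f s (a ∩ b) u) * (gam ζ f s a u * gam ζ f s b u) :=
        Finset.single_le_sum (f := fun b => (1 - gam ζ f s (a ∩ b) u) *
          (gam ζ f s a u * gam ζ f s b u)) (fun b _ => hterm a b)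
          (mem_filter.mpr ⟨hbG.1, h12, h21⟩)
      have h2 : ∑ b ∈ (GG d).filter (fun b => ¬ a ⊆ b ∧ ¬ b ⊆ a),
            (1 - gam ζ f s (a ∩ b) u) * (gam ζ f s a u * gam ζ f s b u) ≤
          ∑ a ∈ GG d, ∑ b ∈ (GG d).filter (fun b => ¬ a ⊆ b ∧ ¬ b ⊆ a),
            (1 - gam ζ f s (a ∩ b) u) * (gam ζ f s a u * gam ζ f s b u) :=
        Finset.single_le_sum (f := fun a => ∑ b ∈ (GG d).filter (fun b => ¬ a ⊆ b ∧ ¬ b ⊆ a),
            (1 - gam ζ f s (a ∩ b) u) * (gam ζ f s a u * gam ζ f s b u))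
          (fun a _ => Finset.sum_nonneg fun b _ => hterm a b) haG.1
      have h3 : (1 - gam ζ f s (a ∩ b) u) * (gam ζ f s a u * gam ζ f s b u) = 1 := by
        rw [hg0, haG.2, hbG.2]
        norm_num
      calc (1 : ℝ) = (1 - gam ζ f s (a ∩ b) u) * (gam ζ f s a u * gam ζ f s b u) := h3.symm
        _ ≤ _ := h1.trans h2
    have hL : |(1 - gg ζ f s u) - ∑ C ∈ Ch d, (-1 : ℝ) ^ (C.card + 1) *
        ∏ c ∈ C, gam ζ f s c u| ≤ 1 + ((Ch d).card : ℝ) := by
      refine (abs_sub _ _).trans (add_le_add ?_ ?_)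
      · rw [hgg]
        by_cases hWe : W = ∅
        · simp [hWe]
        · simp [hWe]
      · refine (Finset.abs_sum_le_sum_abs _ _).trans ?_
        have : ∀ C ∈ Ch d, |(-1 : ℝ) ^ (C.card + 1) * ∏ c ∈ C, gam ζ f s c u| ≤ 1 := by
          intro C hC
          rw [abs_mul, abs_pow, abs_neg, abs_one, one_pow, one_mul, hprod C hC]
          by_cases hCW : C ⊆ W
          · simp [hCW]
          · simp [hCW]
        refine (Finset.sum_le_sum this).trans ?_
        simp
    calc |(1 - gg ζ f s u) - ∑ C ∈ Ch d, (-1 : ℝ) ^ (C.card + 1) *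
        ∏ c ∈ C, gam ζ f s c u| ≤ 1 + ((Ch d).card : ℝ) := hL
      _ = (1 + ((Ch d).card : ℝ)) * 1 := by ring
      _ ≤ _ := mul_le_mul_of_nonneg_left hone (by positivity)

/-- (S2) -/
theorem S2 (hP : Par d ζ ε) (hf : ∀ u, 0 ≤ f u) (U lam : Om d R → ℝ) (B : ℝ) (hB : 0 ≤ B)
    (hU : ∀ u, |U u| ≤ B) (hlam : ∀ u, |lam u| ≤ 1) :
    |av (fun u => lam u * rad s u * (U u * (1 - gg ζ f s u))) -
      ∑ C ∈ Ch d, (-1 : ℝ) ^ (C.card + 1) *
        av (fun u => U u * (lam u * rad s u * ∏ c ∈ C, gam ζ f s c u))| ≤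
      (1 + ((Ch d).card : ℝ)) * 4 ^ d * (B * (ε * av f)) := by
  classical
  have havf : 0 ≤ av f := av_nonneg hf
  have hεf : 0 ≤ ε * av f := mul_nonneg hP.eps_pos.le havf
  have hK : (0 : ℝ) ≤ 1 + ((Ch d).card : ℝ) := by positivity
  have h1 : av (fun u => lam u * rad s u * (U u * (1 - gg ζ f s u))) -
      ∑ C ∈ Ch d, (-1 : ℝ) ^ (C.card + 1) *
        av (fun u => U u * (lam u * rad s u * ∏ c ∈ C, gam ζ f s c u)) =
      av (fun u => lam u * rad s u * U u * ((1 - gg ζ f s u) -
        ∑ C ∈ Ch d, (-1 : ℝ) ^ (C.card + 1) * ∏ c ∈ C, gam ζ f s c u)) := by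
    have h2 : ∑ C ∈ Ch d, (-1 : ℝ) ^ (C.card + 1) *
        av (fun u => U u * (lam u * rad s u * ∏ c ∈ C, gam ζ f s c u)) =
        av (fun u => ∑ C ∈ Ch d, (-1 : ℝ) ^ (C.card + 1) *
          (U u * (lam u * rad s u * ∏ c ∈ C, gam ζ f s c u))) := by
      rw [av_sum]
      refine Finset.sum_congr rfl fun C _ => ?_
      rw [av_const_mul]
    rw [h2, ← av_sub]
    congr 1
    funext u
    rw [mul_sub (lam u * rad s u * U u), Finset.mul_sum]
    congr 1
    · ring
    · refine Finset.sum_congr rfl fun C _ => ?_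
      ring
  rw [h1]
  refine (abs_av_le _).trans ?_
  have h3 : ∀ u, |lam u * rad s u * U u * ((1 - gg ζ f s u) -
        ∑ C ∈ Ch d, (-1 : ℝ) ^ (C.card + 1) * ∏ c ∈ C, gam ζ f s c u)| ≤
      (B * (1 + ((Ch d).card : ℝ))) * ∑ a ∈ GG d,
        ∑ b ∈ (GG d).filter (fun b => ¬ a ⊆ b ∧ ¬ b ⊆ a),
        (1 - gam ζ f s (a ∩ b) u) * (gam ζ f s a u * gam ζ f s b u) := by
    intro u
    rw [abs_mul, abs_mul, abs_mul, abs_rad, mul_one, mul_assoc B]
    have h4 : |lam u| * |U u| ≤ B := by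
      calc |lam u| * |U u| ≤ 1 * B := mul_le_mul (hlam u) (hU u) (abs_nonneg _) (by norm_num)
        _ = B := one_mul B
    exact mul_le_mul h4 (chain_pointwise u) (abs_nonneg _) hB
  refine (av_mono h3).trans ?_
  rw [av_const_mul, av_sum]
  have h5 : ∀ a ∈ GG d, av (fun u => ∑ b ∈ (GG d).filter (fun b => ¬ a ⊆ b ∧ ¬ b ⊆ a),
        (1 - gam ζ f s (a ∩ b) u) * (gam ζ f s a u * gam ζ f s b u)) ≤ 2 ^ d * (ε * av f) := by
    intro a _
    rw [av_sum]
    have h6 : ∀ b ∈ (GG d).filter (fun b => ¬ a ⊆ b ∧ ¬ b ⊆ a),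
        av (fun u => (1 - gam ζ f s (a ∩ b) u) * (gam ζ f s a u * gam ζ f s b u)) ≤
          ε * av f := by
      intro b hb
      have hb' := (mem_filter.mp hb).2
      exact K2 hP hf hb'.1 hb'.2
    refine (Finset.sum_le_sum h6).trans ?_
    rw [Finset.sum_const, nsmul_eq_mul]
    refine mul_le_mul_of_nonneg_right ?_ hεf
    have h7 : ((GG d).filter (fun b => ¬ a ⊆ b ∧ ¬ b ⊆ a)).card ≤ 2 ^ d := by
      calc ((GG d).filter (fun b => ¬ a ⊆ b ∧ ¬ b ⊆ a)).card ≤
          (univ : Finset (Finset (Fin d))).card := Finset.card_le_card (Finset.subset_univ _)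
        _ = 2 ^ d := by simp
    exact_mod_cast h7
  have h8 : ∑ a ∈ GG d, av (fun u => ∑ b ∈ (GG d).filter (fun b => ¬ a ⊆ b ∧ ¬ b ⊆ a),
        (1 - gam ζ f s (a ∩ b) u) * (gam ζ f s a u * gam ζ f s b u)) ≤
      2 ^ d * (2 ^ d * (ε * av f)) := by
    refine (Finset.sum_le_sum h5).trans ?_
    rw [Finset.sum_const, nsmul_eq_mul]
    refine mul_le_mul_of_nonneg_right ?_ (by positivity)
    have h7 : (GG d).card ≤ 2 ^ d := by
      calc (GG d).card ≤
          (univ : Finset (Finset (Fin d))).card := Finset.card_le_card (Finset.subset_univ _)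
        _ = 2 ^ d := by simp
    exact_mod_cast h7
  calc B * (1 + ((Ch d).card : ℝ)) * ∑ a ∈ GG d,
        av (fun u => ∑ b ∈ (GG d).filter (fun b => ¬ a ⊆ b ∧ ¬ b ⊆ a),
        (1 - gam ζ f s (a ∩ b) u) * (gam ζ f s a u * gam ζ f s b u)) ≤
      B * (1 + ((Ch d).card : ℝ)) * (2 ^ d * (2 ^ d * (ε * av f))) :=
        mul_le_mul_of_nonneg_left h8 (mul_nonneg hB hK)
    _ = (1 + ((Ch d).card : ℝ)) * 4 ^ d * (B * (ε * av f)) := by
        have : (4 : ℝ) ^ d = 2 ^ d * 2 ^ d := by
          rw [← mul_pow]; norm_num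
        rw [this]; ring

end Pool.Agent.H714R2.LA
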