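import Pool.Agent.H714R2.LA.MomA

set_option autoImplicit false

/-!
# T7: moment bound for sums over shapes with chain multipliers
-/

namespace Pool.Agent.H714R2.LA

open Finset

variable {d R : ℕ}

namespace MB

/-- shapes of `Sp` equal to `s₀` off `T` -/
def fl (Sp : Finset (Fin d → Fin R)) (T : Finset (Fin d)) (s₀ : Fin d → Fin R) :
    Finset (Fin d → Fin R) := Sp.filter fun s => ∀ i, i ∉ T → s i = s₀ i

/-- partial sums -/
noncomputable def YY (Sp : Finset (Fin d → Fin R)) (lam : (Fin d → Fin R) → Om d R → ℝ)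
    (gm : (Fin d → Fin R) → Finset (Fin d) → Om d R → ℝ) (C : Finset (Finset (Fin d)))
    (T : Finset (Fin d)) (s₀ : Fin d → Fin R) (u : Om d R) : ℝ :=
  ∑ s ∈ fl Sp T s₀, lam s u * (∏ i ∈ T, dig u i (s i)) * ∏ c ∈ C.filter (fun c => c ⊆ T), gm s c u

theorem abs_dig (u : Om d R) (i : Fin d) (k : Fin R) : |dig u i k| = 1 := by
  unfold dig; split_ifs <;> simp

theorem abs_term_le (lam : (Fin d → Fin R) → Om d R → ℝ) (hl1 : ∀ s u, |lam s u| ≤ 1)
    (gm : (Fin d → Fin R) → Finset (Fin d) → Om d R → ℝ) (hg1 : ∀ s c u, |gm s c u| ≤ 1)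
    (K : Finset (Finset (Fin d))) (T : Finset (Fin d)) (s : Fin d → Fin R) (u : Om d R) :
    |lam s u * (∏ i ∈ T, dig u i (s i)) * ∏ c ∈ K, gm s c u| ≤ 1 := by
  rw [abs_mul, abs_mul, Finset.abs_prod, Finset.abs_prod]
  have h1 : ∏ i ∈ T, |dig u i (s i)| = 1 := by
    apply Finset.prod_eq_one; intro i _; exact abs_dig u i (s i)
  have h2 : ∏ c ∈ K, |gm s c u| ≤ 1 := by
    apply Finset.prod_le_one
    · intro c _; exact abs_nonneg _
    · intro c _; exact hg1 s c u
  rw [h1, mul_one]
  have h3 : 0 ≤ ∏ c ∈ K, |gm s c u| := Finset.prod_nonneg fun c _ => abs_nonneg _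
  calc |lam s u| * ∏ c ∈ K, |gm s c u| ≤ 1 * 1 :=
        mul_le_mul (hl1 s u) h2 h3 zero_le_one
    _ = 1 := by norm_num

/-- choice of the coordinate -/
theorem exists_coord (C : Finset (Finset (Fin d))) (hC : IsCh C) (T : Finset (Fin d))
    (hT : T.Nonempty) : ∃ j ∈ T, ∀ c ∈ C, c ⊆ T → c ≠ T → j ∉ c := by
  classical
  set K := C.filter fun c => c ⊆ T ∧ c ≠ T with hK
  rcases K.eq_empty_or_nonempty with h | h
  · obtain ⟨j, hj⟩ := hT
    refine ⟨j, hj, fun c hc h1 h2 => ?_⟩
    have : c ∈ K := by rw [hK, mem_filter]; exact ⟨hc, h1, h2⟩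
    rw [h] at this; exact absurd this (notMem_empty _)
  · obtain ⟨m, hm, hmax⟩ := K.exists_max_image (fun c => c.card) h
    have hm' := (mem_filter.1 (hK ▸ hm))
    have hne : ¬ T ⊆ m := fun hh => hm'.2.2 (Finset.Subset.antisymm hm'.2.1 hh)
    obtain ⟨j, hj, hjm⟩ := Finset.not_subset.1 hne
    refine ⟨j, hj, fun c hc h1 h2 hjc => ?_⟩
    have hcK : c ∈ K := by rw [hK, mem_filter]; exact ⟨hc, h1, h2⟩
    rcases hC c hc m hm'.1 with h3 | h3
    · exact hjm (h3 hjc)
    · have := hmax c hcK
      have h4 : m = c := Finset.eq_of_subset_of_card_le h3 this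
      exact hjm (h4 ▸ hjc)

theorem inv_agree {F : Om d R → ℝ} {s : Fin d → Fin R} {j : Fin d} (h : Inv s {j} F)
    {u u' : Om d R} (hu : ∀ i l, (i = j → l < s j) → u i l = u' i l) : F u = F u' := by
  rw [← h u u']
  congr 1
  funext i l
  unfold res
  split_ifs with hh
  · rfl
  · apply hu
    intro hij
    subst hij
    by_contra hc
    exact hh ⟨mem_singleton_self _, not_lt.1 hc⟩

theorem main_ind (m : ℕ) (hm : 1 ≤ m) (Sp : Finset (Fin d → Fin R))
    (hSp : ∀ s ∈ Sp, ∀ s' ∈ Sp, ∀ i, (∀ j, j ≠ i → s j = s' j) → s = s')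
    (lam : (Fin d → Fin R) → Om d R → ℝ) (hl1 : ∀ s u, |lam s u| ≤ 1)
    (hlI : ∀ s, Inv s univ (lam s))
    (gm : (Fin d → Fin R) → Finset (Fin d) → Om d R → ℝ) (hg1 : ∀ s c u, |gm s c u| ≤ 1)
    (hgI : ∀ s c, Inv s cᶜ (gm s c))
    (hgd : ∀ s s' c, (∀ i, i ∉ c → s i = s' i) → gm s c = gm s' c)
    (C : Finset (Finset (Fin d))) (hC : IsCh C) :
    ∀ (k : ℕ) (T : Finset (Fin d)), T.card = k + 1 → ∀ s₀ : Fin d → Fin R,
      av (fun u => YY Sp lam gm C T s₀ u ^ (2 * m)) ≤
        ((2 * (m : ℝ) - 1) ^ k * ((fl Sp T s₀).card : ℝ)) ^ m := by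
  classical
  have hm1 : (1 : ℝ) ≤ 2 * (m : ℝ) - 1 := by
    have : (1 : ℝ) ≤ m := by exact_mod_cast hm
    linarith
  intro k
  induction k with
  | zero =>
    intro T hT s₀
    obtain ⟨i, rfl⟩ := Finset.card_eq_one.1 (by simpa using hT)
    have hcard : (fl Sp {i} s₀).card ≤ 1 := by
      rw [Finset.card_le_one]
      intro a ha b hb
      rw [fl, mem_filter] at ha hb
      apply hSp a ha.1 b hb.1 i
      intro j hj
      rw [ha.2 j (by simpa using hj), hb.2 j (by simpa using hj)]
    have hle : ∀ u, |YY Sp lam gm C {i} s₀ u| ≤ ((fl Sp {i} s₀).card : ℝ) := by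
      intro u
      unfold YY
      refine (Finset.abs_sum_le_sum_abs _ _).trans ?_
      calc ∑ s ∈ fl Sp {i} s₀, |lam s u * (∏ i ∈ {i}, dig u i (s i)) *
            ∏ c ∈ C.filter (fun c => c ⊆ {i}), gm s c u|
          ≤ ∑ s ∈ fl Sp {i} s₀, (1 : ℝ) := by
            apply Finset.sum_le_sum
            intro s _
            exact abs_term_le lam hl1 gm hg1 _ _ s u
        _ = ((fl Sp {i} s₀).card : ℝ) := by simp
    rw [pow_zero, one_mul]
    have h01 : (fl Sp {i} s₀).card = 0 ∨ (fl Sp {i} s₀).card = 1 := by omega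
    have hpt : ∀ u, YY Sp lam gm C {i} s₀ u ^ (2 * m) ≤ ((fl Sp {i} s₀).card : ℝ) ^ m := by
      intro u
      have h2 : YY Sp lam gm C {i} s₀ u ^ (2 * m) ≤ (((fl Sp {i} s₀).card : ℝ)) ^ (2 * m) := by
        rw [pow_mul, pow_mul, ← sq_abs]
        apply pow_le_pow_left₀ (by positivity)
        apply pow_le_pow_left₀ (abs_nonneg _) (hle u)
      refine h2.trans ?_
      rcases h01 with h | h
      · rw [h]; simp [show m ≠ 0 by omega]
      · rw [h]; simp
    calc av (fun u => YY Sp lam gm C {i} s₀ u ^ (2 * m))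
        ≤ av (fun _ : Om d R => ((fl Sp {i} s₀).card : ℝ) ^ m) := av_mono hpt
      _ = _ := av_const _
  | succ k ih =>
    intro T hT s₀
    have hTne : T.Nonempty := by rw [← Finset.card_pos]; omega
    obtain ⟨j, hjT, hj⟩ := exists_coord C hC T hTne
    have hTe : (T.erase j).card = k + 1 := by rw [Finset.card_erase_of_mem hjT]; omega
    -- the factor with `c = T`
    set g : Om d R → ℝ := fun u => if T ∈ C then gm s₀ T u else 1 with hg
    have hg1' : ∀ u, |g u| ≤ 1 := by
      intro u; simp only [hg]; split_ifs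
      · exact hg1 _ _ _
      · simp
    set Y' : Om d R → ℝ := fun u => ∑ k : Fin R, dig u j k *
      YY Sp lam gm C (T.erase j) (Function.update s₀ j k) u with hY'
    -- the set of `c ⊆ T`
    have hfilt : ∀ c, c ∈ C.filter (fun c => c ⊆ T.erase j) ↔ c ∈ C ∧ c ⊆ T ∧ c ≠ T := by
      intro c
      rw [mem_filter]
      constructor
      · rintro ⟨h1, h2⟩
        refine ⟨h1, h2.trans (Finset.erase_subset _ _), ?_⟩
        rintro rfl
        exact absurd (h2 hjT) (Finset.notMem_erase _ _)
      · rintro ⟨h1, h2, h3⟩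
        refine ⟨h1, ?_⟩
        rw [Finset.subset_erase]
        exact ⟨h2, hj c h1 h2 h3⟩
    have hprod : ∀ s ∈ fl Sp T s₀, ∀ u, ∏ c ∈ C.filter (fun c => c ⊆ T), gm s c u =
        g u * ∏ c ∈ C.filter (fun c => c ⊆ T.erase j), gm s c u := by
      intro s hs u
      rw [fl, mem_filter] at hs
      by_cases hTC : T ∈ C
      · have e : C.filter (fun c => c ⊆ T) = insert T (C.filter (fun c => c ⊆ T.erase j)) := by
          ext c
          rw [Finset.mem_insert, hfilt, mem_filter]
          constructor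
          · rintro ⟨h1, h2⟩
            by_cases h3 : c = T
            · exact Or.inl h3
            · exact Or.inr ⟨h1, h2, h3⟩
          · rintro (rfl | ⟨h1, h2, _⟩)
            · exact ⟨hTC, Finset.Subset.refl _⟩
            · exact ⟨h1, h2⟩
        rw [e, Finset.prod_insert (by rw [hfilt]; tauto)]
        simp only [hg, hTC, if_true]
        rw [hgd s s₀ T hs.2]
      · have e : C.filter (fun c => c ⊆ T) = C.filter (fun c => c ⊆ T.erase j) := by
          ext c
          rw [hfilt, mem_filter]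
          constructor
          · rintro ⟨h1, h2⟩
            exact ⟨h1, h2, fun h3 => hTC (h3 ▸ h1)⟩
          · rintro ⟨h1, h2, _⟩
            exact ⟨h1, h2⟩
        rw [e]
        simp [hg, hTC]
    have hflk : ∀ k : Fin R, fl Sp (T.erase j) (Function.update s₀ j k) =
        (fl Sp T s₀).filter (fun s => s j = k) := by
      intro k
      ext s
      simp only [fl, mem_filter, Finset.mem_erase]
      constructor
      · rintro ⟨h1, h2⟩
        have h3 : s j = k := by
          have := h2 j (by simp)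
          simpa using this
        refine ⟨⟨h1, ?_⟩, h3⟩
        intro i hi
        have hij : i ≠ j := by rintro rfl; exact hi hjT
        have := h2 i (by tauto)
        rwa [Function.update_of_ne hij] at this
      · rintro ⟨⟨h1, h2⟩, h3⟩
        refine ⟨h1, ?_⟩
        intro i hi
        by_cases hij : i = j
        · subst hij; simpa using h3
        · rw [Function.update_of_ne hij]
          exact h2 i (by tauto)
    have hYeq : ∀ u, YY Sp lam gm C T s₀ u = g u * Y' u := by
      intro u
      simp only [hY']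
      unfold YY
      rw [Finset.mul_sum]
      have e1 : ∀ k : Fin R, g u * (dig u j k * ∑ s ∈ fl Sp (T.erase j) (Function.update s₀ j k),
          lam s u * (∏ i ∈ T.erase j, dig u i (s i)) *
            ∏ c ∈ C.filter (fun c => c ⊆ T.erase j), gm s c u) =
          ∑ s ∈ (fl Sp T s₀).filter (fun s => s j = k),
            lam s u * (∏ i ∈ T, dig u i (s i)) * ∏ c ∈ C.filter (fun c => c ⊆ T), gm s c u := by
        intro k
        rw [hflk, Finset.mul_sum, Finset.mul_sum]
        apply Finset.sum_congr rfl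
        intro s hs
        rw [mem_filter] at hs
        rw [hprod s hs.1 u, ← Finset.mul_prod_erase T (fun i => dig u i (s i)) hjT, hs.2]
        ring
      rw [Finset.sum_congr rfl (fun k _ => e1 k)]
      rw [Finset.sum_fiberwise]
    have hdig := digit_sum m hm j
      (fun k u => YY Sp lam gm C (T.erase j) (Function.update s₀ j k) u) ?_
      (fun k' => (2 * (m : ℝ) - 1) ^ k *
        ((fl Sp (T.erase j) (Function.update s₀ j k')).card : ℝ)) ?_ ?_
    · have hle : av (fun u => YY Sp lam gm C T s₀ u ^ (2 * m)) ≤ av (fun u => Y' u ^ (2 * m)) := by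
        apply av_mono
        intro u
        rw [hYeq u, mul_pow]
        have h1 : g u ^ (2 * m) ≤ 1 := by
          rw [pow_mul, ← sq_abs]
          apply pow_le_one₀ (by positivity)
          apply pow_le_one₀ (abs_nonneg _) (hg1' u)
        have h2 : 0 ≤ Y' u ^ (2 * m) := by rw [pow_mul]; positivity
        calc g u ^ (2 * m) * Y' u ^ (2 * m) ≤ 1 * Y' u ^ (2 * m) :=
              mul_le_mul_of_nonneg_right h1 h2
          _ = _ := one_mul _
      refine hle.trans (hdig.trans (le_of_eq ?_))
      congr 1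
      rw [← Finset.mul_sum, ← mul_assoc, ← pow_succ']
      congr 1
      rw [← Nat.cast_sum]
      congr 1
      rw [Finset.sum_congr rfl (fun k' _ => by rw [hflk k'])]
      rw [Finset.card_eq_sum_ones, ← Finset.sum_fiberwise (fl Sp T s₀) (fun s => s j)]
      apply Finset.sum_congr rfl
      intro k' _
      rw [Finset.card_eq_sum_ones]
    · -- invariance
      intro k' u u' huu
      unfold YY
      apply Finset.sum_congr rfl
      intro s hs
      rw [hflk, mem_filter] at hs
      have hsj : s j = k' := hs.2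
      have hagree : ∀ i l, (i = j → l < s j) → u i l = u' i l := by
        intro i l h; apply huu; rw [← hsj]; exact h
      have h1 : lam s u = lam s u' :=
        inv_agree ((hlI s).mono (Finset.subset_univ _)) hagree
      have h2 : ∏ i ∈ T.erase j, dig u i (s i) = ∏ i ∈ T.erase j, dig u' i (s i) := by
        apply Finset.prod_congr rfl
        intro i hi
        unfold dig
        rw [hagree i (s i) (fun h => absurd h (Finset.ne_of_mem_erase hi))]
      have h3 : ∏ c ∈ C.filter (fun c => c ⊆ T.erase j), gm s c u =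
          ∏ c ∈ C.filter (fun c => c ⊆ T.erase j), gm s c u' := by
        apply Finset.prod_congr rfl
        intro c hc
        rw [mem_filter] at hc
        apply inv_agree (j := j) ((hgI s c).mono ?_) hagree
        rw [Finset.singleton_subset_iff, Finset.mem_compl]
        intro hjc
        exact absurd (hc.2 hjc) (Finset.notMem_erase _ _)
      rw [h1, h2, h3]
    · intro k'
      have : (0 : ℝ) ≤ (2 * (m : ℝ) - 1) ^ k := by positivity
      positivity
    · intro k'
      exact ih (T.erase j) hTe (Function.update s₀ j k')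

end MB

/-- Let `lam s` be bounded by 1 and invariant in all coordinates, and `gm s c` bounded by 1,
invariant in the coordinates off `c`, depending only on the entries of `s` off `c`.  For every
chain `C` of proper subsets and every set `Sp` of shapes in which a shape is determined by all but
any one of its entries, the `2m`-th moment of `∑_{s ∈ Sp} lam s * rad s * ∏_{c ∈ C} gm s c` is at
most `((2m-1)^(d-1) |Sp|)^m`.

Proof: for nonempty `T ⊆ Fin d` and `s₀` let
`Y_{T,s₀} = ∑_{s ∈ Sp, s = s₀ off T} lam s * ∏_{i ∈ T} dig u i (s i) * ∏_{c ∈ C, c ⊆ T} gm s c`.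
Claim: `av Y_{T,s₀}^{2m} ≤ ((2m-1)^(|T|-1) #{s ∈ Sp | s = s₀ off T})^m`, by induction on `|T|`.
`|T| = 1`: at most one term, bounded by `1`.  `|T| ≥ 2`: if `T ∈ C`, the factor
`gm s T = gm s₀ T` is common to all terms and bounded by `1`: drop it.  Then let `c*` be the
largest `c ∈ C` with `c ⊊ T` (or `∅`), pick `j ∈ T \ c*`; the remaining factors `gm s c`
(`c ⊆ c*`) and `lam s` do not depend on the digits `≥ s j` of the coordinate `j`; sort by the value
`k = s j` and apply `digit_sum` and the induction hypothesis for `T \ {j}` and `s₀` with entry `k`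
at `j` (`{c ∈ C | c ⊊ T} = {c ∈ C | c ⊆ T \ {j}}`). -/
theorem moment_chain (hd : 1 ≤ d) (m : ℕ) (hm : 1 ≤ m) (Sp : Finset (Fin d → Fin R))
    (hSp : ∀ s ∈ Sp, ∀ s' ∈ Sp, ∀ i, (∀ j, j ≠ i → s j = s' j) → s = s')
    (lam : (Fin d → Fin R) → Om d R → ℝ) (hl1 : ∀ s u, |lam s u| ≤ 1)
    (hlI : ∀ s, Inv s univ (lam s))
    (gm : (Fin d → Fin R) → Finset (Fin d) → Om d R → ℝ) (hg1 : ∀ s c u, |gm s c u| ≤ 1)
    (hgI : ∀ s c, Inv s cᶜ (gm s c))
    (hgd : ∀ s s' c, (∀ i, i ∉ c → s i = s' i) → gm s c = gm s' c)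
    (C : Finset (Finset (Fin d))) (hC : IsCh C) (hCp : ∀ c ∈ C, c ≠ univ) :
    av (fun u => (∑ s ∈ Sp, lam s u * rad s u * ∏ c ∈ C, gm s c u) ^ (2 * m)) ≤
      ((2 * (m : ℝ) - 1) ^ (d - 1) * (Sp.card : ℝ)) ^ m := by
  classical
  rcases Sp.eq_empty_or_nonempty with h | ⟨s₀, _⟩
  · subst h
    have h0 : (fun _ : Om d R => (∑ s ∈ (∅ : Finset (Fin d → Fin R)), (0 : ℝ)) ^ (2 * m)) =
        fun _ => 0 := by
      funext u; simp [show m ≠ 0 by omega]
    simp only [Finset.sum_empty, Finset.card_empty, Nat.cast_zero, mul_zero]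
    rw [zero_pow (by omega), zero_pow (by omega), av_const]
  · have h := MB.main_ind m hm Sp hSp lam hl1 hlI gm hg1 hgI hgd C hC (d - 1) univ
      (by rw [Finset.card_univ, Fintype.card_fin]; omega) s₀
    have e1 : MB.fl Sp univ s₀ = Sp := by
      unfold MB.fl
      apply Finset.filter_true_of_mem
      intro s _ i hi
      exact absurd (Finset.mem_univ i) hi
    have e2 : C.filter (fun c => c ⊆ (univ : Finset (Fin d))) = C := by
      apply Finset.filter_true_of_mem
      intro c _
      exact Finset.subset_univ _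
    have e3 : ∀ u, MB.YY Sp lam gm C univ s₀ u =
        ∑ s ∈ Sp, lam s u * rad s u * ∏ c ∈ C, gm s c u := by
      intro u
      unfold MB.YY
      rw [e1, e2]
      rfl
    simp only [e3, e1] at h
    exact h

theorem Sh_det (d R n : ℕ) : ∀ s ∈ Sh d R n, ∀ s' ∈ Sh d R n, ∀ i,
    (∀ j, j ≠ i → s j = s' j) → s = s' := by
  intro s hs s' hs' i h
  rw [Sh, mem_filter] at hs hs'
  funext j
  by_cases hj : j = i
  · subst hj
    have h1 := hs.2
    have h2 := hs'.2
    rw [← Finset.add_sum_erase _ _ (Finset.mem_univ j)] at h1 h2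
    have h3 : ∑ x ∈ univ.erase j, (s x).val = ∑ x ∈ univ.erase j, (s' x).val := by
      apply Finset.sum_congr rfl
      intro x hx
      rw [h x (Finset.ne_of_mem_erase hx)]
    apply Fin.ext
    omega
  · exact h j hj

/-- number of shapes -/
theorem card_Sh_le (d n : ℕ) (hd : 1 ≤ d) : ((Sh d (n + 1) n).card : ℝ) ≤ ((n : ℝ) + 1) ^ (d - 1) := by
  obtain ⟨e, rfl⟩ : ∃ e, d = e + 1 := ⟨d - 1, by omega⟩
  have h : (Sh (e + 1) (n + 1) n).card ≤ (univ : Finset (Fin e → Fin (n + 1))).card := by
    apply Finset.card_le_card_of_injOn (fun s => fun i : Fin e => s i.succ)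
    · intro s _; exact Finset.mem_univ _
    · intro s hs s' hs' hss
      apply Sh_det (e + 1) (n + 1) n s hs s' hs' 0
      intro j hj
      obtain ⟨i, rfl⟩ := Fin.exists_succ_eq.2 hj
      exact congrFun hss i
  have h2 : (univ : Finset (Fin e → Fin (n + 1))).card = (n + 1) ^ e := by
    rw [Finset.card_univ, Fintype.card_fun, Fintype.card_fin, Fintype.card_fin]
  rw [h2] at h
  have : ((Sh (e + 1) (n + 1) n).card : ℝ) ≤ (((n + 1) ^ e : ℕ) : ℝ) := by exact_mod_cast h
  simpa using this

theorem card_Sh_ge (d n : ℕ) (hd : 1 ≤ d) : ((n : ℝ) / d) ^ (d - 1) ≤ ((Sh d (n + 1) n).card : ℝ) := by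
  obtain ⟨e, rfl⟩ : ∃ e, d = e + 1 := ⟨d - 1, by omega⟩
  set q := n / (e + 1) with hq
  have hqe : q * (e + 1) ≤ n := Nat.div_mul_le_self n (e + 1)
  have hsum : ∀ f : Fin e → Fin (q + 1), ∑ i, (f i).val ≤ n := by
    intro f
    calc ∑ i, (f i).val ≤ ∑ _i : Fin e, q := Finset.sum_le_sum fun i _ => by
          have := (f i).isLt; omega
      _ = e * q := by simp
      _ ≤ n := by nlinarith
  have hqn : q ≤ n := Nat.div_le_self n (e + 1)
  have h : (univ : Finset (Fin e → Fin (q + 1))).card ≤ (Sh (e + 1) (n + 1) n).card := by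
    apply Finset.card_le_card_of_injOn
      (fun f => (Fin.cons (⟨n - ∑ i, (f i).val, by omega⟩ : Fin (n + 1))
        (fun i => (⟨(f i).val, by have := (f i).isLt; omega⟩ : Fin (n + 1))) :
          Fin (e + 1) → Fin (n + 1)))
    · intro f _
      simp only [Sh, Finset.coe_filter, Set.mem_ofPred_eq, Finset.mem_univ, true_and]
      rw [Fin.sum_univ_succ]
      simp only [Fin.cons_zero, Fin.cons_succ]
      have := hsum f
      omega
    · intro f _ f' _ hff
      funext i
      have := congrFun hff i.succ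
      simp only [Fin.cons_succ] at this
      apply Fin.ext
      have h2 := congrArg Fin.val this
      simpa using h2
  have h2 : (univ : Finset (Fin e → Fin (q + 1))).card = (q + 1) ^ e := by
    rw [Finset.card_univ, Fintype.card_fun, Fintype.card_fin, Fintype.card_fin]
  rw [h2] at h
  have h3 : (((q + 1) ^ e : ℕ) : ℝ) ≤ ((Sh (e + 1) (n + 1) n).card : ℝ) := by exact_mod_cast h
  refine le_trans ?_ h3
  push_cast
  apply pow_le_pow_left₀ (by positivity)
  have h4 : n < (q + 1) * (e + 1) := by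
    have := Nat.lt_div_mul_add (a := n) (b := e + 1) (by omega)
    nlinarith
  rw [div_le_iff₀ (by positivity)]
  have h5 : (n : ℝ) ≤ ((q : ℝ) + 1) * ((e : ℝ) + 1) := by
    have : ((n : ℕ) : ℝ) ≤ (((q + 1) * (e + 1) : ℕ) : ℝ) := by exact_mod_cast h4.le
    push_cast at this
    linarith
  push_cast
  linarith

end Pool.Agent.H714R2.LA
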