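import Pool.Agent.H714R2.LA.Defs

set_option autoImplicit false

/-!
# T7b: the set of shapes
-/

namespace Pool.Agent.H714R2.LA

open Finset

theorem Sh_det (d R n : ℕ) : ∀ s ∈ Sh d R n, ∀ s' ∈ Sh d R n, ∀ i,
    (∀ j, j ≠ i → s j = s' j) → s = s' := by sorry

/-- number of shapes -/
theorem card_Sh_le (d n : ℕ) (hd : 1 ≤ d) : ((Sh d (n + 1) n).card : ℝ) ≤ ((n : ℝ) + 1) ^ (d - 1) := by
  sorry

theorem card_Sh_ge (d n : ℕ) (hd : 1 ≤ d) : ((n : ℝ) / d) ^ (d - 1) ≤ ((Sh d (n + 1) n).card : ℝ) := by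
  sorry

end Pool.Agent.H714R2.LA
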