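import Pool.Agent.H714R2.LA.Val1

set_option autoImplicit false

/-!
# T8b: the discrepancy function on the grid
-/

namespace Pool.Agent.H714R2.LA

open Finset

variable {d R : ℕ} {ι : Type}

/-- alternating expansion of a product over subsets -/
private theorem alt_prod (a b : Fin d → ℝ) :
    ∑ c : Finset (Fin d), (-1 : ℝ) ^ (cᶜ).card * ∏ i, (if i ∈ cᶜ then b i else a i)
      = ∏ i, (a i - b i) := by
  have h1 : ∏ i, (a i - b i) = ∏ i, (a i + (-b i)) := by
    simp [sub_eq_add_neg]
  rw [h1, Finset.prod_add]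
  rw [Finset.powerset_univ]
  refine Finset.sum_congr rfl fun c _ => ?_
  have h2 : (univ \ c : Finset (Fin d)) = cᶜ := by
    ext i; simp
  rw [h2, Finset.prod_neg]
  have h3 : ∏ i, (if i ∈ cᶜ then b i else a i) = (∏ i ∈ c, a i) * ∏ i ∈ cᶜ, b i := by
    rw [← Finset.prod_mul_prod_compl c]
    congr 1
    · refine Finset.prod_congr rfl fun i hi => ?_
      simp [hi]
    · refine Finset.prod_congr rfl fun i hi => ?_
      simp only [hi, if_true]
  rw [h3]
  ring

private theorem res_apply' (s : Fin d → Fin R) (b : Finset (Fin d)) (u v : Om d R) (i : Fin d) :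
    res s b u v i = if i ∈ b then res s univ u v i else u i := by
  by_cases hi : i ∈ b
  · funext k
    simp [res, hi]
  · funext k
    simp [res, hi]

private theorem block (s : Fin d → Fin R) (u v : Om d R) (i : Fin d) :
    val (res s univ u v i) / 2 ^ (R - (s i).val) = val (u i) / 2 ^ (R - (s i).val) := by
  refine val_div_congr (s i).val (s i).isLt.le _ _ fun k hk => ?_
  simp only [res, mem_univ, true_and]
  rw [if_neg]
  intro h
  exact absurd (Fin.le_def.1 h) (by omega)

private theorem cube_DD_gen (S : Finset ι) (w : ι → ℝ) (p : ι → Fin d → ℕ) (M : ℝ)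
    (t : Fin d → ℝ) (s : Fin d → Fin R) (u v : Om d R) :
    cube s (DD S w p M t) u v =
      ∑ j ∈ S, w j * ∏ i, ((if p j i ≤ val (u i) then (1 : ℝ) else 0) -
        (if p j i ≤ val (res s univ u v i) then (1 : ℝ) else 0))
      - (M * ∏ i, ((val (u i) : ℝ) - (val (res s univ u v i) : ℝ)) / 2 ^ R) := by
  have hA : ∀ c : Finset (Fin d), DD S w p M t (res s cᶜ u v) =
      ∑ j ∈ S, w j * ∏ i, (if i ∈ cᶜ then
          (if p j i ≤ val (res s univ u v i) then (1 : ℝ) else 0)
          else (if p j i ≤ val (u i) then (1 : ℝ) else 0))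
      - M * ∏ i, (if i ∈ cᶜ then ((val (res s univ u v i) : ℝ) + t i) / 2 ^ R
          else ((val (u i) : ℝ) + t i) / 2 ^ R) := by
    intro c
    unfold DD
    congr 1
    · refine Finset.sum_congr rfl fun j _ => ?_
      have h1 : ∀ i : Fin d, (if i ∈ cᶜ then
          (if p j i ≤ val (res s univ u v i) then (1 : ℝ) else 0)
          else (if p j i ≤ val (u i) then (1 : ℝ) else 0)) =
          if p j i ≤ val (res s cᶜ u v i) then (1 : ℝ) else 0 := by
        intro i
        rw [res_apply' s cᶜ u v i]
        by_cases hi : i ∈ cᶜ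
        · rw [if_pos hi, if_pos hi]
        · rw [if_neg hi, if_neg hi]
      rw [Finset.prod_congr rfl fun i _ => h1 i]
      by_cases hall : ∀ i, p j i ≤ val (res s cᶜ u v i)
      · rw [if_pos hall, Finset.prod_congr rfl fun i _ => if_pos (hall i)]
        simp
      · rw [if_neg hall]
        push Not at hall
        obtain ⟨i, hi⟩ := hall
        rw [Finset.prod_eq_zero (mem_univ i) (if_neg (not_le.2 hi)), mul_zero]
    · congr 1
      refine Finset.prod_congr rfl fun i _ => ?_
      rw [res_apply' s cᶜ u v i]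
      by_cases hi : i ∈ cᶜ
      · rw [if_pos hi, if_pos hi]
      · rw [if_neg hi, if_neg hi]
  unfold cube
  simp_rw [hA, mul_sub, Finset.sum_sub_distrib]
  congr 1
  · simp_rw [Finset.mul_sum]
    rw [Finset.sum_comm]
    refine Finset.sum_congr rfl fun j _ => ?_
    rw [← alt_prod, Finset.mul_sum]
    refine Finset.sum_congr rfl fun c _ => ?_
    ring
  · have h2 : ∀ i : Fin d, ((val (u i) : ℝ) - (val (res s univ u v i) : ℝ)) / 2 ^ R =
        ((val (u i) : ℝ) + t i) / 2 ^ R - ((val (res s univ u v i) : ℝ) + t i) / 2 ^ R := by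
      intro i; ring
    rw [Finset.prod_congr rfl fun i _ => h2 i, ← alt_prod, Finset.mul_sum]
    refine Finset.sum_congr rfl fun c _ => ?_
    ring

/-- the cube identity on empty boxes.  The alternating sum of `∏ i, 1[p i ≤ val (w i)]` over the
mixtures `w` factorizes into `∏ i, (1[p i ≤ val (u i)] - 1[p i ≤ val (v' i)])`,
`v' = res s univ u v`, and this vanishes when the box of `u` does not contain `p`
(`val (u i)` and `val (v' i)` are in the same block of length `2^(R - s i)`). -/
theorem cube_DD (S : Finset ι) (w : ι → ℝ) (p : ι → Fin d → ℕ) (M : ℝ) (t : Fin d → ℝ)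
    (s : Fin d → Fin R) (u v : Om d R) (h : Emp S p s u) :
    cube s (DD S w p M t) u v =
      -(M * ∏ i, ((val (u i) : ℝ) - (val (res s univ u v i) : ℝ)) / 2 ^ R) := by
  rw [cube_DD_gen]
  have h0 : ∑ j ∈ S, w j * ∏ i, ((if p j i ≤ val (u i) then (1 : ℝ) else 0) -
        (if p j i ≤ val (res s univ u v i) then (1 : ℝ) else 0)) = 0 := by
    refine Finset.sum_eq_zero fun j hj => ?_
    have hj' := h j hj
    push Not at hj'
    obtain ⟨i, hi⟩ := hj'
    have hb := block s u v i
    have hiff : p j i ≤ val (u i) ↔ p j i ≤ val (res s univ u v i) := by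
      have hpos : 0 < 2 ^ (R - (s i).val) := by positivity
      constructor
      · intro hle
        by_contra hlt
        push Not at hlt
        have h1 := Nat.div_le_div_right (c := 2 ^ (R - (s i).val)) hle
        have h2 := Nat.div_le_div_right (c := 2 ^ (R - (s i).val)) hlt.le
        exact hi (le_antisymm h1 (hb ▸ h2))
      · intro hle
        by_contra hlt
        push Not at hlt
        have h1 := Nat.div_le_div_right (c := 2 ^ (R - (s i).val)) hle
        have h2 := Nat.div_le_div_right (c := 2 ^ (R - (s i).val)) hlt.le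
        exact hi (le_antisymm (hb ▸ h1) h2)
    rw [Finset.prod_eq_zero (mem_univ i), mul_zero]
    by_cases hq : p j i ≤ val (u i)
    · rw [if_pos hq, if_pos (hiff.1 hq)]; ring
    · rw [if_neg hq, if_neg (fun hh => hq (hiff.2 hh))]; ring
  rw [h0]
  ring

theorem cube_abs (S : Finset ι) (w : ι → ℝ) (p : ι → Fin d → ℕ) (M : ℝ) (hM : 0 ≤ M)
    (t : Fin d → ℝ) (n : ℕ) (s : Fin d → Fin R) (hs : s ∈ Sh d R n) (u v : Om d R)
    (h : Emp S p s u) : |cube s (DD S w p M t) u v| ≤ M / 2 ^ n := by
  rw [cube_DD S w p M t s u v h, abs_neg, abs_mul, abs_of_nonneg hM, Finset.abs_prod,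
    div_eq_mul_inv]
  refine mul_le_mul_of_nonneg_left ?_ hM
  have hn : ∑ i, (s i).val = n := by
    simpa [Sh] using hs
  have hbound : ∀ i : Fin d,
      |((val (u i) : ℝ) - (val (res s univ u v i) : ℝ)) / 2 ^ R| ≤ ((2 : ℝ) ^ (s i).val)⁻¹ := by
    intro i
    have hb := block s u v i
    have hpos : 0 < 2 ^ (R - (s i).val) := by positivity
    have h1 := Nat.lt_div_mul_add (a := val (u i)) hpos
    have h2 := Nat.lt_div_mul_add (a := val (res s univ u v i)) hpos
    have h3 := Nat.div_mul_le_self (val (u i)) (2 ^ (R - (s i).val))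
    have h4 := Nat.div_mul_le_self (val (res s univ u v i)) (2 ^ (R - (s i).val))
    rw [hb] at h2 h4
    have hRs : (2 : ℝ) ^ R = 2 ^ (R - (s i).val) * 2 ^ (s i).val := by
      rw [← pow_add]; congr 1; have := (s i).isLt; omega
    rw [abs_div, abs_of_pos (by positivity : (0 : ℝ) < 2 ^ R), hRs, div_le_iff₀ (by positivity)]
    have h5 : |(val (u i) : ℝ) - (val (res s univ u v i) : ℝ)| ≤ 2 ^ (R - (s i).val) := by
      rw [abs_le]
      have e1 : (val (u i) : ℝ) < (val (res s univ u v i) : ℝ) + 2 ^ (R - (s i).val) := by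
        have : val (u i) < val (res s univ u v i) + 2 ^ (R - (s i).val) := by omega
        exact_mod_cast this
      have e2 : (val (res s univ u v i) : ℝ) < (val (u i) : ℝ) + 2 ^ (R - (s i).val) := by
        have : val (res s univ u v i) < val (u i) + 2 ^ (R - (s i).val) := by omega
        exact_mod_cast this
      constructor <;> linarith
    refine h5.trans (le_of_eq ?_)
    have h2' : (2 : ℝ) ^ (s i).val ≠ 0 := by positivity
    field_simp
  calc ∏ i, |((val (u i) : ℝ) - (val (res s univ u v i) : ℝ)) / 2 ^ R|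
      ≤ ∏ i : Fin d, ((2 : ℝ) ^ (s i).val)⁻¹ :=
        Finset.prod_le_prod (fun i _ => abs_nonneg _) fun i _ => hbound i
    _ = ((2 : ℝ) ^ n)⁻¹ := by
        rw [Finset.prod_inv_distrib, Finset.prod_pow_eq_pow_sum, hn]

/-- flip the digits `(i, s i)`, `i ∈ b` -/
private def flip (s : Fin d → Fin R) (b : Finset (Fin d)) (u : Om d R) : Om d R :=
  fun i k => if i ∈ b ∧ k = s i then !(u i k) else u i k

private theorem flip_flip (s : Fin d → Fin R) (b : Finset (Fin d)) (u : Om d R) :
    flip s b (flip s b u) = u := by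
  funext i k
  unfold flip
  by_cases h : i ∈ b ∧ k = s i
  · simp [h]
  · simp only [if_neg h]

private def flipEquiv (s : Fin d → Fin R) (b : Finset (Fin d)) : Om d R ≃ Om d R where
  toFun := flip s b
  invFun := flip s b
  left_inv := flip_flip s b
  right_inv := flip_flip s b

private theorem rad_flip (s : Fin d → Fin R) (b : Finset (Fin d)) (u : Om d R) :
    rad s (flip s b u) = (-1) ^ b.card * rad s u := by
  unfold rad
  have h1 : ∀ i, dig (flip s b u) i (s i) = (if i ∈ b then -1 else 1) * dig u i (s i) := by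
    intro i
    unfold dig flip
    by_cases hi : i ∈ b
    · simp only [hi, and_self, if_true]
      cases u i (s i) <;> simp
    · simp only [hi, false_and, if_false, one_mul]
  rw [Finset.prod_congr rfl fun i _ => h1 i, Finset.prod_mul_distrib]
  congr 1
  rw [Finset.prod_ite_mem, univ_inter, Finset.prod_const]

private theorem res_flip (s : Fin d → Fin R) (b : Finset (Fin d)) (u : Om d R) :
    res s b u (flip s univ u) = flip s b u := by
  funext i k
  unfold res flip
  by_cases hi : i ∈ b
  · by_cases hk : k = s i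
    · subst hk; simp [hi]
    · simp [hi, hk]
  · simp [hi]

private theorem inv_flip (s : Fin d → Fin R) (b : Finset (Fin d)) (lam : Om d R → ℝ)
    (hI : Inv s univ lam) (u : Om d R) : lam (flip s b u) = lam u := by
  have h := hI u (flip s b u)
  rw [← h]
  congr 1
  funext i k
  unfold res flip
  by_cases hk : s i ≤ k
  · simp [hk]
  · have : k ≠ s i := fun hh => hk (hh ▸ le_refl _)
    simp [hk, this]

private theorem rad_sq (s : Fin d → Fin R) (u : Om d R) : rad s u * rad s u = 1 := by
  unfold rad
  rw [← Finset.prod_mul_distrib]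
  refine Finset.prod_eq_one fun i _ => ?_
  unfold dig
  cases u i (s i) <;> simp

private theorem val_flip (s : Fin d → Fin R) (u : Om d R) (i : Fin d) :
    (val (u i) : ℝ) - (val (flip s univ u i) : ℝ) =
      dig u i (s i) * 2 ^ (R - 1 - (s i).val) := by
  have h := val_update (u i) (s i)
  have hf : flip s univ u i = Function.update (u i) (s i) (!(u i (s i))) := by
    funext k
    unfold flip
    by_cases hk : k = s i
    · subst hk; simp
    · simp [hk]
  rw [hf]
  unfold dig
  cases hu : u i (s i)
  · have : Function.update (u i) (s i) false = u i := by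
      rw [← hu]; exact Function.update_eq_self _ _
    rw [this] at h
    simp only [Bool.not_false, Bool.false_eq_true, if_false]
    linarith
  · have : Function.update (u i) (s i) true = u i := by
      rw [← hu]; exact Function.update_eq_self _ _
    rw [this] at h
    simp only [Bool.not_true, if_true]
    linarith

/-- the main term: flip the digits `(i, s i)`.  With `φ_b` the flip of these digits for `i ∈ b`,
`φ_{cᶜ} u = res s cᶜ u (φ_univ u)`, `rad (φ_b u) = (-1)^|b| rad u`, and `lam` is invariant, so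
`2^d av (lam rad D) = ∑_c (-1)^|cᶜ| av (lam rad (D ∘ φ_{cᶜ})) = av (lam rad cube(u, φ_univ u))` and
`cube(u, φ_univ u) = -M ∏ dig(u,i,s i) 2^(-s i - 1) = -M rad(u) 2^(-n-d)`. -/
theorem main_term (S : Finset ι) (w : ι → ℝ) (p : ι → Fin d → ℕ) (M : ℝ)
    (t : Fin d → ℝ) (n : ℕ) (s : Fin d → Fin R) (hs : s ∈ Sh d R n) (lam : Om d R → ℝ)
    (hI : Inv s univ lam) (hE : ∀ u, lam u ≠ 0 → Emp S p s u) :
    av (fun u => lam u * rad s u * DD S w p M t u) = -(M / 2 ^ n / 4 ^ d) * av lam := by
  have hn : ∑ i, (s i).val = n := by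
    simpa [Sh] using hs
  set D : Om d R → ℝ := DD S w p M t with hD
  -- each flip gives the same average
  have h1 : ∀ c : Finset (Fin d),
      av (fun u => (-1 : ℝ) ^ (cᶜ).card * (lam u * rad s u * D (flip s cᶜ u))) =
        av (fun u => lam u * rad s u * D u) := by
    intro c
    have := av_equiv (flipEquiv s cᶜ) (fun u => lam u * rad s u * D u)
    rw [← this]
    congr 1
    funext u
    show _ = lam (flip s cᶜ u) * rad s (flip s cᶜ u) * D (flip s cᶜ u)
    rw [inv_flip s cᶜ lam hI u, rad_flip]
    ring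
  have h2 : ∀ u, ∑ c : Finset (Fin d), (-1 : ℝ) ^ (cᶜ).card *
      (lam u * rad s u * D (flip s cᶜ u)) = -(M / 2 ^ n / 2 ^ d) * lam u := by
    intro u
    have h3 : ∑ c : Finset (Fin d), (-1 : ℝ) ^ (cᶜ).card *
        (lam u * rad s u * D (flip s cᶜ u)) =
        lam u * rad s u * cube s D u (flip s univ u) := by
      unfold cube
      rw [Finset.mul_sum]
      refine Finset.sum_congr rfl fun c _ => ?_
      rw [res_flip]
      ring
    rw [h3]
    by_cases hl : lam u = 0
    · rw [hl]; ring
    · rw [hD, cube_DD S w p M t s u _ (hE u hl)]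
      have h4 : ∏ i, ((val (u i) : ℝ) - (val (res s univ u (flip s univ u) i) : ℝ)) / 2 ^ R =
          rad s u * ((2 ^ n)⁻¹ * (2 ^ d)⁻¹) := by
        rw [res_flip]
        have h5 : ∀ i : Fin d, ((val (u i) : ℝ) - (val (flip s univ u i) : ℝ)) / 2 ^ R =
            dig u i (s i) * (((2 : ℝ) ^ (s i).val)⁻¹ * (2 : ℝ)⁻¹) := by
          intro i
          rw [val_flip]
          have hRs : (2 : ℝ) ^ R = 2 ^ (R - 1 - (s i).val) * 2 ^ (s i).val * 2 := by
            rw [← pow_add, ← pow_succ]; congr 1; have := (s i).isLt; omega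
          rw [hRs]
          have h6 : (2 : ℝ) ^ (R - 1 - (s i).val) ≠ 0 := by positivity
          have h7 : (2 : ℝ) ^ (s i).val ≠ 0 := by positivity
          field_simp
        rw [Finset.prod_congr rfl fun i _ => h5 i, Finset.prod_mul_distrib,
          Finset.prod_mul_distrib, Finset.prod_inv_distrib, Finset.prod_pow_eq_pow_sum, hn,
          Finset.prod_const, Finset.card_univ, Fintype.card_fin, inv_pow]
        rfl
      rw [h4]
      have h8 := rad_sq s u
      calc lam u * rad s u * -(M * (rad s u * ((2 ^ n)⁻¹ * (2 ^ d)⁻¹)))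
          = -(M * ((2 ^ n)⁻¹ * (2 ^ d)⁻¹)) * lam u * (rad s u * rad s u) := by ring
        _ = -(M / 2 ^ n / 2 ^ d) * lam u := by rw [h8]; ring
  have h9 : (2 : ℝ) ^ d * av (fun u => lam u * rad s u * D u) =
      -(M / 2 ^ n / 2 ^ d) * av lam := by
    rw [← av_const_mul (-(M / 2 ^ n / 2 ^ d)) lam]
    have h10 : (fun u => -(M / 2 ^ n / 2 ^ d) * lam u) = fun u =>
        ∑ c ∈ (univ : Finset (Finset (Fin d))), (-1 : ℝ) ^ (cᶜ).card *
          (lam u * rad s u * D (flip s cᶜ u)) := by
      funext u
      rw [h2 u]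
    rw [h10]
    have h11 : av (fun u => ∑ c ∈ (univ : Finset (Finset (Fin d))), (-1 : ℝ) ^ (cᶜ).card *
          (lam u * rad s u * D (flip s cᶜ u))) =
        ∑ c ∈ (univ : Finset (Finset (Fin d))), av (fun u => lam u * rad s u * D u) := by
      rw [← Finset.sum_congr rfl fun c _ => h1 c]
      unfold av
      rw [Finset.sum_comm, Finset.sum_div]
    rw [h11, Finset.sum_const, Finset.card_univ]
    simp
  have h4d : (4 : ℝ) ^ d = 2 ^ d * 2 ^ d := by
    rw [← mul_pow]; norm_num
  rw [h4d]
  have h2d : (2 : ℝ) ^ d ≠ 0 := by positivity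
  have : av (fun u => lam u * rad s u * D u) = (-(M / 2 ^ n / 2 ^ d) * av lam) / 2 ^ d := by
    rw [← h9]; field_simp
  rw [this]
  field_simp

end Pool.Agent.H714R2.LA
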