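import Pool.Agent.H714R2.LA.TruncA
import Pool.Agent.H714R2.LA.ChainId
import Pool.Agent.H714R2.LA.MomB
import Pool.Agent.H714R2.LA.Val
import Pool.Agent.H714R2.LA.Shapes

set_option autoImplicit false

/-!
# T9: the combination
-/

namespace Pool.Agent.H714R2.LA

open Finset

variable {d : ℕ} {ι : Type} {ζ : ℕ → ℝ} {ε : ℝ}

theorem lamb_zero_or_one {R : ℕ} (S : Finset ι) (p : ι → Fin d → ℕ) (f : Om d R → ℝ)
    (s : Fin d → Fin R) (u : Om d R) : lamb S p ζ f s u = 0 ∨ lamb S p ζ f s u = 1 := by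
  unfold lamb
  split_ifs
  · right; rfl
  · left; rfl

theorem lamb_ne {R : ℕ} (S : Finset ι) (p : ι → Fin d → ℕ) (f : Om d R → ℝ)
    (s : Fin d → Fin R) (u : Om d R) (h : lamb S p ζ f s u ≠ 0) :
    Emp S p s u ∧ gam ζ f s ∅ u = 0 := by
  unfold lamb at h
  by_contra hc
  exact h (if_neg hc)

theorem lamb_inv {R : ℕ} (S : Finset ι) (p : ι → Fin d → ℕ) (f : Om d R → ℝ)
    (s : Fin d → Fin R) : Inv s univ (lamb S p ζ f s) := by
  intro u v
  have h1 : gam ζ f s ∅ (res s univ u v) = gam ζ f s ∅ u := by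
    have := gam_inv ζ f s ∅
    rw [compl_empty] at this
    exact this u v
  have h2 : Emp S p s (res s univ u v) ↔ Emp S p s u := emp_res S p s u v
  unfold lamb
  rw [h1]
  by_cases hc : Emp S p s u ∧ gam ζ f s ∅ u = 0
  · rw [if_pos hc, if_pos ⟨h2.2 hc.1, hc.2⟩]
  · rw [if_neg hc, if_neg (fun h => hc ⟨h2.1 h.1, h.2⟩)]

theorem lamb_Lam {R : ℕ} (S : Finset ι) (w : ι → ℝ) (p : ι → Fin d → ℕ) (M : ℝ) (hM : 0 ≤ M)
    (t : Fin d → ℝ) (n : ℕ) (L : ℝ) (s : Fin d → Fin R) (hs : s ∈ Sh d R n) :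
    Lam s (DD S w p M t) ζ L (M / 2 ^ n) (lamb S p ζ (ind L (DD S w p M t)) s) where
  zero_or_one := lamb_zero_or_one S p _ s
  inv := lamb_inv S p _ s
  tame := by
    intro u hu
    exact (lamb_ne S p _ s u (by rw [hu]; exact one_ne_zero)).2
  cube := by
    intro u v hu
    exact cube_abs S w p M hM t n s hs u v (lamb_ne S p _ s u (by rw [hu]; exact one_ne_zero)).1

theorem av_lamb {R : ℕ} (hP : Par d ζ ε) (S : Finset ι) (w : ι → ℝ) (p : ι → Fin d → ℕ) (M : ℝ)
    (t : Fin d → ℝ) (n : ℕ) (L : ℝ) (hL : 0 < L) (s : Fin d → Fin R) (hs : s ∈ Sh d R n)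
    (hS : 4 * (S.card : ℝ) ≤ 2 ^ n)
    (h0 : 4 * av (fun u : Om d R => |DD S w p M t u|) ≤ L * ζ 0) :
    1 / 2 ≤ av (lamb S p ζ (ind L (DD S w p M t)) s) := by
  classical
  set f : Om d R → ℝ := ind L (DD S w p M t) with hf
  set e : Om d R → ℝ := fun u => if Emp S p s u then 0 else 1 with he
  have h2 : (0 : ℝ) < 2 ^ n := by positivity
  have h1 : av e ≤ 1 / 4 := by
    refine (emp_count S p n s hs e (fun u hu => by simp only [he, if_pos hu])
      (fun u => by simp only [he]; split_ifs <;> norm_num)).trans ?_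
    rw [div_le_iff₀ h2]
    linarith
  have hg : av (gam ζ f s ∅) ≤ 1 / 4 := by
    have h3 := av_gam_empty (ind_nonneg L (DD S w p M t)) hP.pos s
    have h4 := av_ind L hL.le (DD S w p M t : Om d R → ℝ)
    have hz := hP.pos 0
    have h5 : L * (ζ 0 * av (gam ζ f s ∅)) ≤ L * av f := mul_le_mul_of_nonneg_left h3 hL.le
    have hp : 0 < L * ζ 0 := mul_pos hL hz
    have h6 : L * ζ 0 * (4 * av (gam ζ f s ∅)) ≤ L * ζ 0 * 1 := by
      calc L * ζ 0 * (4 * av (gam ζ f s ∅)) = 4 * (L * (ζ 0 * av (gam ζ f s ∅))) := by ring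
        _ ≤ 4 * (L * av f) := by linarith
        _ ≤ 4 * av (fun u : Om d R => |DD S w p M t u|) := by linarith
        _ ≤ L * ζ 0 * 1 := by linarith
    have h7 := le_of_mul_le_mul_left h6 hp
    linarith
  have hpt : ∀ u, 1 - (e u + gam ζ f s ∅ u) ≤ lamb S p ζ f s u := by
    intro u
    simp only [he]
    unfold lamb
    rcases gam_zero_or_one ζ f s ∅ u with hγ | hγ
    · by_cases hE : Emp S p s u
      · rw [if_pos hE, if_pos ⟨hE, hγ⟩, hγ]; norm_num
      · rw [if_neg hE, if_neg (fun h => hE h.1), hγ]; norm_num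
    · have : ¬ (Emp S p s u ∧ gam ζ f s ∅ u = 0) := by
        rintro ⟨_, h⟩
        rw [hγ] at h
        exact one_ne_zero h
      rw [if_neg this, hγ]
      split_ifs <;> norm_num
  have h8 := av_mono hpt
  rw [av_sub, av_const, av_add] at h8
  linarith

/-- the combination of (S1), (S2), the moment bound and the main term -/
theorem comb (hd : 2 ≤ d) (hP : Par d ζ ε) (S : Finset ι) (w : ι → ℝ) (p : ι → Fin d → ℕ)
    (M : ℝ) (hM : 0 < M) (t : Fin d → ℝ) (n m : ℕ) (hm : 1 ≤ m) (L : ℝ) (hL : 0 < L)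
    (hδL : M / 2 ^ n ≤ L) (hS : 4 * (S.card : ℝ) ≤ 2 ^ n)
    (h0 : 4 * av (fun u : Om d (n + 1) => |DD S w p M t u|) ≤ L * ζ 0)
    (hB : 2 ^ d * L ≤ 9 ^ m) (Q : ℝ) (hQ : 0 < Q)
    (hQ2 : (2 * (m : ℝ) - 1) ^ (d - 1) * ((Sh d (n + 1) n).card : ℝ) ≤ Q ^ 2) :
    M / 2 ^ n / 4 ^ d * (((Sh d (n + 1) n).card : ℝ) / 2) ≤
      (((Ch d).card : ℝ) + 1) * (3 * Q * (av (fun u : Om d (n + 1) => |DD S w p M t u|) + 1)) +
      (16 ^ (d + 1) + (1 + ((Ch d).card : ℝ)) * 8 ^ d) * ε * ((Sh d (n + 1) n).card : ℝ) *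
        (av (fun u : Om d (n + 1) => |DD S w p M t u|) + M / 2 ^ n) := by
  classical
  set D : Om d (n + 1) → ℝ := DD S w p M t with hD
  set X : ℝ := av (fun u : Om d (n + 1) => |DD S w p M t u|) with hX
  set f : Om d (n + 1) → ℝ := ind L D with hf
  set δ : ℝ := M / 2 ^ n with hδ
  have hX0 : 0 ≤ X := av_nonneg fun u => abs_nonneg _
  have hδ0 : 0 < δ := by positivity
  have hε := hP.eps_pos
  set lam : (Fin d → Fin (n + 1)) → Om d (n + 1) → ℝ := fun s => lamb S p ζ f s with hlam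
  set U : Om d (n + 1) → ℝ := fun u => clip (2 ^ d * L) (D u) with hU
  have hBL : 0 < 2 ^ d * L := by positivity
  have hU1 : ∀ u, |U u| ≤ 2 ^ d * L := fun u => clip_abs_le hBL.le _
  have hU2 : av (fun u => |U u|) ≤ X := av_mono fun u => clip_abs_le_abs hBL.le _
  have hlam1 : ∀ s u, |lam s u| ≤ 1 := by
    intro s u
    rcases lamb_zero_or_one (ζ := ζ) S p f s u with h | h
    · simp only [hlam, h]; norm_num
    · simp only [hlam, h]; norm_num
  set gm : (Fin d → Fin (n + 1)) → Finset (Fin d) → Om d (n + 1) → ℝ := fun s c => gam ζ f s c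
    with hgm
  have hgm1 : ∀ s c u, |gm s c u| ≤ 1 := by
    intro s c u
    rw [abs_le]
    constructor
    · linarith [gam_nonneg ζ f s c u]
    · exact gam_le_one ζ f s c u
  -- the sums of the multipliers
  have hmom : ∀ C : Finset (Finset (Fin d)), IsCh C → (∀ c ∈ C, c ≠ univ) →
      |av (fun u => U u * ∑ s ∈ Sh d (n + 1) n, lam s u * rad s u * ∏ c ∈ C, gm s c u)| ≤
        3 * Q * (X + 1) := by
    intro C hC hCp
    have h1 := moment_chain (by omega : 1 ≤ d) m hm (Sh d (n + 1) n) (Sh_det d (n + 1) n) lam hlam1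
      (fun s => lamb_inv S p f s) gm hgm1 (fun s c => gam_inv ζ f s c)
      (fun s s' c h => gam_dep ζ f c h) C hC hCp
    have hm1 : (1 : ℝ) ≤ m := by exact_mod_cast hm
    have h2 : ((2 * (m : ℝ) - 1) ^ (d - 1) * ((Sh d (n + 1) n).card : ℝ)) ^ m ≤ Q ^ (2 * m) := by
      rw [pow_mul]
      apply pow_le_pow_left₀ _ hQ2
      have : (0 : ℝ) ≤ 2 * (m : ℝ) - 1 := by linarith
      positivity
    have h3 := holder m hm U (fun u => ∑ s ∈ Sh d (n + 1) n, lam s u * rad s u *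
      ∏ c ∈ C, gm s c u) (2 ^ d * L) Q hU1 hQ hB (h1.trans h2)
    refine h3.trans ?_
    have : 0 ≤ 3 * Q := by positivity
    nlinarith
  -- the main term
  have hmain : ∀ s ∈ Sh d (n + 1) n, δ / 4 ^ d * (1 / 2) ≤
      -av (fun u => lam s u * rad s u * D u) := by
    intro s hs
    have h1 := main_term S w p M t n s hs (lam s) (lamb_inv S p f s)
      (fun u hu => (lamb_ne S p f s u hu).1)
    have h2 := av_lamb hP S w p M t n L hL s hs hS h0
    have h3 : av (fun u => lam s u * rad s u * D u) = -(δ / 4 ^ d) * av (lam s) := h1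
    rw [h3]
    have h4 : 0 ≤ δ / 4 ^ d := by positivity
    have h5 : (1 : ℝ) / 2 ≤ av (lam s) := h2
    nlinarith
  have hs1 : ∀ s ∈ Sh d (n + 1) n,
      |av (fun u => lam s u * rad s u * (U u * gg ζ f s u)) -
        av (fun u => lam s u * rad s u * D u)| ≤ 16 ^ (d + 1) * ε * (X + δ) := by
    intro s hs
    exact S1 hd hP hL hδ0.le hδL (lamb_Lam S w p M hM.le t n L s hs)
  have hs2 : ∀ s ∈ Sh d (n + 1) n,
      |av (fun u => lam s u * rad s u * (U u * (1 - gg ζ f s u))) -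
        ∑ C ∈ Ch d, (-1 : ℝ) ^ (C.card + 1) *
          av (fun u => U u * (lam s u * rad s u * ∏ c ∈ C, gm s c u))| ≤
        (1 + ((Ch d).card : ℝ)) * 8 ^ d * ε * X := by
    intro s hs
    refine (S2 hP (ind_nonneg L D) U (lam s) (2 ^ d * L) hBL.le hU1 (hlam1 s)).trans ?_
    have h1 := av_ind L hL.le D
    have h8 : (8 : ℝ) ^ d = 4 ^ d * 2 ^ d := by rw [← mul_pow]; norm_num
    have h2 : 2 ^ d * L * (ε * av (ind L D)) ≤ 2 ^ d * ε * X := by
      have h3 : L * av (ind L D) ≤ X := h1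
      have h4 : 0 ≤ 2 ^ d * ε := by positivity
      calc 2 ^ d * L * (ε * av (ind L D)) = 2 ^ d * ε * (L * av (ind L D)) := by ring
        _ ≤ 2 ^ d * ε * X := mul_le_mul_of_nonneg_left h3 h4
    calc (1 + ((Ch d).card : ℝ)) * 4 ^ d * (2 ^ d * L * (ε * av (ind L D)))
        ≤ (1 + ((Ch d).card : ℝ)) * 4 ^ d * (2 ^ d * ε * X) := by
          apply mul_le_mul_of_nonneg_left h2
          positivity
      _ = (1 + ((Ch d).card : ℝ)) * 8 ^ d * ε * X := by rw [h8]; ring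
  -- rearrangement
  have hsplit : ∀ s, av (fun u => lam s u * rad s u * (U u * gg ζ f s u)) =
      av (fun u => U u * (lam s u * rad s u * ∏ c ∈ (∅ : Finset (Finset (Fin d))), gm s c u)) -
        av (fun u => lam s u * rad s u * (U u * (1 - gg ζ f s u))) := by
    intro s
    rw [← av_sub]
    congr 1
    funext u
    rw [Finset.prod_empty]
    ring
  have hswap : ∀ C : Finset (Finset (Fin d)),
      ∑ s ∈ Sh d (n + 1) n, av (fun u => U u * (lam s u * rad s u * ∏ c ∈ C, gm s c u)) =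
        av (fun u => U u * ∑ s ∈ Sh d (n + 1) n, lam s u * rad s u * ∏ c ∈ C, gm s c u) := by
    intro C
    rw [← av_sum]
    congr 1
    funext u
    rw [Finset.mul_sum]
  -- per-shape inequality
  have hper : ∀ s ∈ Sh d (n + 1) n, δ / 4 ^ d * (1 / 2) ≤
      -av (fun u => U u * (lam s u * rad s u * ∏ c ∈ (∅ : Finset (Finset (Fin d))), gm s c u)) +
      ∑ C ∈ Ch d, (-1 : ℝ) ^ (C.card + 1) *
          av (fun u => U u * (lam s u * rad s u * ∏ c ∈ C, gm s c u)) +
      (16 ^ (d + 1) * ε * (X + δ) + (1 + ((Ch d).card : ℝ)) * 8 ^ d * ε * X) := by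
    intro s hs
    have h1 := hmain s hs
    have h2 := (abs_le.1 (hs1 s hs)).2
    have h2' := (abs_le.1 (hs1 s hs)).1
    have h3 := (abs_le.1 (hs2 s hs)).2
    have h3' := (abs_le.1 (hs2 s hs)).1
    rw [hsplit s] at h2 h2'
    generalize av (fun u => U u * (lam s u * rad s u *
      ∏ c ∈ (∅ : Finset (Finset (Fin d))), gm s c u)) = a1 at *
    generalize av (fun u => lam s u * rad s u * (U u * (1 - gg ζ f s u))) = a2 at *
    generalize av (fun u => lam s u * rad s u * D u) = a3 at *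
    generalize (∑ C ∈ Ch d, (-1 : ℝ) ^ (C.card + 1) *
          av (fun u => U u * (lam s u * rad s u * ∏ c ∈ C, gm s c u))) = a4 at *
    clear hsplit hswap hs1 hs2 hmain hmom hX hδ
    linarith only [h1, h2, h3]
  have hsum := Finset.sum_le_sum hper
  rw [Finset.sum_const, nsmul_eq_mul, Finset.sum_add_distrib, Finset.sum_add_distrib,
    Finset.sum_neg_distrib, hswap, Finset.sum_comm, Finset.sum_const, nsmul_eq_mul] at hsum
  have hempty : -av (fun u => U u * ∑ s ∈ Sh d (n + 1) n, lam s u * rad s u *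
      ∏ c ∈ (∅ : Finset (Finset (Fin d))), gm s c u) ≤ 3 * Q * (X + 1) := by
    have := hmom ∅ (by intro a ha; exact absurd ha (Finset.notMem_empty a))
      (by intro c hc; exact absurd hc (Finset.notMem_empty c))
    exact (neg_le_abs _).trans this
  have hchain : ∑ C ∈ Ch d, ∑ s ∈ Sh d (n + 1) n, (-1 : ℝ) ^ (C.card + 1) *
      av (fun u => U u * (lam s u * rad s u * ∏ c ∈ C, gm s c u)) ≤
      ((Ch d).card : ℝ) * (3 * Q * (X + 1)) := by
    rw [← nsmul_eq_mul]
    apply Finset.sum_le_card_nsmul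
    intro C hC
    rw [← Finset.mul_sum, hswap]
    unfold Ch at hC
    rw [Finset.mem_filter, Finset.mem_powerset] at hC
    have hp : ∀ c ∈ C, c ≠ univ := by
      intro c hc hcu
      have h1 := hC.1 hc
      unfold GG at h1
      rw [Finset.mem_filter, hcu, Finset.card_univ, Fintype.card_fin] at h1
      omega
    have h1 := hmom C hC.2.2 hp
    refine (le_abs_self _).trans ?_
    rw [abs_mul, abs_pow, abs_neg, abs_one, one_pow, one_mul]
    exact h1
  have hσ : (0 : ℝ) ≤ ((Sh d (n + 1) n).card : ℝ) := Nat.cast_nonneg _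
  have hfin : ((Sh d (n + 1) n).card : ℝ) *
      (16 ^ (d + 1) * ε * (X + δ) + (1 + ((Ch d).card : ℝ)) * 8 ^ d * ε * X) ≤
      (16 ^ (d + 1) + (1 + ((Ch d).card : ℝ)) * 8 ^ d) * ε * ((Sh d (n + 1) n).card : ℝ) *
        (X + δ) := by
    have h1 : (1 + ((Ch d).card : ℝ)) * 8 ^ d * ε * X ≤
        (1 + ((Ch d).card : ℝ)) * 8 ^ d * ε * (X + δ) := by
      apply mul_le_mul_of_nonneg_left (by linarith)
      positivity
    calc ((Sh d (n + 1) n).card : ℝ) *
      (16 ^ (d + 1) * ε * (X + δ) + (1 + ((Ch d).card : ℝ)) * 8 ^ d * ε * X)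
        ≤ ((Sh d (n + 1) n).card : ℝ) *
      (16 ^ (d + 1) * ε * (X + δ) + (1 + ((Ch d).card : ℝ)) * 8 ^ d * ε * (X + δ)) := by
          apply mul_le_mul_of_nonneg_left _ hσ
          linarith
      _ = _ := by ring
  calc δ / 4 ^ d * (((Sh d (n + 1) n).card : ℝ) / 2)
      = ((Sh d (n + 1) n).card : ℝ) * (δ / 4 ^ d * (1 / 2)) := by ring
    _ ≤ _ := hsum
    _ ≤ 3 * Q * (X + 1) + ((Ch d).card : ℝ) * (3 * Q * (X + 1)) +
        (16 ^ (d + 1) + (1 + ((Ch d).card : ℝ)) * 8 ^ d) * ε * ((Sh d (n + 1) n).card : ℝ) *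
        (X + δ) := by linarith
    _ = _ := by ring

end Pool.Agent.H714R2.LA
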