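import Pool.Agent.H714R2.LA.Val
import Pool.Agent.H736R2.Lone.Final

set_option autoImplicit false

/-!
# T11: from the grid to the cube
-/

namespace Pool.Agent.H714R2.LA

open Finset MeasureTheory

theorem t11_avg {d : ℕ} (F : ℕ → (Fin d → ℝ) → ENNReal) (hF : ∀ a, Measurable (F a)) (N : ℕ)
    (D : ENNReal) :
    (∑ a ∈ range N, ∫⁻ y in Set.Icc (0 : Fin d → ℝ) 1, F a y) / D =
      ∫⁻ y in Set.Icc (0 : Fin d → ℝ) 1, (∑ a ∈ range N, F a y) / D := by
  simp only [div_eq_mul_inv]
  rw [lintegral_mul_const _ (by fun_prop), lintegral_finsetSum _ (fun a _ => hF a)]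

/-- lower bound of the integral over the cube by the averages over all shifts of a grid;
induction on `d` with `H736R2.Lone.lintegral_slice` and `H736R2.Lone.le_lintegral_of_grid` -/
theorem le_lintegral_cube (d R : ℕ) (F : (Fin d → ℝ) → ENNReal) (hF : Measurable F)
    (B : ENNReal)
    (h : ∀ t : Fin d → ℝ, B ≤ (∑ a : Fin d → Fin (2 ^ R),
      F (fun i => (((a i).val : ℝ) + t i) / 2 ^ R)) / (2 ^ R) ^ d) :
    B ≤ ∫⁻ x in Set.Icc (0 : Fin d → ℝ) 1, F x := by
  induction d with
  | zero =>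
    have h0 := h 0
    rw [lintegral_unique]
    have hv : (volume.restrict (Set.Icc (0 : Fin 0 → ℝ) 1)) Set.univ = 1 := by
      rw [Measure.restrict_apply_univ, Real.volume_Icc_pi]
      simp
    rw [hv, mul_one]
    refine h0.trans (le_of_eq ?_)
    rw [pow_zero, div_one, Fintype.sum_unique]
    congr 1
    exact Subsingleton.elim _ _
  | succ d ih =>
    have hcons : Measurable (fun p : ℝ × (Fin d → ℝ) => F (Fin.cons p.1 p.2)) :=
      hF.comp (H736R2.Lone.measurable_cons d)
    have hcons2 : ∀ t : ℝ, Measurable (fun x : Fin d → ℝ => F (Fin.cons t x)) := fun t =>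
      hcons.comp (measurable_const.prodMk measurable_id)
    rw [H736R2.Lone.lintegral_slice d F hF]
    apply H736R2.Lone.le_lintegral_of_grid _ hcons.lintegral_prod_right' R
    intro s
    rw [t11_avg (fun a x => F (Fin.cons (((a : ℝ) + s) / 2 ^ R) x)) (fun a => hcons2 _)]
    apply ih
    · simp only [div_eq_mul_inv]
      apply Measurable.mul_const
      apply Finset.measurable_fun_sum
      intro a _
      exact hcons2 _
    · intro t
      refine (h (Fin.cons s t)).trans (le_of_eq ?_)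
      have e1 : ∑ a : Fin (d + 1) → Fin (2 ^ R),
          F (fun i => (((a i).val : ℝ) + (Fin.cons s t : Fin (d + 1) → ℝ) i) / 2 ^ R) =
          ∑ a' : Fin d → Fin (2 ^ R), ∑ a ∈ range (2 ^ R),
            F (Fin.cons (((a : ℝ) + s) / 2 ^ R) (fun i => (((a' i).val : ℝ) + t i) / 2 ^ R)) := by
        rw [← (Fin.consEquiv (fun _ : Fin (d + 1) => Fin (2 ^ R))).sum_comp, Fintype.sum_prod_type,
          Finset.sum_comm]
        refine Finset.sum_congr rfl fun a' _ => ?_
        rw [← Fin.sum_univ_eq_sum_range (fun a : ℕ =>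
          F (Fin.cons (((a : ℝ) + s) / 2 ^ R) (fun i => (((a' i).val : ℝ) + t i) / 2 ^ R)))]
        refine Finset.sum_congr rfl fun a _ => ?_
        congr 1
        funext i
        refine Fin.cases ?_ (fun j => ?_) i
        · simp [Fin.consEquiv]
        · simp [Fin.consEquiv]
      rw [e1]
      simp only [div_eq_mul_inv]
      rw [← Finset.sum_mul, mul_assoc]
      congr 1
      rw [ENNReal.inv_pow, ENNReal.inv_pow, pow_succ, mul_comm, ENNReal.inv_pow, ENNReal.inv_pow]

/-- digit strings and the integers below `2^R` -/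
noncomputable def t11_equiv (R : ℕ) : (Fin R → Bool) ≃ Fin (2 ^ R) :=
  Equiv.ofBijective (fun b => (⟨val b, val_lt b⟩ : Fin (2 ^ R)))
    ((Fintype.bijective_iff_injective_and_card _).2
      ⟨fun b b' h => val_injective R (congrArg Fin.val h), by simp⟩)

theorem t11_equiv_val (R : ℕ) (b : Fin R → Bool) : ((t11_equiv R b : Fin (2 ^ R)) : ℕ) = val b := rfl

/-- transfer: `P i ≤ (a + t) / 2^R ↔ ⌈P i * 2^R - t⌉₊ ≤ a`, and `sum_val` -/
theorem transfer {d : ℕ} {ι : Type} (R : ℕ) (S : Finset ι) (w : ι → ℝ) (P : ι → Fin d → ℝ)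
    (M B : ℝ)
    (h : ∀ (p : ι → Fin d → ℕ) (t : Fin d → ℝ), B ≤ av (fun u : Om d R => |DD S w p M t u|)) :
    ENNReal.ofReal B ≤
      ∫⁻ x in Set.Icc (0 : Fin d → ℝ) 1, ENNReal.ofReal |H736R2.Lone.disc S w P M x| := by
  apply le_lintegral_cube d R _ (H736R2.Lone.measurable_disc S w P M).abs.ennreal_ofReal
  intro t
  have hb := h (fun j i => ⌈P j i * 2 ^ R - t i⌉₊) t
  refine (ENNReal.ofReal_le_ofReal hb).trans (le_of_eq ?_)
  have hdisc : ∀ u : Om d R, DD S w (fun j i => ⌈P j i * 2 ^ R - t i⌉₊) M t u =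
      H736R2.Lone.disc S w P M (fun i => (((val (u i) : ℕ) : ℝ) + t i) / 2 ^ R) := by
    intro u
    unfold DD H736R2.Lone.disc
    congr 1
    refine Finset.sum_congr rfl fun j _ => ?_
    have hiff : (∀ i, ⌈P j i * 2 ^ R - t i⌉₊ ≤ val (u i)) ↔
        (∀ i, P j i ≤ (((val (u i) : ℕ) : ℝ) + t i) / 2 ^ R) := by
      refine forall_congr' fun i => ?_
      rw [Nat.ceil_le, le_div_iff₀ (by positivity)]
      constructor <;> intro h <;> linarith
    by_cases hc : ∀ i, ⌈P j i * 2 ^ R - t i⌉₊ ≤ val (u i)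
    · rw [if_pos hc, if_pos (hiff.1 hc)]
    · rw [if_neg hc, if_neg (fun h => hc (hiff.2 h))]
  unfold av
  have hcard : (Fintype.card (Om d R) : ℝ) = (2 ^ R) ^ d := by
    simp [Om]
  have h2 : ((2 : ENNReal) ^ R) ^ d = ENNReal.ofReal ((2 ^ R) ^ d) := by
    rw [ENNReal.ofReal_pow (by positivity), ENNReal.ofReal_pow (by norm_num)]
    simp
  rw [hcard, ENNReal.ofReal_div_of_pos (by positivity), h2,
    ENNReal.ofReal_sum_of_nonneg (fun u _ => abs_nonneg _),
    ← (Equiv.piCongrRight (fun _ : Fin d => t11_equiv R)).sum_comp]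
  congr 1
  refine Finset.sum_congr rfl fun u _ => ?_
  rw [hdisc u]
  rfl

end Pool.Agent.H714R2.LA
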