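import Mathlib

set_option autoImplicit false

/-!
# Definitions for the near-sharp `L^1` lower bound of the discrepancy function in all dimensions

The finite model: `Om d R` = arrays of `R` binary digits in each of `d` coordinates, with the
uniform average `av`.  A shape is `s : Fin d → Fin R`; for a set `b` of coordinates the operator
`A s b` averages out the digits `≥ s i` of the coordinates `i ∈ b`.
-/

namespace Pool.Agent.H714R2.LA

open Finset

/-- digit arrays: `R` binary digits (digit `0` is the most significant) in each of the `d`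
coordinates -/
abbrev Om (d R : ℕ) : Type := Fin d → Fin R → Bool

variable {d R : ℕ}

/-- uniform average -/
noncomputable def av (F : Om d R → ℝ) : ℝ := (∑ u, F u) / (Fintype.card (Om d R) : ℝ)

/-- replace the digits `≥ s i` of the coordinates `i ∈ b` of `u` by those of `v` -/
def res (s : Fin d → Fin R) (b : Finset (Fin d)) (u v : Om d R) : Om d R :=
  fun i k => if i ∈ b ∧ s i ≤ k then v i k else u i k

/-- conditional average: the digits `≥ s i` of the coordinates `i ∈ b` are averaged out -/
noncomputable def A (s : Fin d → Fin R) (b : Finset (Fin d)) (F : Om d R → ℝ) (u : Om d R) : ℝ :=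
  av fun v => F (res s b u v)

/-- `F` does not depend on the digits `≥ s i` of the coordinates `i ∈ b` -/
def Inv (s : Fin d → Fin R) (b : Finset (Fin d)) (F : Om d R → ℝ) : Prop :=
  ∀ u v, F (res s b u v) = F u

/-- a digit as a sign -/
def dig (u : Om d R) (i : Fin d) (k : Fin R) : ℝ := if u i k then 1 else -1

/-- the Rademacher product of shape `s` -/
def rad (s : Fin d → Fin R) (u : Om d R) : ℝ := ∏ i, dig u i (s i)

/-- indicator of `|D| > L` -/
noncomputable def ind (L : ℝ) (D : Om d R → ℝ) (u : Om d R) : ℝ := if L < |D u| then 1 else 0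

/-- indicator of wildness: the average of `f` over the slice in the coordinates `cᶜ` is at least
`ζ |c|` -/
noncomputable def gam (ζ : ℕ → ℝ) (f : Om d R → ℝ) (s : Fin d → Fin R) (c : Finset (Fin d))
    (u : Om d R) : ℝ :=
  if ζ c.card ≤ A s cᶜ f u then 1 else 0

/-- the sets of coordinates of codimension at least two -/
def GG (d : ℕ) : Finset (Finset (Fin d)) := univ.filter fun c => c.card + 2 ≤ d

/-- indicator that no `c ∈ GG d` is wild -/
noncomputable def gg (ζ : ℕ → ℝ) (f : Om d R → ℝ) (s : Fin d → Fin R) (u : Om d R) : ℝ :=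
  ∏ c ∈ GG d, (1 - gam ζ f s c u)

/-- truncation -/
noncomputable def clip (L x : ℝ) : ℝ := max (-L) (min L x)

/-- chains of sets -/
def IsCh (C : Finset (Finset (Fin d))) : Prop := ∀ a ∈ C, ∀ b ∈ C, a ⊆ b ∨ b ⊆ a

open Classical in
/-- the nonempty chains in `GG d` -/
noncomputable def Ch (d : ℕ) : Finset (Finset (Finset (Fin d))) :=
  (GG d).powerset.filter fun C => C.Nonempty ∧ IsCh C

/-- the shapes on the hyperplane `∑ s i = n` -/
def Sh (d R n : ℕ) : Finset (Fin d → Fin R) := univ.filter fun s => ∑ i, (s i).val = n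

/-- the alternating sum of `D` over the mixtures of `u` and `v` -/
noncomputable def cube (s : Fin d → Fin R) (D : Om d R → ℝ) (u v : Om d R) : ℝ :=
  ∑ c : Finset (Fin d), (-1) ^ (cᶜ).card * D (res s cᶜ u v)

/-- conditions on the wildness levels -/
structure Par (d : ℕ) (ζ : ℕ → ℝ) (ε : ℝ) : Prop where
  eps_pos : 0 < ε
  eps_le : ε ≤ 1
  pos : ∀ k, 0 < ζ k
  one : ∀ a b, a < b → b < d → ζ a ≤ ε * ζ b
  two : ∀ a b c, a < b → a < c → b < d → c < d → ζ a ≤ ε * (ζ b * ζ c)
  sum : ∑ c ∈ (univ : Finset (Finset (Fin d))).erase univ, ζ c.card ≤ 1 / 2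

/-- conditions on the multiplier `lam` of a shape `s` -/
structure Lam (s : Fin d → Fin R) (D : Om d R → ℝ) (ζ : ℕ → ℝ) (L δ : ℝ) (lam : Om d R → ℝ) :
    Prop where
  zero_or_one : ∀ u, lam u = 0 ∨ lam u = 1
  inv : Inv s univ lam
  tame : ∀ u, lam u = 1 → gam ζ (ind L D) s ∅ u = 0
  cube : ∀ u v, lam u = 1 → |cube s D u v| ≤ δ

/-! ### objects of the truncation step -/

/-- the term of codimension one -/
noncomputable def Tt (s : Fin d → Fin R) (D : Om d R → ℝ) (i : Fin d) : Om d R → ℝ := A s {i} D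

/-- the terms of higher codimension -/
noncomputable def Sc (s : Fin d → Fin R) (D : Om d R → ℝ) (c : Finset (Fin d)) (u : Om d R) : ℝ :=
  -((-1) ^ (cᶜ).card * A s cᶜ D u)

/-- the cube term -/
noncomputable def rho (s : Fin d → Fin R) (D : Om d R → ℝ) (u : Om d R) : ℝ :=
  ∑ c : Finset (Fin d), (-1) ^ (cᶜ).card * A s cᶜ D u

/-- the part of the higher codimension terms which does not depend on the coordinate `i` -/
noncomputable def rr (s : Fin d → Fin R) (D : Om d R → ℝ) (i : Fin d) (u : Om d R) : ℝ :=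
  ∑ c ∈ (GG d).filter (fun c => i ∉ c), Sc s D c u

/-- wildness of `univ \ {i}` -/
noncomputable def el (ζ : ℕ → ℝ) (f : Om d R → ℝ) (s : Fin d → Fin R) (i : Fin d) : Om d R → ℝ :=
  gam ζ f s ({i}ᶜ)

/-- the corrected term of codimension one -/
noncomputable def Th (ζ : ℕ → ℝ) (L : ℝ) (s : Fin d → Fin R) (D : Om d R → ℝ) (i : Fin d)
    (u : Om d R) : ℝ :=
  (1 - el ζ (ind L D) s i u) * Tt s D i u +
    el ζ (ind L D) s i u * (clip (2 ^ d * L) (Tt s D i u + rr s D i u) - rr s D i u)

/-- the substitute for the truncated function -/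
noncomputable def Gf (ζ : ℕ → ℝ) (L : ℝ) (s : Fin d → Fin R) (D : Om d R → ℝ) (u : Om d R) : ℝ :=
  rho s D u + ∑ i, Th ζ L s D i u + ∑ c ∈ GG d, Sc s D c u

/-! ### the discrepancy function on the grid -/

/-- the value of a digit string -/
def val (b : Fin R → Bool) : ℕ := ∑ k : Fin R, if b k then 2 ^ (R - 1 - k.val) else 0

/-- the weighted discrepancy function on a shifted grid, as a function of the digits -/
noncomputable def DD {ι : Type} (S : Finset ι) (w : ι → ℝ) (p : ι → Fin d → ℕ) (M : ℝ)
    (t : Fin d → ℝ) (u : Om d R) : ℝ :=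
  ∑ j ∈ S, (if ∀ i, p j i ≤ val (u i) then w j else 0) - M * ∏ i, (((val (u i) : ℕ) : ℝ) + t i) / 2 ^ R

/-- the box of `u` of shape `s` contains none of the points -/
def Emp {ι : Type} (S : Finset ι) (p : ι → Fin d → ℕ) (s : Fin d → Fin R) (u : Om d R) : Prop :=
  ∀ j ∈ S, ¬ ∀ i, p j i / 2 ^ (R - (s i).val) = val (u i) / 2 ^ (R - (s i).val)

open Classical in
/-- the multiplier of shape `s`: the box of `u` is empty and not wild -/
noncomputable def lamb {ι : Type} (S : Finset ι) (p : ι → Fin d → ℕ) (ζ : ℕ → ℝ)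
    (f : Om d R → ℝ) (s : Fin d → Fin R) (u : Om d R) : ℝ :=
  if Emp S p s u ∧ gam ζ f s ∅ u = 0 then 1 else 0

end Pool.Agent.H714R2.LA
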