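import Pool.Agent.H714R2.LA.Ops

set_option autoImplicit false

/-!
# T2: calculus of the wildness indicators
-/

namespace Pool.Agent.H714R2.LA

open Finset

variable {d R : ℕ} {s s' : Fin d → Fin R} {ζ : ℕ → ℝ} {ε : ℝ} {f F : Om d R → ℝ}

theorem gam_zero_or_one (ζ : ℕ → ℝ) (f : Om d R → ℝ) (s : Fin d → Fin R) (c : Finset (Fin d))
    (u : Om d R) : gam ζ f s c u = 0 ∨ gam ζ f s c u = 1 := by
  unfold gam
  split_ifs
  · exact Or.inr rfl
  · exact Or.inl rfl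

theorem gam_nonneg (ζ : ℕ → ℝ) (f : Om d R → ℝ) (s : Fin d → Fin R) (c : Finset (Fin d))
    (u : Om d R) : 0 ≤ gam ζ f s c u := by
  rcases gam_zero_or_one ζ f s c u with h | h <;> rw [h]
  exact zero_le_one

theorem gam_le_one (ζ : ℕ → ℝ) (f : Om d R → ℝ) (s : Fin d → Fin R) (c : Finset (Fin d))
    (u : Om d R) : gam ζ f s c u ≤ 1 := by
  rcases gam_zero_or_one ζ f s c u with h | h <;> rw [h]
  exact zero_le_one

/-- `gam` of `c` is invariant in the coordinates off `c` -/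
theorem gam_inv (ζ : ℕ → ℝ) (f : Om d R → ℝ) (s : Fin d → Fin R) (c : Finset (Fin d)) :
    Inv s cᶜ (gam ζ f s c) := by
  have h := (inv_A s cᶜ f).comp (fun x => if ζ c.card ≤ x then 1 else 0)
  exact h

/-- `gam` of `c` depends only on the entries of the shape off `c` -/
theorem gam_dep (ζ : ℕ → ℝ) (f : Om d R → ℝ) (c : Finset (Fin d)) (h : ∀ i, i ∉ c → s i = s' i) :
    gam ζ f s c = gam ζ f s' c := by
  have h1 : A s cᶜ f = A s' cᶜ f := A_dep (fun i hi => h i (by simpa using hi)) f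
  funext u
  unfold gam
  rw [h1]

/-- pointwise form of Markov -/
theorem gam_markov_pt (hf : ∀ u, 0 ≤ f u) (b : Finset (Fin d)) (u : Om d R) :
    ζ b.card * gam ζ f s b u ≤ A s bᶜ f u := by
  unfold gam
  split_ifs with h
  · rw [mul_one]
    exact h
  · rw [mul_zero]
    exact A_nonneg s bᶜ hf u

/-- Markov: `ζ_b * gam_b ≤ A_{bᶜ} f`, then average over `aᶜ` (`aᶜ ∪ bᶜ = aᶜ`) -/
theorem gam_markov (hf : ∀ u, 0 ≤ f u) (hζ : ∀ k, 0 < ζ k) {a b : Finset (Fin d)} (hab : a ⊆ b)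
    (u : Om d R) : ζ b.card * A s aᶜ (gam ζ f s b) u ≤ A s aᶜ f u := by
  have h1 : A s aᶜ (fun v => ζ b.card * gam ζ f s b v) u ≤ A s aᶜ (A s bᶜ f) u :=
    A_mono s aᶜ (gam_markov_pt hf b) u
  have h2 : A s aᶜ (A s bᶜ f) = A s aᶜ f := by
    rw [A_A]
    congr 1
    exact Finset.union_eq_left.mpr (Finset.compl_subset_compl.mpr hab)
  rw [h2, A_const_mul] at h1
  exact h1

/-- (K1) `av (F (1 - γ_a) γ_b) = av (F (1 - γ_a) A_{b \ a} γ_b)`, and
`A_{b \ a} γ_b = A_{b \ a} A_{bᶜ} γ_b = A_{aᶜ} γ_b ≤ w_a / ζ_b`, while `w_a < ζ_a` when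
`1 - γ_a ≠ 0` -/
theorem K1 (hP : Par d ζ ε) (hf : ∀ u, 0 ≤ f u) {a b : Finset (Fin d)} (hab : a ⊂ b)
    (hb : b ≠ univ) (hF : ∀ u, 0 ≤ F u) (hI : Inv s (b \ a) F) :
    av (fun u => F u * ((1 - gam ζ f s a u) * gam ζ f s b u)) ≤ ε * av F := by
  have hba : b \ a ⊆ aᶜ := by
    intro i hi
    rw [Finset.mem_sdiff] at hi
    rw [Finset.mem_compl]
    exact hi.2
  have hga : Inv s (b \ a) (gam ζ f s a) := (gam_inv ζ f s a).mono hba
  have hFa : Inv s (b \ a) (fun u => F u * (1 - gam ζ f s a u)) :=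
    hI.comp2 hga (fun x y => x * (1 - y))
  have e1 : av (fun u => F u * ((1 - gam ζ f s a u) * gam ζ f s b u))
      = av (fun u => (F u * (1 - gam ζ f s a u)) * A s (b \ a) (gam ζ f s b) u) := by
    have h := av_mul_A hFa (gam ζ f s b)
    rw [← h]
    congr 1
    funext u
    ring
  have e2 : A s (b \ a) (gam ζ f s b) = A s aᶜ (gam ζ f s b) := by
    have h1 : A s bᶜ (gam ζ f s b) = gam ζ f s b := A_eq_of_inv (gam_inv ζ f s b)
    have h2 : A s (b \ a) (A s bᶜ (gam ζ f s b)) = A s ((b \ a) ∪ bᶜ) (gam ζ f s b) := A_A _ _ _ _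
    rw [h1] at h2
    rw [h2]
    congr 1
    ext i
    have hsub := hab.1
    simp only [Finset.mem_union, Finset.mem_sdiff, Finset.mem_compl]
    constructor
    · rintro (h | h)
      · exact h.2
      · exact fun hia => h (hsub hia)
    · intro h
      by_cases hib : i ∈ b
      · exact Or.inl ⟨hib, h⟩
      · exact Or.inr hib
  have hcb : b.card < d := by
    have hlt : b.card < (univ : Finset (Fin d)).card :=
      Finset.card_lt_card (Finset.ssubset_univ_iff.mpr hb)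
    simpa using hlt
  have hcab : a.card < b.card := Finset.card_lt_card hab
  have hone := hP.one _ _ hcab hcb
  have hζb := hP.pos b.card
  rw [e1, e2, ← av_const_mul]
  apply av_mono
  intro u
  have hm := gam_markov (s := s) hf hP.pos hab.1 u
  have hA0 : 0 ≤ A s aᶜ (gam ζ f s b) u := A_nonneg _ _ (gam_nonneg ζ f s b) u
  have key : (1 - gam ζ f s a u) * A s aᶜ (gam ζ f s b) u ≤ ε := by
    by_cases hw : ζ a.card ≤ A s aᶜ f u
    · have : gam ζ f s a u = 1 := by unfold gam; rw [if_pos hw]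
      rw [this]
      have := hP.eps_pos
      simp only [sub_self, zero_mul]
      exact this.le
    · have h0 : gam ζ f s a u = 0 := by unfold gam; rw [if_neg hw]
      rw [h0, sub_zero, one_mul]
      push Not at hw
      have h3 : ζ b.card * A s aᶜ (gam ζ f s b) u ≤ ζ b.card * ε := by
        calc _ ≤ A s aᶜ f u := hm
          _ ≤ ζ a.card := hw.le
          _ ≤ ε * ζ b.card := hone
          _ = _ := by ring
      exact le_of_mul_le_mul_left h3 hζb
  calc F u * (1 - gam ζ f s a u) * A s aᶜ (gam ζ f s b) u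
      = F u * ((1 - gam ζ f s a u) * A s aᶜ (gam ζ f s b) u) := by ring
    _ ≤ F u * ε := mul_le_mul_of_nonneg_left key (hF u)
    _ = ε * F u := by ring

/-- (K2) with `e = c₁ ∩ c₂`: `A_{eᶜ} (γ_{c₁} γ_{c₂}) = A_{eᶜ} γ_{c₁} * A_{eᶜ} γ_{c₂}`
`≤ w_e² / (ζ_{c₁} ζ_{c₂})` -/
theorem K2 (hP : Par d ζ ε) (hf : ∀ u, 0 ≤ f u) {c₁ c₂ : Finset (Fin d)} (h12 : ¬ c₁ ⊆ c₂)
    (h21 : ¬ c₂ ⊆ c₁) :
    av (fun u => (1 - gam ζ f s (c₁ ∩ c₂) u) * (gam ζ f s c₁ u * gam ζ f s c₂ u)) ≤ ε * av f := by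
  set e := c₁ ∩ c₂ with he
  have he1 : e ⊂ c₁ := by
    refine ⟨Finset.inter_subset_left, fun h => h12 ?_⟩
    exact h.trans Finset.inter_subset_right
  have he2 : e ⊂ c₂ := by
    refine ⟨Finset.inter_subset_right, fun h => h21 ?_⟩
    exact h.trans Finset.inter_subset_left
  have hc1 : c₁ ≠ univ := fun h => h21 (by rw [h]; exact Finset.subset_univ _)
  have hc2 : c₂ ≠ univ := fun h => h12 (by rw [h]; exact Finset.subset_univ _)
  have card_lt : ∀ c : Finset (Fin d), c ≠ univ → c.card < d := by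
    intro c hc
    have hlt : c.card < (univ : Finset (Fin d)).card :=
      Finset.card_lt_card (Finset.ssubset_univ_iff.mpr hc)
    simpa using hlt
  have htwo := hP.two e.card c₁.card c₂.card (Finset.card_lt_card he1) (Finset.card_lt_card he2)
    (card_lt _ hc1) (card_lt _ hc2)
  have hge : Inv s eᶜ (fun u => 1 - gam ζ f s e u) := (gam_inv ζ f s e).comp (fun x => 1 - x)
  have e1 : av (fun u => (1 - gam ζ f s e u) * (gam ζ f s c₁ u * gam ζ f s c₂ u))
      = av (fun u => (1 - gam ζ f s e u) *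
        A s eᶜ (fun v => gam ζ f s c₁ v * gam ζ f s c₂ v) u) := av_mul_A hge _
  have hun : c₁ᶜ ∪ c₂ᶜ = eᶜ := by
    rw [he, Finset.compl_inter]
  -- the product formula
  have e2 : A s eᶜ (fun v => gam ζ f s c₁ v * gam ζ f s c₂ v)
      = fun u => A s eᶜ (gam ζ f s c₁) u * A s eᶜ (gam ζ f s c₂) u := by
    have s1 : A s c₂ᶜ (fun v => gam ζ f s c₁ v * gam ζ f s c₂ v)
        = fun u => A s c₂ᶜ (gam ζ f s c₁) u * gam ζ f s c₂ u := by
      have h := A_mul (gam_inv ζ f s c₂) (gam ζ f s c₁)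
      have h' : (fun v => gam ζ f s c₁ v * gam ζ f s c₂ v)
          = fun v => gam ζ f s c₂ v * gam ζ f s c₁ v := by funext v; ring
      rw [h', h]
      funext v
      ring
    have s2 : Inv s c₁ᶜ (A s c₂ᶜ (gam ζ f s c₁)) := (gam_inv ζ f s c₁).A_inv c₂ᶜ
    have s3 := A_mul s2 (gam ζ f s c₂)
    have s4 : A s c₂ᶜ (gam ζ f s c₁) = A s eᶜ (gam ζ f s c₁) := by
      have h1 : A s c₁ᶜ (gam ζ f s c₁) = gam ζ f s c₁ := A_eq_of_inv (gam_inv ζ f s c₁)
      have h2 : A s c₂ᶜ (A s c₁ᶜ (gam ζ f s c₁)) = A s (c₂ᶜ ∪ c₁ᶜ) (gam ζ f s c₁) := A_A _ _ _ _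
      rw [h1, Finset.union_comm, hun] at h2
      exact h2
    have s5 : A s c₁ᶜ (gam ζ f s c₂) = A s eᶜ (gam ζ f s c₂) := by
      have h1 : A s c₂ᶜ (gam ζ f s c₂) = gam ζ f s c₂ := A_eq_of_inv (gam_inv ζ f s c₂)
      have h2 : A s c₁ᶜ (A s c₂ᶜ (gam ζ f s c₂)) = A s (c₁ᶜ ∪ c₂ᶜ) (gam ζ f s c₂) := A_A _ _ _ _
      rw [h1, hun] at h2
      exact h2
    have s6 : A s eᶜ (fun v => gam ζ f s c₁ v * gam ζ f s c₂ v)
        = A s c₁ᶜ (A s c₂ᶜ (fun v => gam ζ f s c₁ v * gam ζ f s c₂ v)) := by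
      rw [A_A, hun]
    rw [s6, s1, s3, s4, s5]
  rw [e1, e2]
  have hw0 : ∀ u, 0 ≤ A s eᶜ f u := fun u => A_nonneg s eᶜ hf u
  have havf : av f = av (A s eᶜ f) := (av_A s eᶜ f).symm
  rw [havf, ← av_const_mul]
  apply av_mono
  intro u
  have hm1 := gam_markov (s := s) hf hP.pos he1.1 u
  have hm2 := gam_markov (s := s) hf hP.pos he2.1 u
  have hA1 : 0 ≤ A s eᶜ (gam ζ f s c₁) u := A_nonneg _ _ (gam_nonneg ζ f s c₁) u
  have hA2 : 0 ≤ A s eᶜ (gam ζ f s c₂) u := A_nonneg _ _ (gam_nonneg ζ f s c₂) u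
  have hz1 := hP.pos c₁.card
  have hz2 := hP.pos c₂.card
  by_cases hw : ζ e.card ≤ A s eᶜ f u
  · have : gam ζ f s e u = 1 := by unfold gam; rw [if_pos hw]
    rw [this, sub_self, zero_mul]
    exact mul_nonneg hP.eps_pos.le (hw0 u)
  · have h0 : gam ζ f s e u = 0 := by unfold gam; rw [if_neg hw]
    rw [h0, sub_zero, one_mul]
    push Not at hw
    have h3 : (ζ c₁.card * ζ c₂.card) * (A s eᶜ (gam ζ f s c₁) u * A s eᶜ (gam ζ f s c₂) u)
        ≤ (ζ c₁.card * ζ c₂.card) * (ε * A s eᶜ f u) := by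
      calc (ζ c₁.card * ζ c₂.card) * (A s eᶜ (gam ζ f s c₁) u * A s eᶜ (gam ζ f s c₂) u)
          = (ζ c₁.card * A s eᶜ (gam ζ f s c₁) u) * (ζ c₂.card * A s eᶜ (gam ζ f s c₂) u) := by
            ring
        _ ≤ A s eᶜ f u * A s eᶜ f u :=
            mul_le_mul hm1 hm2 (mul_nonneg hz2.le hA2) (hw0 u)
        _ ≤ ζ e.card * A s eᶜ f u := mul_le_mul_of_nonneg_right hw.le (hw0 u)
        _ ≤ (ε * (ζ c₁.card * ζ c₂.card)) * A s eᶜ f u :=
            mul_le_mul_of_nonneg_right htwo (hw0 u)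
        _ = _ := by ring
    exact le_of_mul_le_mul_left h3 (mul_pos hz1 hz2)

theorem ind_nonneg (L : ℝ) (D : Om d R → ℝ) (u : Om d R) : 0 ≤ ind L D u := by
  unfold ind
  split_ifs
  · exact zero_le_one
  · exact le_refl _

theorem av_ind (L : ℝ) (hL : 0 ≤ L) (D : Om d R → ℝ) :
    L * av (ind L D) ≤ av (fun u => |D u|) := by
  rw [← av_const_mul]
  apply av_mono
  intro u
  unfold ind
  split_ifs with h
  · rw [mul_one]
    exact h.le
  · rw [mul_zero]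
    exact abs_nonneg _

theorem av_gam_empty (hf : ∀ u, 0 ≤ f u) (hζ : ∀ k, 0 < ζ k) (s : Fin d → Fin R) :
    ζ 0 * av (gam ζ f s ∅) ≤ av f := by
  have h : av (fun u => ζ 0 * gam ζ f s ∅ u) ≤ av (A s (∅ : Finset (Fin d))ᶜ f) := by
    apply av_mono
    intro u
    have := gam_markov_pt (ζ := ζ) (s := s) hf (∅ : Finset (Fin d)) u
    simpa using this
  rw [av_const_mul, av_A] at h
  exact h

end Pool.Agent.H714R2.LA
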