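import Pool.Agent.H714R2.LA.Ops

set_option autoImplicit false

/-!
# T6: moment inequalities (one coordinate)
-/

namespace Pool.Agent.H714R2.LA

open Finset

theorem t6_choose (m : ℕ) : ∀ j : ℕ, (2 * m).choose (2 * j) ≤ m.choose j * (2 * m - 1) ^ j := by
  intro j
  induction j with
  | zero => simp
  | succ j ih =>
    rcases Nat.lt_or_ge j m with h | h
    · obtain ⟨t, rfl⟩ : ∃ t, m = j + 1 + t := ⟨m - j - 1, by omega⟩
      have e1 := Nat.choose_succ_right_eq (2 * (j + 1 + t)) (2 * j)
      have e2 := Nat.choose_succ_right_eq (2 * (j + 1 + t)) (2 * j + 1)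
      have e3 := Nat.choose_succ_right_eq (j + 1 + t) j
      have d1 : 2 * (j + 1 + t) - 2 * j = 2 * (t + 1) := by omega
      have d2 : 2 * (j + 1 + t) - (2 * j + 1) = 2 * t + 1 := by omega
      have d3 : j + 1 + t - j = t + 1 := by omega
      rw [d1] at e1
      rw [d2] at e2
      rw [d3] at e3
      have d4 : 2 * (j + 1) = 2 * j + 1 + 1 := by ring
      rw [d4]
      set a := (2 * (j + 1 + t)).choose (2 * j) with ha
      set b := (2 * (j + 1 + t)).choose (2 * j + 1) with hb
      set c := (2 * (j + 1 + t)).choose (2 * j + 1 + 1) with hc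
      set p := (j + 1 + t).choose j with hp
      set q := (j + 1 + t).choose (j + 1) with hq
      set P := (2 * (j + 1 + t) - 1) ^ j with hP
      have k1 : (c * (2 * j + 1)) * (2 * (j + 1)) ≤ (q * P * (2 * t + 1)) * (2 * (j + 1)) := by
        calc (c * (2 * j + 1)) * (2 * (j + 1)) = (c * (2 * j + 1 + 1)) * (2 * j + 1) := by ring
          _ = (b * (2 * t + 1)) * (2 * j + 1) := by rw [e2]
          _ = (b * (2 * j + 1)) * (2 * t + 1) := by ring
          _ = (a * (2 * (t + 1))) * (2 * t + 1) := by rw [e1]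
          _ ≤ ((p * P) * (2 * (t + 1))) * (2 * t + 1) := by gcongr
          _ = (p * (t + 1)) * (2 * P * (2 * t + 1)) := by ring
          _ = (q * (j + 1)) * (2 * P * (2 * t + 1)) := by rw [e3]
          _ = _ := by ring
      have k2 : c * (2 * j + 1) ≤ q * P * (2 * t + 1) := Nat.le_of_mul_le_mul_right k1 (by omega)
      calc c = c * 1 := (mul_one c).symm
        _ ≤ c * (2 * j + 1) := Nat.mul_le_mul_left c (by omega)
        _ ≤ q * P * (2 * t + 1) := k2
        _ ≤ q * P * (2 * (j + 1 + t) - 1) := Nat.mul_le_mul_left _ (by omega)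
        _ = q * (2 * (j + 1 + t) - 1) ^ (j + 1) := by rw [hP, pow_succ]; ring
    · rw [Nat.choose_eq_zero_of_lt (by omega)]
      exact Nat.zero_le _

theorem t6_sum_even (g : ℕ → ℝ) (h : ∀ i, g (2 * i + 1) = 0) (m : ℕ) :
    ∑ i ∈ range (2 * m + 1), g i = ∑ j ∈ range (m + 1), g (2 * j) := by
  induction m with
  | zero => simp
  | succ m ih =>
    rw [show 2 * (m + 1) + 1 = 2 * m + 1 + 1 + 1 by ring, sum_range_succ, sum_range_succ, ih, h m,
      sum_range_succ _ (m + 1), show 2 * (m + 1) = 2 * m + 1 + 1 by ring]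
    ring

/-- two-point inequality: expand both sides, `C(2m, 2j) ≤ C(m, j) (2m-1)^j` -/
theorem two_point (m : ℕ) (x a : ℝ) :
    ((x + a) ^ (2 * m) + (x - a) ^ (2 * m)) / 2 ≤ (x ^ 2 + (2 * (m : ℝ) - 1) * a ^ 2) ^ m := by
  rcases Nat.eq_zero_or_pos m with rfl | hm
  · norm_num
  have h1 : ((x + a) ^ (2 * m) + (x - a) ^ (2 * m)) / 2 =
      ∑ j ∈ range (m + 1), a ^ (2 * j) * x ^ (2 * m - 2 * j) * ((2 * m).choose (2 * j) : ℝ) := by
    have e1 : (x + a) ^ (2 * m) = ∑ i ∈ range (2 * m + 1),
        a ^ i * x ^ (2 * m - i) * ((2 * m).choose i : ℝ) := by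
      rw [add_comm, add_pow]
    have e2 : (x - a) ^ (2 * m) = ∑ i ∈ range (2 * m + 1),
        (-a) ^ i * x ^ (2 * m - i) * ((2 * m).choose i : ℝ) := by
      rw [sub_eq_add_neg, add_comm, add_pow]
    have e3 : ((x + a) ^ (2 * m) + (x - a) ^ (2 * m)) / 2 = ∑ i ∈ range (2 * m + 1),
        (fun i => (a ^ i + (-a) ^ i) / 2 * x ^ (2 * m - i) * ((2 * m).choose i : ℝ)) i := by
      rw [e1, e2, ← sum_add_distrib, sum_div]
      refine sum_congr rfl fun i _ => ?_
      ring
    rw [e3, t6_sum_even]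
    · refine sum_congr rfl fun j _ => ?_
      have : (-a) ^ (2 * j) = a ^ (2 * j) := by rw [pow_mul, pow_mul, neg_sq]
      simp only [this]
      ring
    · intro i
      have : (-a) ^ (2 * i + 1) = - a ^ (2 * i + 1) := Odd.neg_pow ⟨i, rfl⟩ a
      simp only [this]
      ring
  rw [h1, add_comm (x ^ 2), add_pow]
  refine sum_le_sum fun j hj => ?_
  rw [mem_range] at hj
  have hc : ((2 * m).choose (2 * j) : ℝ) ≤ (m.choose j : ℝ) * (2 * (m : ℝ) - 1) ^ j := by
    have := t6_choose m j
    have h2 : ((2 * m - 1 : ℕ) : ℝ) = 2 * (m : ℝ) - 1 := by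
      rw [Nat.cast_sub (by omega)]; push_cast; ring
    rw [← h2]
    exact_mod_cast this
  have e4 : x ^ (2 * m - 2 * j) = (x ^ 2) ^ (m - j) := by
    rw [← pow_mul]; congr 1; omega
  have e5 : a ^ (2 * j) = (a ^ 2) ^ j := by rw [pow_mul]
  rw [e4, e5]
  calc (a ^ 2) ^ j * (x ^ 2) ^ (m - j) * ((2 * m).choose (2 * j) : ℝ)
      ≤ (a ^ 2) ^ j * (x ^ 2) ^ (m - j) * ((m.choose j : ℝ) * (2 * (m : ℝ) - 1) ^ j) :=
        mul_le_mul_of_nonneg_left hc (by positivity)
    _ = _ := by rw [mul_pow]; ring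

variable {d R : ℕ}

/-- Minkowski's inequality in `L^m` without roots -/
theorem mink (m : ℕ) (hm : 1 ≤ m) (X Z : Om d R → ℝ) (hX : ∀ u, 0 ≤ X u) (hZ : ∀ u, 0 ≤ Z u)
    (B b : ℝ) (hB : 0 ≤ B) (hb : 0 ≤ b) (h1 : av (fun u => X u ^ m) ≤ B ^ m)
    (h2 : av (fun u => Z u ^ m) ≤ b ^ m) : av (fun u => (X u + Z u) ^ m) ≤ (B + b) ^ m := by
  have hzero : ∀ W : Om d R → ℝ, (∀ u, 0 ≤ W u) → av (fun u => W u ^ m) ≤ 0 → ∀ u, W u = 0 := by
    intro W hW h u
    have h3 : ∑ u, W u ^ m ≤ 0 := by
      unfold av at h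
      have hc : (0 : ℝ) < (Fintype.card (Om d R) : ℝ) := by exact_mod_cast Fintype.card_pos
      rwa [div_le_iff₀ hc, zero_mul] at h
    have h4 : W u ^ m ≤ 0 :=
      (single_le_sum (f := fun u => W u ^ m) (fun u _ => pow_nonneg (hW u) m) (mem_univ u)).trans h3
    have h5 : W u ^ m = 0 := le_antisymm h4 (pow_nonneg (hW u) m)
    exact pow_eq_zero_iff (by omega) |>.1 h5
  rcases hB.eq_or_lt with hB0 | hB0
  · have hX0 := hzero X hX (by rw [← hB0, zero_pow (by omega)] at h1; exact h1)
    simp only [hX0, zero_add, ← hB0]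
    exact h2
  rcases hb.eq_or_lt with hb0 | hb0
  · have hZ0 := hzero Z hZ (by rw [← hb0, zero_pow (by omega)] at h2; exact h2)
    simp only [hZ0, add_zero, ← hb0]
    exact h1
  have hs : 0 < B + b := by linarith
  have key : ∀ u, (X u + Z u) ^ m ≤
      ((B + b) ^ m * (B / (B + b)) / B ^ m) * X u ^ m + ((B + b) ^ m * (b / (B + b)) / b ^ m) * Z u ^ m := by
    intro u
    have hcx := (convexOn_pow m : ConvexOn ℝ (Set.Ici 0) fun x : ℝ => x ^ m).2
      (show X u / B ∈ Set.Ici (0 : ℝ) from div_nonneg (hX u) hB)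
      (show Z u / b ∈ Set.Ici (0 : ℝ) from div_nonneg (hZ u) hb)
      (show 0 ≤ B / (B + b) by positivity) (show 0 ≤ b / (B + b) by positivity)
      (show B / (B + b) + b / (B + b) = 1 by field_simp)
    simp only [smul_eq_mul] at hcx
    have e1 : B / (B + b) * (X u / B) + b / (B + b) * (Z u / b) = (X u + Z u) / (B + b) := by
      field_simp
    rw [e1, div_pow, div_le_iff₀ (by positivity)] at hcx
    refine hcx.trans (le_of_eq ?_)
    rw [div_pow, div_pow]
    ring
  calc av (fun u => (X u + Z u) ^ m)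
      ≤ av (fun u => ((B + b) ^ m * (B / (B + b)) / B ^ m) * X u ^ m +
          ((B + b) ^ m * (b / (B + b)) / b ^ m) * Z u ^ m) := av_mono key
    _ = ((B + b) ^ m * (B / (B + b)) / B ^ m) * av (fun u => X u ^ m) +
          ((B + b) ^ m * (b / (B + b)) / b ^ m) * av (fun u => Z u ^ m) := by
        rw [av_add, av_const_mul, av_const_mul]
    _ ≤ ((B + b) ^ m * (B / (B + b)) / B ^ m) * B ^ m +
          ((B + b) ^ m * (b / (B + b)) / b ^ m) * b ^ m := by
        refine add_le_add (mul_le_mul_of_nonneg_left h1 (by positivity))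
          (mul_le_mul_of_nonneg_left h2 (by positivity))
    _ = (B + b) ^ m := by
        have hBm : B ^ m ≠ 0 := by positivity
        have hbm : b ^ m ≠ 0 := by positivity
        rw [div_mul_cancel₀ _ hBm, div_mul_cancel₀ _ hbm]
        field_simp

/-- flip of the digit `(j, k)` -/
def t6_flip (j : Fin d) (k : Fin R) (u : Om d R) : Om d R :=
  fun i l => if i = j ∧ l = k then !(u i l) else u i l

theorem t6_flip_flip (j : Fin d) (k : Fin R) (u : Om d R) : t6_flip j k (t6_flip j k u) = u := by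
  funext i l
  unfold t6_flip
  by_cases h : i = j ∧ l = k
  · simp [h]
  · simp [h]

/-- the flip as an equivalence -/
def t6_flipE (j : Fin d) (k : Fin R) : Om d R ≃ Om d R :=
  ⟨t6_flip j k, t6_flip j k, t6_flip_flip j k, t6_flip_flip j k⟩

theorem t6_dig_sq (u : Om d R) (j : Fin d) (k : Fin R) : dig u j k ^ 2 = 1 := by
  unfold dig
  split_ifs <;> norm_num

/-- `Y k` does not depend on the digits `≥ k` of the coordinate `j`.  Induction on the number of
digits `k` included: with `F_K = ∑_{k < K} dig u j k * Y k u`,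
`av F_{K+1}^{2m} = av (((F_K + Y_K)^{2m} + (F_K - Y_K)^{2m}) / 2)` (flip the digit `(j, K)`), then
`two_point` and `mink`. -/
theorem digit_sum (m : ℕ) (hm : 1 ≤ m) (j : Fin d) (Y : Fin R → Om d R → ℝ)
    (hY : ∀ k, ∀ u u' : Om d R, (∀ i l, (i = j → l < k) → u i l = u' i l) → Y k u = Y k u')
    (b : Fin R → ℝ) (hb : ∀ k, 0 ≤ b k) (h : ∀ k, av (fun u => Y k u ^ (2 * m)) ≤ b k ^ m) :
    av (fun u => (∑ k, dig u j k * Y k u) ^ (2 * m)) ≤ ((2 * (m : ℝ) - 1) * ∑ k, b k) ^ m := by
  have hm1 : (0 : ℝ) ≤ 2 * (m : ℝ) - 1 := by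
    have : (1 : ℝ) ≤ m := by exact_mod_cast hm
    linarith
  have key : ∀ K : ℕ, K ≤ R →
      av (fun u => (∑ k ∈ univ.filter (fun k : Fin R => k.val < K), dig u j k * Y k u) ^ (2 * m)) ≤
        ((2 * (m : ℝ) - 1) * ∑ k ∈ univ.filter (fun k : Fin R => k.val < K), b k) ^ m := by
    intro K
    induction K with
    | zero =>
      intro _
      simp only [Nat.not_lt_zero, filter_false, sum_empty, mul_zero]
      rw [zero_pow (by omega), zero_pow (by omega), av_const]
    | succ K ih =>
      intro hK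
      have hK' : K < R := by omega
      have ih' := ih (by omega)
      have hfil : univ.filter (fun k : Fin R => k.val < K + 1) =
          insert (⟨K, hK'⟩ : Fin R) (univ.filter (fun k : Fin R => k.val < K)) := by
        ext k
        simp only [mem_filter, mem_univ, true_and, mem_insert, Fin.ext_iff]
        omega
      have hnot : (⟨K, hK'⟩ : Fin R) ∉ univ.filter (fun k : Fin R => k.val < K) := by
        simp
      set k0 : Fin R := ⟨K, hK'⟩ with hk0
      set F : Om d R → ℝ := fun u => ∑ k ∈ univ.filter (fun k : Fin R => k.val < K), dig u j k * Y k u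
        with hF
      have hexp : ∀ u, (∑ k ∈ univ.filter (fun k : Fin R => k.val < K + 1), dig u j k * Y k u) =
          F u + dig u j k0 * Y k0 u := by
        intro u
        rw [hfil, sum_insert hnot, add_comm]
      simp only [hexp]
      rw [hfil, sum_insert hnot, mul_add, add_comm ((2 * (m : ℝ) - 1) * b k0)]
      have hflip : ∀ u, F (t6_flip j k0 u) + dig (t6_flip j k0 u) j k0 * Y k0 (t6_flip j k0 u) =
          F u - dig u j k0 * Y k0 u := by
        intro u
        have f1 : F (t6_flip j k0 u) = F u := by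
          simp only [hF]
          refine sum_congr rfl fun k hk => ?_
          have hk1 : k.val < K := (mem_filter.1 hk).2
          have f2 : dig (t6_flip j k0 u) j k = dig u j k := by
            unfold dig t6_flip
            have : ¬ (j = j ∧ k = k0) := by
              rintro ⟨_, h2⟩
              rw [h2, hk0] at hk1
              simp at hk1
            rw [if_neg this]
          have f3 : Y k (t6_flip j k0 u) = Y k u := by
            apply hY
            intro i l hil
            unfold t6_flip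
            rw [if_neg]
            rintro ⟨h1, h2⟩
            have h3 := hil h1
            rw [h2, Fin.lt_def, hk0] at h3
            simp only at h3
            omega
          rw [f2, f3]
        have f4 : dig (t6_flip j k0 u) j k0 = - dig u j k0 := by
          unfold dig t6_flip
          simp only [and_self, if_true]
          cases u j k0 <;> simp
        have f5 : Y k0 (t6_flip j k0 u) = Y k0 u := by
          apply hY
          intro i l hil
          unfold t6_flip
          rw [if_neg]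
          rintro ⟨h1, h2⟩
          have h3 := hil h1
          rw [h2] at h3
          exact lt_irrefl _ h3
        rw [f1, f4, f5]
        ring
      have hav : av (fun u => (F u + dig u j k0 * Y k0 u) ^ (2 * m)) =
          av (fun u => ((F u + dig u j k0 * Y k0 u) ^ (2 * m) +
            (F u - dig u j k0 * Y k0 u) ^ (2 * m)) / 2) := by
        have e1 : av (fun u => (F u - dig u j k0 * Y k0 u) ^ (2 * m)) =
            av (fun u => (F u + dig u j k0 * Y k0 u) ^ (2 * m)) := by
          rw [← av_equiv (t6_flipE j k0) (fun u => (F u + dig u j k0 * Y k0 u) ^ (2 * m))]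
          congr 1
          funext u
          change _ = (F (t6_flip j k0 u) + dig (t6_flip j k0 u) j k0 * Y k0 (t6_flip j k0 u)) ^ (2 * m)
          rw [hflip]
        have e2 : (fun u => ((F u + dig u j k0 * Y k0 u) ^ (2 * m) +
            (F u - dig u j k0 * Y k0 u) ^ (2 * m)) / 2) =
            fun u => (1 / 2) * ((F u + dig u j k0 * Y k0 u) ^ (2 * m) +
            (F u - dig u j k0 * Y k0 u) ^ (2 * m)) := by
          funext u; ring
        rw [e2, av_const_mul, av_add, e1]
        ring
      rw [hav]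
      have hle : av (fun u => ((F u + dig u j k0 * Y k0 u) ^ (2 * m) +
            (F u - dig u j k0 * Y k0 u) ^ (2 * m)) / 2) ≤
          av (fun u => (F u ^ 2 + (2 * (m : ℝ) - 1) * Y k0 u ^ 2) ^ m) := by
        apply av_mono
        intro u
        refine (two_point m (F u) (dig u j k0 * Y k0 u)).trans (le_of_eq ?_)
        rw [mul_pow, t6_dig_sq, one_mul]
      refine hle.trans ?_
      apply mink m hm
      · intro u; positivity
      · intro u; exact mul_nonneg hm1 (sq_nonneg _)
      · exact mul_nonneg hm1 (sum_nonneg fun k _ => hb k)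
      · exact mul_nonneg hm1 (hb k0)
      · refine le_trans (le_of_eq ?_) ih'
        congr 1
        funext u
        rw [← pow_mul]
      · have e1 : (fun u => ((2 * (m : ℝ) - 1) * Y k0 u ^ 2) ^ m) =
            fun u => (2 * (m : ℝ) - 1) ^ m * Y k0 u ^ (2 * m) := by
          funext u
          rw [mul_pow, ← pow_mul]
        rw [e1, av_const_mul, mul_pow]
        exact mul_le_mul_of_nonneg_left (h k0) (pow_nonneg hm1 m)
  have := key R le_rfl
  have hall : univ.filter (fun k : Fin R => k.val < R) = univ := by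
    ext k; simp
  rw [hall] at this
  exact this

/-- Hölder type bound: `|U| |Γ| ≤ K |U| + B |Γ|^{2m} / K^{2m-1}` with `K = 3 Q` -/
theorem holder (m : ℕ) (hm : 1 ≤ m) (U Γ : Om d R → ℝ) (B Q : ℝ) (hU : ∀ u, |U u| ≤ B)
    (hQ : 0 < Q) (hB : B ≤ 9 ^ m) (hΓ : av (fun u => Γ u ^ (2 * m)) ≤ Q ^ (2 * m)) :
    |av (fun u => U u * Γ u)| ≤ 3 * Q * (av (fun u => |U u|) + 1) := by
  have hB0 : 0 ≤ B := (abs_nonneg _).trans (hU (fun _ _ => true))
  obtain ⟨n, hn⟩ : ∃ n, 2 * m = n + 1 := ⟨2 * m - 1, by omega⟩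
  have hK : 0 < 3 * Q := by positivity
  have key : ∀ u, |U u * Γ u| ≤ (3 * Q) * |U u| + (B / (3 * Q) ^ n) * Γ u ^ (2 * m) := by
    intro u
    rw [abs_mul]
    have hpow : Γ u ^ (2 * m) = |Γ u| ^ (2 * m) := by rw [pow_mul, pow_mul, sq_abs]
    rw [hpow]
    have hr : 0 ≤ (B / (3 * Q) ^ n) * |Γ u| ^ (2 * m) := by positivity
    rcases le_or_gt |Γ u| (3 * Q) with hc | hc
    · have := mul_le_mul_of_nonneg_left hc (abs_nonneg (U u))
      nlinarith
    · have h1 : |Γ u| ≤ |Γ u| ^ (2 * m) / (3 * Q) ^ n := by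
        rw [le_div_iff₀ (by positivity), hn, pow_succ, mul_comm]
        apply mul_le_mul_of_nonneg_right _ (abs_nonneg _)
        exact pow_le_pow_left₀ hK.le hc.le n
      have h2 : |U u| * |Γ u| ≤ B * (|Γ u| ^ (2 * m) / (3 * Q) ^ n) :=
        mul_le_mul (hU u) h1 (abs_nonneg _) hB0
      have h3 : 0 ≤ 3 * Q * |U u| := by positivity
      calc |U u| * |Γ u| ≤ B * (|Γ u| ^ (2 * m) / (3 * Q) ^ n) := h2
        _ = (B / (3 * Q) ^ n) * |Γ u| ^ (2 * m) := by ring
        _ ≤ _ := by linarith
  calc |av (fun u => U u * Γ u)| ≤ av (fun u => |U u * Γ u|) := abs_av_le _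
    _ ≤ av (fun u => (3 * Q) * |U u| + (B / (3 * Q) ^ n) * Γ u ^ (2 * m)) := av_mono key
    _ = (3 * Q) * av (fun u => |U u|) + (B / (3 * Q) ^ n) * av (fun u => Γ u ^ (2 * m)) := by
        rw [av_add, av_const_mul, av_const_mul]
    _ ≤ (3 * Q) * av (fun u => |U u|) + (B / (3 * Q) ^ n) * Q ^ (2 * m) := by
        have := mul_le_mul_of_nonneg_left hΓ (show 0 ≤ B / (3 * Q) ^ n by positivity)
        linarith
    _ = (3 * Q) * av (fun u => |U u|) + 3 * Q * (B / 9 ^ m) := by
        have e1 : (9 : ℝ) ^ m = 3 * 3 ^ n := by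
          rw [show (9 : ℝ) = 3 ^ 2 by norm_num, ← pow_mul, hn, pow_succ]; ring
        rw [e1, hn, mul_pow, pow_succ]
        field_simp
    _ ≤ _ := by
        have h9 : (0 : ℝ) < 9 ^ m := by positivity
        have : B / 9 ^ m ≤ 1 := by rw [div_le_one h9]; exact hB
        have := mul_le_mul_of_nonneg_left this hK.le
        linarith

end Pool.Agent.H714R2.LA
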