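import Pool.Agent.H714R2.LA.Defs

set_option autoImplicit false

/-!
# T1: algebra of the averaging operators
-/

namespace Pool.Agent.H714R2.LA

open Finset

variable {d R : ℕ} {s s' : Fin d → Fin R} {b b' : Finset (Fin d)} {F G : Om d R → ℝ}

theorem av_nonneg (h : ∀ u, 0 ≤ F u) : 0 ≤ av F :=
  div_nonneg (sum_nonneg fun u _ => h u) (Nat.cast_nonneg _)

theorem av_mono (h : ∀ u, F u ≤ G u) : av F ≤ av G :=
  div_le_div_of_nonneg_right (sum_le_sum fun u _ => h u) (Nat.cast_nonneg _)

theorem av_add (F G : Om d R → ℝ) : av (fun u => F u + G u) = av F + av G := by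
  simp only [av, sum_add_distrib, add_div]

theorem av_sub (F G : Om d R → ℝ) : av (fun u => F u - G u) = av F - av G := by
  simp only [av, sum_sub_distrib, sub_div]

theorem av_neg (F : Om d R → ℝ) : av (fun u => -F u) = -av F := by
  simp only [av, sum_neg_distrib, neg_div]

theorem av_const_mul (a : ℝ) (F : Om d R → ℝ) : av (fun u => a * F u) = a * av F := by
  simp only [av, ← mul_sum, mul_div_assoc]

theorem av_sum {κ : Type} (K : Finset κ) (F : κ → Om d R → ℝ) :
    av (fun u => ∑ i ∈ K, F i u) = ∑ i ∈ K, av (F i) := by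
  simp only [av]
  rw [sum_comm, sum_div]

theorem ops_card_Om_pos : (0:ℝ) < (Fintype.card (Om d R) : ℝ) := by
  exact_mod_cast Fintype.card_pos

theorem av_const (a : ℝ) : av (fun _ : Om d R => a) = a := by
  have := ops_card_Om_pos (d := d) (R := R)
  simp only [av, sum_const, card_univ, nsmul_eq_mul]
  field_simp

theorem abs_av_le (F : Om d R → ℝ) : |av F| ≤ av (fun u => |F u|) := by
  simp only [av]
  rw [abs_div, abs_of_pos (ops_card_Om_pos (d := d) (R := R))]
  exact div_le_div_of_nonneg_right (abs_sum_le_sum_abs _ _) (Nat.cast_nonneg _)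

theorem av_equiv (e : Om d R ≃ Om d R) (F : Om d R → ℝ) : av (fun u => F (e u)) = av F := by
  simp only [av]
  rw [Equiv.sum_comp e F]

theorem ops_res_res (s : Fin d → Fin R) (b b' : Finset (Fin d)) (u v w : Om d R) :
    res s b' (res s b u v) w = res s (b ∪ b') u (res s b' v w) := by
  funext i k
  simp only [res, mem_union]
  split_ifs <;> tauto

theorem ops_res_idem (s : Fin d → Fin R) (b : Finset (Fin d)) (u v w : Om d R) :
    res s b (res s b u v) w = res s b u w := by
  funext i k
  simp only [res]
  split_ifs <;> rfl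

theorem ops_res_comm' (s : Fin d → Fin R) (b b' : Finset (Fin d)) (u v w : Om d R) :
    res s b (res s b' u v) w =
      res s b' (res s b u w) (fun i k => if i ∈ b then w i k else v i k) := by
  funext i k
  simp only [res]
  split_ifs <;> tauto

theorem ops_res_swap (s : Fin d → Fin R) (b : Finset (Fin d)) (u v : Om d R) :
    res s b (res s b u v) (res s b v u) = u := by
  funext i k
  simp only [res]
  split_ifs <;> rfl

theorem Inv.mono (h : Inv s b' F) (hb : b ⊆ b') : Inv s b F := by
  intro u v
  have h1 : res s b u v = res s b' u (res s b u v) := by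
    funext i k
    simp only [res]
    by_cases hi : i ∈ b
    · have := hb hi
      simp only [hi, this, true_and]
      split_ifs <;> rfl
    · simp only [hi, false_and, if_false]
      split_ifs <;> rfl
  rw [h1, h u]

theorem Inv.union (h : Inv s b F) (h' : Inv s b' F) : Inv s (b ∪ b') F := by
  intro u v
  have h1 : res s (b ∪ b') u v = res s b' (res s b u v) v := by
    funext i k
    simp only [res, mem_union]
    split_ifs <;> tauto
  rw [h1, h', h]

theorem Inv.comp (h : Inv s b F) (φ : ℝ → ℝ) : Inv s b (fun u => φ (F u)) := by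
  intro u v
  show φ (F (res s b u v)) = φ (F u)
  rw [h u v]

theorem Inv.comp2 (h : Inv s b F) (h' : Inv s b G) (φ : ℝ → ℝ → ℝ) :
    Inv s b (fun u => φ (F u) (G u)) := by
  intro u v
  show φ (F (res s b u v)) (G (res s b u v)) = φ (F u) (G u)
  rw [h u v, h' u v]

theorem inv_const (s : Fin d → Fin R) (b : Finset (Fin d)) (a : ℝ) : Inv s b (fun _ => a) :=
  fun _ _ => rfl

theorem inv_sum {κ : Type} (K : Finset κ) (F : κ → Om d R → ℝ) (h : ∀ i ∈ K, Inv s b (F i)) :
    Inv s b (fun u => ∑ i ∈ K, F i u) := by
  intro u v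
  exact sum_congr rfl fun i hi => h i hi u v

theorem inv_prod {κ : Type} (K : Finset κ) (F : κ → Om d R → ℝ) (h : ∀ i ∈ K, Inv s b (F i)) :
    Inv s b (fun u => ∏ i ∈ K, F i u) := by
  intro u v
  exact prod_congr rfl fun i hi => h i hi u v

theorem ops_res_empty (s : Fin d → Fin R) (u v : Om d R) : res s ∅ u v = u := by
  funext i k
  simp [res]

theorem inv_empty (s : Fin d → Fin R) (F : Om d R → ℝ) : Inv s ∅ F := by
  intro u v
  rw [ops_res_empty]

theorem A_eq_of_inv (h : Inv s b F) : A s b F = F := by
  funext u
  simp only [A]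
  rw [show (fun v => F (res s b u v)) = fun _ => F u from funext fun v => h u v, av_const]

theorem A_empty (s : Fin d → Fin R) (F : Om d R → ℝ) : A s ∅ F = F :=
  A_eq_of_inv (inv_empty s F)

/-- averaging preserves the average: use the involution
`(u, v) ↦ (res s b u v, res s b v u)` of the pairs -/
theorem av_A (s : Fin d → Fin R) (b : Finset (Fin d)) (F : Om d R → ℝ) : av (A s b F) = av F := by
  have hc := ops_card_Om_pos (d := d) (R := R)
  let e : Om d R × Om d R ≃ Om d R × Om d R :=
    { toFun := fun x => (res s b x.1 x.2, res s b x.2 x.1)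
      invFun := fun x => (res s b x.1 x.2, res s b x.2 x.1)
      left_inv := fun x => by
        show (res s b (res s b x.1 x.2) (res s b x.2 x.1),
          res s b (res s b x.2 x.1) (res s b x.1 x.2)) = x
        rw [ops_res_swap, ops_res_swap]
      right_inv := fun x => by
        show (res s b (res s b x.1 x.2) (res s b x.2 x.1),
          res s b (res s b x.2 x.1) (res s b x.1 x.2)) = x
        rw [ops_res_swap, ops_res_swap] }
  have h1 : ∑ u, ∑ v, F (res s b u v) = (Fintype.card (Om d R) : ℝ) * ∑ u, F u := by
    have h2 : ∑ u, ∑ v, F (res s b u v) = ∑ x : Om d R × Om d R, F (e x).1 := by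
      rw [Fintype.sum_prod_type]
      rfl
    rw [h2, Equiv.sum_comp e (fun x => F x.1), Fintype.sum_prod_type]
    simp only [sum_const, card_univ, nsmul_eq_mul]
    rw [← mul_sum]
  simp only [A, av]
  rw [← sum_div, h1]
  field_simp

/-- `res s b' (res s b u v) w = res s (b ∪ b') u (res s b' v w)` and `av_A` -/
theorem A_A (s : Fin d → Fin R) (b b' : Finset (Fin d)) (F : Om d R → ℝ) :
    A s b (A s b' F) = A s (b ∪ b') F := by
  funext u
  have h1 := av_A s b' (fun v => F (res s (b ∪ b') u v))
  show av (fun v => av fun w => F (res s b' (res s b u v) w)) = av fun v => F (res s (b ∪ b') u v)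
  rw [← h1]
  congr 1
  funext v
  show av (fun w => F (res s b' (res s b u v) w)) = av fun w => F (res s (b ∪ b') u (res s b' v w))
  congr 1
  funext w
  rw [ops_res_res]

theorem A_mul (h : Inv s b F) (G : Om d R → ℝ) :
    A s b (fun u => F u * G u) = fun u => F u * A s b G u := by
  funext u
  simp only [A]
  rw [← av_const_mul]
  congr 1
  funext v
  rw [h u v]

theorem inv_A (s : Fin d → Fin R) (b : Finset (Fin d)) (F : Om d R → ℝ) : Inv s b (A s b F) := by
  intro u v
  simp only [A]
  congr 1
  funext w
  rw [ops_res_idem]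

/-- averaging over the coordinates `b` preserves the invariance in the coordinates `b'` -/
theorem Inv.A_inv (h : Inv s b' F) (b : Finset (Fin d)) : Inv s b' (A s b F) := by
  intro u v
  simp only [A]
  congr 1
  funext w
  rw [ops_res_comm', h]

theorem A_mono (s : Fin d → Fin R) (b : Finset (Fin d)) (h : ∀ u, F u ≤ G u) (u : Om d R) :
    A s b F u ≤ A s b G u := av_mono fun _ => h _

theorem A_const_mul (s : Fin d → Fin R) (b : Finset (Fin d)) (a : ℝ) (F : Om d R → ℝ) :
    A s b (fun u => a * F u) = fun u => a * A s b F u := by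
  funext u
  simp only [A]
  rw [← av_const_mul]

theorem A_nonneg (s : Fin d → Fin R) (b : Finset (Fin d)) (h : ∀ u, 0 ≤ F u) (u : Om d R) :
    0 ≤ A s b F u := av_nonneg fun _ => h _

/-- `A s b F` depends only on the restriction of `s` to `b` -/
theorem A_dep (h : ∀ i ∈ b, s i = s' i) (F : Om d R → ℝ) : A s b F = A s' b F := by
  funext u
  simp only [A]
  congr 1
  funext v
  congr 1
  funext i k
  simp only [res]
  by_cases hi : i ∈ b
  · rw [h i hi]
  · simp [hi]

theorem av_mul_A (h : Inv s b F) (G : Om d R → ℝ) :
    av (fun u => F u * G u) = av (fun u => F u * A s b G u) := by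
  rw [← av_A s b (fun u => F u * G u), A_mul h]

theorem abs_A_le (s : Fin d → Fin R) (b : Finset (Fin d)) (F : Om d R → ℝ) (u : Om d R) :
    |A s b F u| ≤ A s b (fun v => |F v|) u := abs_av_le _

theorem av_abs_A_le (s : Fin d → Fin R) (b : Finset (Fin d)) (F : Om d R → ℝ) :
    av (fun u => |A s b F u|) ≤ av (fun u => |F u|) := by
  rw [← av_A s b (fun u => |F u|)]
  exact av_mono fun u => abs_A_le s b F u

theorem ops_abs_dig (u : Om d R) (i : Fin d) (k : Fin R) : |dig u i k| = 1 := by
  unfold dig
  split_ifs <;> simp

theorem abs_rad (s : Fin d → Fin R) (u : Om d R) : |rad s u| = 1 := by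
  unfold rad
  rw [abs_prod]
  exact prod_eq_one fun i _ => ops_abs_dig u i _

/-- flip the digit `k` of the coordinate `j` -/
def ops_flip (j : Fin d) (k : Fin R) (u : Om d R) : Om d R :=
  fun i l => if i = j ∧ l = k then !(u i l) else u i l

theorem ops_flip_flip (j : Fin d) (k : Fin R) (u : Om d R) : ops_flip j k (ops_flip j k u) = u := by
  funext i l
  simp only [ops_flip]
  split_ifs <;> simp

/-- cancellation: flip the digit `s j` of the coordinate `j` -/
theorem av_rad_mul (j : Fin d) (h : Inv s {j} F) : av (fun u => rad s u * F u) = 0 := by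
  let e : Om d R ≃ Om d R :=
    { toFun := ops_flip j (s j)
      invFun := ops_flip j (s j)
      left_inv := ops_flip_flip j (s j)
      right_inv := ops_flip_flip j (s j) }
  have h1 := av_equiv e (fun u => rad s u * F u)
  have h2 : ∀ u, F (e u) = F u := by
    intro u
    have h3 : e u = res s {j} u (e u) := by
      funext i k
      show ops_flip j (s j) u i k = if i ∈ ({j} : Finset (Fin d)) ∧ s i ≤ k then ops_flip j (s j) u i k
        else u i k
      simp only [mem_singleton, ops_flip]
      by_cases hi : i = j
      · subst hi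
        by_cases hk : s i ≤ k
        · simp [hk]
        · have : k ≠ s i := by
            intro hcon
            exact hk (le_of_eq hcon.symm)
          simp [hk, this]
      · simp [hi]
    rw [h3, h u]
  have h4 : ∀ u, rad s (e u) = - rad s u := by
    intro u
    unfold rad
    rw [← mul_prod_erase univ _ (mem_univ j), ← mul_prod_erase univ (fun i => dig u i (s i)) (mem_univ j)]
    have h5 : dig (e u) j (s j) = - dig u j (s j) := by
      show dig (ops_flip j (s j) u) j (s j) = - dig u j (s j)
      simp only [dig, ops_flip]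
      cases u j (s j) <;> simp
    have h6 : ∏ x ∈ univ.erase j, dig (e u) x (s x) = ∏ x ∈ univ.erase j, dig u x (s x) := by
      refine prod_congr rfl fun i hi => ?_
      have hij : i ≠ j := (mem_erase.mp hi).1
      show dig (ops_flip j (s j) u) i (s i) = dig u i (s i)
      simp [dig, ops_flip, hij]
    rw [h5, h6]
    ring
  have h7 : (fun u => rad s (e u) * F (e u)) = fun u => - (rad s u * F u) := by
    funext u
    rw [h2, h4]
    ring
  rw [h7, av_neg] at h1
  linarith

end Pool.Agent.H714R2.LA
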