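import Pool.Agent.H714R2.LA.Comb

set_option autoImplicit false

/-!
# T10: choice of the parameters
-/

namespace Pool.Agent.H714R2.LA

open Finset

/-- `ζ k = η^(3^(d-k))`, `ε = η` -/
theorem par_exists (d : ℕ) (η : ℝ) (hη : 0 < η) (hη1 : η ≤ 1 / 2 ^ (d + 1)) :
    Par d (fun k => η ^ (3 ^ (d - k))) η := by
  have h1 : η ≤ 1 := by
    refine hη1.trans ?_
    rw [div_le_one (by positivity)]
    exact one_le_pow₀ (by norm_num)
  have hexp : ∀ a b : ℕ, a < b → b < d → 3 * 3 ^ (d - b) ≤ 3 ^ (d - a) := by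
    intro a b hab hb
    rw [← pow_succ']
    exact Nat.pow_le_pow_right (by norm_num) (by omega)
  refine ⟨hη, h1, fun k => by positivity, ?_, ?_, ?_⟩
  · intro a b hab hb
    show η ^ (3 ^ (d - a)) ≤ η * η ^ (3 ^ (d - b))
    rw [← pow_succ']
    refine pow_le_pow_of_le_one hη.le h1 ?_
    have := hexp a b hab hb
    have h3 : 1 ≤ 3 ^ (d - b) := Nat.one_le_pow _ _ (by norm_num)
    omega
  · intro a b c hab hac hb hc
    show η ^ (3 ^ (d - a)) ≤ η * (η ^ (3 ^ (d - b)) * η ^ (3 ^ (d - c)))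
    rw [← pow_add, ← pow_succ']
    refine pow_le_pow_of_le_one hη.le h1 ?_
    have e1 := hexp a b hab hb
    have e2 := hexp a c hac hc
    have h3 : 1 ≤ 3 ^ (d - b) := Nat.one_le_pow _ _ (by norm_num)
    have h4 : 1 ≤ 3 ^ (d - c) := Nat.one_le_pow _ _ (by norm_num)
    omega
  · have h2 : ∀ c ∈ (univ : Finset (Finset (Fin d))).erase univ,
        η ^ (3 ^ (d - c.card)) ≤ 1 / 2 ^ (d + 1) := by
      intro c _
      refine le_trans ?_ hη1
      calc η ^ (3 ^ (d - c.card)) ≤ η ^ 1 :=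
            pow_le_pow_of_le_one hη.le h1 (Nat.one_le_pow _ _ (by norm_num))
        _ = η := pow_one η
    refine (Finset.sum_le_sum h2).trans ?_
    rw [Finset.sum_const, nsmul_eq_mul]
    have h3 : (((univ : Finset (Finset (Fin d))).erase univ).card : ℝ) ≤ 2 ^ d := by
      have : ((univ : Finset (Finset (Fin d))).erase univ).card ≤ 2 ^ d := by
        refine (Finset.card_le_card (Finset.erase_subset _ _)).trans ?_
        rw [Finset.card_univ, Fintype.card_finset, Fintype.card_fin]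
      exact_mod_cast this
    calc (((univ : Finset (Finset (Fin d))).erase univ).card : ℝ) * (1 / 2 ^ (d + 1))
        ≤ 2 ^ d * (1 / 2 ^ (d + 1)) := by gcongr
      _ = 1 / 2 := by rw [pow_succ]; field_simp

/-- the step with fixed parameters -/
theorem grid_step (d : ℕ) (hd : 2 ≤ d) (δ₀ : ℝ) (hδ₀ : 0 < δ₀) (C₁ : ℝ)
    (hC₁ : 2 ^ (d + 2) ≤ C₁)
    (hC₁' : 8 * (16 ^ (d + 1) + (1 + ((Ch d).card : ℝ)) * 8 ^ d) * 4 ^ d ≤ C₁ * δ₀)
    (n : ℕ) (hn : d ≤ n) (hn3 : 3 ≤ n) (ι : Type) (S : Finset ι) (w : ι → ℝ)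
    (p : ι → Fin d → ℕ) (M : ℝ) (t : Fin d → ℝ) (hM : δ₀ * 2 ^ n ≤ M) (hM1 : M ≤ 2 ^ n)
    (hS : 4 * (S.card : ℝ) ≤ 2 ^ n) (m : ℕ) (hm : 1 ≤ m)
    (hm1 : (3 ^ d + 1) * Real.log (C₁ * ((Sh d (n + 1) n).card : ℝ)) ≤ m)
    (hX : av (fun u : Om d (n + 1) => |DD S w p M t u|) ≤ ((Sh d (n + 1) n).card : ℝ)) :
    δ₀ / (12 * 4 ^ d * (((Ch d).card : ℝ) + 1)) *
      ((n : ℝ) / (2 * d * m)) ^ (((d : ℝ) - 1) / 2) ≤
      av (fun u : Om d (n + 1) => |DD S w p M t u|) + 1 := by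
  have hd1 : 1 ≤ d := by omega
  have h2n : (0 : ℝ) < 2 ^ n := by positivity
  have hd0 : (0 : ℝ) < d := by exact_mod_cast (by omega : 0 < d)
  have hn0 : (0 : ℝ) < n := by exact_mod_cast (by omega : 0 < n)
  have hm0 : (0 : ℝ) < m := by exact_mod_cast (by omega : 0 < m)
  have hm1' : (1 : ℝ) ≤ m := by exact_mod_cast hm
  set σ : ℝ := ((Sh d (n + 1) n).card : ℝ) with hσdef
  set X : ℝ := av (fun u : Om d (n + 1) => |DD S w p M t u|) with hXdef
  set κ : ℝ := ((Ch d).card : ℝ) + 1 with hκ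
  set K : ℝ := 16 ^ (d + 1) + (1 + ((Ch d).card : ℝ)) * 8 ^ d with hK
  have hκ0 : 0 < κ := by rw [hκ]; positivity
  have hK0 : 0 < K := by rw [hK]; positivity
  have hX0 : 0 ≤ X := by
    rw [hXdef]
    unfold av
    exact div_nonneg (Finset.sum_nonneg fun _ _ => abs_nonneg _) (Nat.cast_nonneg _)
  have hσ_ge : ((n : ℝ) / d) ^ (d - 1) ≤ σ := card_Sh_ge d n hd1
  have hσ1 : 1 ≤ σ := by
    refine le_trans ?_ hσ_ge
    refine one_le_pow₀ ?_
    rw [le_div_iff₀ hd0, one_mul]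
    exact_mod_cast hn
  have hσ0 : 0 < σ := by linarith
  have hC₁0 : 0 < C₁ := lt_of_lt_of_le (by positivity) hC₁
  set η : ℝ := 1 / (C₁ * σ) with hη
  have hCσ : 0 < C₁ * σ := by positivity
  have hη0 : 0 < η := by rw [hη]; positivity
  have hη1 : η ≤ 1 / 2 ^ (d + 1) := by
    rw [hη]
    refine one_div_le_one_div_of_le (by positivity) ?_
    calc (2 : ℝ) ^ (d + 1) ≤ 2 ^ (d + 2) := pow_le_pow_right₀ (by norm_num) (by omega)
      _ ≤ C₁ := hC₁
      _ = C₁ * 1 := (mul_one _).symm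
      _ ≤ C₁ * σ := by gcongr
  have hηle : η ≤ 1 := by
    refine hη1.trans ?_
    rw [div_le_one (by positivity)]
    exact one_le_pow₀ (by norm_num)
  have hPar := par_exists d η hη0 hη1
  set L : ℝ := 4 * σ / η ^ (3 ^ d) with hL
  have hη3 : 0 < η ^ (3 ^ d) := by positivity
  have hη3' : η ^ (3 ^ d) ≤ 1 := pow_le_one₀ hη0.le hηle
  have hL0 : 0 < L := by rw [hL]; positivity
  have hL1 : 1 ≤ L := by
    rw [hL, le_div_iff₀ hη3]
    linarith
  have hδ1 : M / 2 ^ n ≤ 1 := by rwa [div_le_one h2n]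
  have hδ2 : δ₀ ≤ M / 2 ^ n := by rwa [le_div_iff₀ h2n]
  have hMpos : 0 < M := lt_of_lt_of_le (by positivity) hM
  have h0 : 4 * X ≤ L * η ^ (3 ^ (d - 0)) := by
    rw [Nat.sub_zero, hL, div_mul_cancel₀ _ hη3.ne']
    linarith
  have hB : 2 ^ d * L ≤ 9 ^ m := by
    have e1 : 2 ^ d * L ≤ (C₁ * σ) ^ (3 ^ d + 1) := by
      have e2 : η ^ (3 ^ d) = 1 / (C₁ * σ) ^ (3 ^ d) := by rw [hη, one_div_pow]
      rw [hL, e2, div_div_eq_mul_div, div_one, pow_succ]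
      have e3 : 2 ^ d * (4 * σ) ≤ C₁ * σ := by
        have : (2 : ℝ) ^ d * 4 ≤ C₁ := by
          refine le_trans (le_of_eq ?_) hC₁
          rw [pow_add]; norm_num
        nlinarith
      calc 2 ^ d * (4 * σ * (C₁ * σ) ^ 3 ^ d) = (C₁ * σ) ^ 3 ^ d * (2 ^ d * (4 * σ)) := by ring
        _ ≤ (C₁ * σ) ^ 3 ^ d * (C₁ * σ) := by gcongr
    refine e1.trans ?_
    have e4 : (C₁ * σ) ^ (3 ^ d + 1) = Real.exp (((3 ^ d + 1 : ℕ) : ℝ) * Real.log (C₁ * σ)) := by
      rw [Real.exp_nat_mul, Real.exp_log hCσ]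
    rw [e4]
    have e5 : ((3 ^ d + 1 : ℕ) : ℝ) * Real.log (C₁ * σ) ≤ m := by
      push_cast
      exact hm1
    calc Real.exp (((3 ^ d + 1 : ℕ) : ℝ) * Real.log (C₁ * σ)) ≤ Real.exp (m : ℝ) :=
          Real.exp_le_exp.mpr e5
      _ = Real.exp 1 ^ m := by rw [← Real.exp_nat_mul, mul_one]
      _ ≤ 9 ^ m := by
          refine pow_le_pow_left₀ (Real.exp_pos 1).le ?_ m
          have := Real.exp_one_lt_d9
          linarith
  set Q : ℝ := Real.sqrt ((2 * (m : ℝ)) ^ (d - 1) * σ) with hQ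
  have hQ0 : 0 < Q := Real.sqrt_pos.mpr (by positivity)
  have hQsq : Q ^ 2 = (2 * (m : ℝ)) ^ (d - 1) * σ := Real.sq_sqrt (by positivity)
  have hQ2 : (2 * (m : ℝ) - 1) ^ (d - 1) * σ ≤ Q ^ 2 := by
    rw [hQsq]
    gcongr
    · linarith
    · linarith
  have hcomb := comb hd hPar S w p M hMpos t n m hm L hL0 (hδ1.trans hL1) hS h0 hB Q hQ0 hQ2
  rw [← hσdef, ← hXdef, ← hκ, ← hK] at hcomb
  -- the second term
  have h2 : K * η * σ * (X + M / 2 ^ n) ≤ δ₀ / 4 ^ d * (σ / 4) := by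
    have e1 : K * η * σ * (X + M / 2 ^ n) ≤ K * η * σ * (2 * σ) := by
      gcongr
      linarith
    refine e1.trans ?_
    have e2 : K * η * σ * (2 * σ) = 2 * K * σ / C₁ := by
      rw [hη]
      field_simp
    rw [e2, div_mul_div_comm, div_le_div_iff₀ hC₁0 (by positivity)]
    have := mul_le_mul_of_nonneg_left hC₁' hσ0.le
    nlinarith
  have h3 : δ₀ / 4 ^ d * (σ / 2) ≤ M / 2 ^ n / 4 ^ d * (σ / 2) := by
    gcongr
  have h4 : δ₀ / 4 ^ d * (σ / 4) ≤ κ * (3 * Q * (X + 1)) := by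
    have : δ₀ / 4 ^ d * (σ / 2) = δ₀ / 4 ^ d * (σ / 4) + δ₀ / 4 ^ d * (σ / 4) := by ring
    linarith
  -- the power
  set y : ℝ := ((n : ℝ) / (2 * d * m)) ^ (((d : ℝ) - 1) / 2) with hy
  have hbase : (0 : ℝ) ≤ (n : ℝ) / (2 * d * m) := by positivity
  have hy0 : 0 ≤ y := Real.rpow_nonneg hbase _
  have hysq : y ^ 2 = ((n : ℝ) / (2 * d * m)) ^ (d - 1) := by
    rw [hy, ← Real.rpow_natCast, ← Real.rpow_mul hbase, ← Real.rpow_natCast]
    congr 1
    rw [Nat.cast_sub hd1]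
    push_cast
    ring
  have hQy : Q * y ≤ σ := by
    refine abs_le_of_sq_le_sq' ?_ hσ0.le |>.2
    rw [mul_pow, hQsq, hysq]
    calc (2 * (m : ℝ)) ^ (d - 1) * σ * ((n : ℝ) / (2 * d * m)) ^ (d - 1)
        = σ * ((2 * (m : ℝ)) * ((n : ℝ) / (2 * d * m))) ^ (d - 1) := by
          rw [mul_pow (2 * (m : ℝ)) ((n : ℝ) / (2 * d * m)) (d - 1)]; ring
      _ = σ * ((n : ℝ) / d) ^ (d - 1) := by
          congr 2
          field_simp
      _ ≤ σ * σ := by gcongr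
      _ = σ ^ 2 := by ring
  have h5 : δ₀ / 4 ^ d * (σ / 4) * y ≤ κ * 3 * (X + 1) * σ := by
    calc δ₀ / 4 ^ d * (σ / 4) * y ≤ κ * (3 * Q * (X + 1)) * y := by gcongr
      _ = κ * 3 * (X + 1) * (Q * y) := by ring
      _ ≤ κ * 3 * (X + 1) * σ := by gcongr
  have h6 : δ₀ / 4 ^ d / 4 * y ≤ κ * 3 * (X + 1) := by
    have : δ₀ / 4 ^ d / 4 * y * σ ≤ κ * 3 * (X + 1) * σ := by
      calc δ₀ / 4 ^ d / 4 * y * σ = δ₀ / 4 ^ d * (σ / 4) * y := by ring
        _ ≤ _ := h5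
    exact le_of_mul_le_mul_right this hσ0
  calc δ₀ / (12 * 4 ^ d * κ) * y = (δ₀ / 4 ^ d / 4 * y) / (3 * κ) := by
        field_simp
        ring
    _ ≤ (κ * 3 * (X + 1)) / (3 * κ) := by gcongr
    _ = X + 1 := by field_simp

/-- the grid theorem.  Let `σ = |Sh d (n+1) n|`, `X = av |DD|`.  If `X > σ` use `card_Sh_ge`.
Otherwise take `η = 1/(C₁ σ)` with `C₁` large depending on `d, δ₀`, `ζ k = η^(3^(d-k))`,
`L = 4 σ / ζ 0`, `m = ⌈(3^d+1) log (1/η)⌉`, `Q² = (2m)^(d-1) σ` in `comb`: the second term of the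
right side is at most half of the left side, so `X + 1 ≥ c' σ / Q = c' (σ / (2m)^(d-1))^(1/2)`,
and `σ ≥ (n/d)^(d-1)`, `m ≤ C₂ log n`. -/
theorem grid_main (d : ℕ) (hd : 2 ≤ d) (δ₀ : ℝ) (hδ₀ : 0 < δ₀) :
    ∃ c : ℝ, 0 < c ∧ ∃ n₀ : ℕ, 3 ≤ n₀ ∧ ∀ n : ℕ, n₀ ≤ n → ∀ (ι : Type) (S : Finset ι) (w : ι → ℝ)
      (p : ι → Fin d → ℕ) (M : ℝ) (t : Fin d → ℝ), δ₀ * 2 ^ n ≤ M → M ≤ 2 ^ n →
      4 * (S.card : ℝ) ≤ 2 ^ n →
      c * ((n : ℝ) / Real.log n) ^ (((d : ℝ) - 1) / 2) ≤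
        av (fun u : Om d (n + 1) => |DD S w p M t u|) := by
  have hd1 : 1 ≤ d := by omega
  have hd0 : (0 : ℝ) < d := by exact_mod_cast (by omega : 0 < d)
  have hdR : (2 : ℝ) ≤ d := by exact_mod_cast hd
  set h : ℝ := ((d : ℝ) - 1) / 2 with hh
  have hh0 : 0 < h := by rw [hh]; linarith
  set K : ℝ := 16 ^ (d + 1) + (1 + ((Ch d).card : ℝ)) * 8 ^ d with hK
  have hK0 : 0 < K := by rw [hK]; positivity
  set C₁ : ℝ := 2 ^ (d + 2) + 8 * K * 4 ^ d / δ₀ with hC₁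
  have hC₁a : 2 ^ (d + 2) ≤ C₁ := by
    rw [hC₁]
    have : 0 ≤ 8 * K * 4 ^ d / δ₀ := by positivity
    linarith
  have hC₁b : 8 * K * 4 ^ d ≤ C₁ * δ₀ := by
    rw [hC₁, add_mul, div_mul_cancel₀ _ hδ₀.ne']
    have : 0 ≤ (2 : ℝ) ^ (d + 2) * δ₀ := by positivity
    linarith
  have hC₁1 : 1 ≤ C₁ := le_trans (one_le_pow₀ (by norm_num)) hC₁a
  have hC₁0 : 0 < C₁ := by linarith
  have hlogC : 0 ≤ Real.log C₁ := Real.log_nonneg hC₁1
  set C₂ : ℝ := (3 ^ d + 1) * (Real.log C₁ + 2 * (d - 1)) + 1 with hC₂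
  have hC₂0 : 0 < C₂ := by
    rw [hC₂]
    have : 0 ≤ (3 ^ d + 1) * (Real.log C₁ + 2 * ((d : ℝ) - 1)) := by
      apply mul_nonneg
      · positivity
      · linarith
    linarith
  set κ : ℝ := ((Ch d).card : ℝ) + 1 with hκ
  have hκ0 : 0 < κ := by rw [hκ]; positivity
  set c₁ : ℝ := δ₀ / (12 * 4 ^ d * κ) * (1 / (2 * d * C₂)) ^ h with hc₁
  have hc₁0 : 0 < c₁ := by
    rw [hc₁]
    have : 0 < (1 / (2 * (d : ℝ) * C₂)) ^ h := Real.rpow_pos_of_pos (by positivity) _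
    positivity
  -- eventually `c₁ (n / log n)^h ≥ 2`
  have hev : ∀ᶠ n : ℕ in Filter.atTop, 2 * 2 ^ h / c₁ ≤ ((n : ℝ)) ^ (h / 2) := by
    have := (tendsto_rpow_atTop (half_pos hh0)).comp (tendsto_natCast_atTop_atTop (R := ℝ))
    exact this.eventually_ge_atTop _
  obtain ⟨N, hN⟩ := Filter.eventually_atTop.mp hev
  refine ⟨min (c₁ / 2) (1 / d ^ (d - 1)), by positivity, max (max 3 d) N,
    (le_max_left _ _).trans (le_max_left _ _), ?_⟩
  intro n hn ι S w p M t hM hM1 hS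
  have hn3 : 3 ≤ n := ((le_max_left _ _).trans (le_max_left _ _)).trans hn
  have hnd : d ≤ n := ((le_max_right _ _).trans (le_max_left _ _)).trans hn
  have hnN : N ≤ n := (le_max_right _ _).trans hn
  have hn0 : (0 : ℝ) < n := by exact_mod_cast (by omega : 0 < n)
  have hn3' : (3 : ℝ) ≤ n := by exact_mod_cast hn3
  have hlog1 : 1 ≤ Real.log n := by
    rw [Real.le_log_iff_exp_le hn0]
    have := Real.exp_one_lt_d9
    linarith
  have hlog0 : 0 < Real.log n := by linarith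
  set X : ℝ := av (fun u : Om d (n + 1) => |DD S w p M t u|) with hXdef
  set σ : ℝ := ((Sh d (n + 1) n).card : ℝ) with hσ
  have hσ_ge : ((n : ℝ) / d) ^ (d - 1) ≤ σ := card_Sh_ge d n hd1
  have hσ_le : σ ≤ ((n : ℝ) + 1) ^ (d - 1) := card_Sh_le d n hd1
  have hσ1 : 1 ≤ σ := by
    refine le_trans ?_ hσ_ge
    refine one_le_pow₀ ?_
    rw [le_div_iff₀ hd0, one_mul]
    exact_mod_cast hnd
  set T : ℝ := ((n : ℝ) / Real.log n) ^ h with hT
  have hT0 : 0 ≤ T := Real.rpow_nonneg (by positivity) _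
  rcases lt_or_ge σ X with hcase | hcase
  · -- `X > σ`
    have e1 : T ≤ (n : ℝ) ^ (d - 1) := by
      have e2 : (n : ℝ) / Real.log n ≤ n := by
        rw [div_le_iff₀ hlog0]
        nlinarith
      calc T ≤ (n : ℝ) ^ h := Real.rpow_le_rpow (by positivity) e2 hh0.le
        _ ≤ (n : ℝ) ^ ((d - 1 : ℕ) : ℝ) := by
            refine Real.rpow_le_rpow_of_exponent_le (by linarith) ?_
            rw [Nat.cast_sub hd1, hh]
            push_cast
            linarith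
        _ = (n : ℝ) ^ (d - 1) := Real.rpow_natCast _ _
    calc min (c₁ / 2) (1 / d ^ (d - 1)) * T ≤ 1 / d ^ (d - 1) * (n : ℝ) ^ (d - 1) := by
          gcongr
          exact min_le_right _ _
      _ = ((n : ℝ) / d) ^ (d - 1) := by rw [div_pow]; ring
      _ ≤ σ := hσ_ge
      _ ≤ X := hcase.le
  · -- `X ≤ σ`
    set m : ℕ := max 1 ⌈(3 ^ d + 1) * Real.log (C₁ * σ)⌉₊ with hm
    have hm1 : 1 ≤ m := le_max_left _ _
    have hm2 : (3 ^ d + 1) * Real.log (C₁ * σ) ≤ m := by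
      refine (Nat.le_ceil _).trans ?_
      have : ⌈(3 ^ d + 1) * Real.log (C₁ * σ)⌉₊ ≤ m := le_max_right _ _
      exact_mod_cast this
    have hlogσ : Real.log (C₁ * σ) ≤ (Real.log C₁ + 2 * (d - 1)) * Real.log n := by
      have e1 : Real.log σ ≤ (d - 1) * (2 * Real.log n) := by
        have e2 : Real.log σ ≤ Real.log (((n : ℝ) + 1) ^ (d - 1)) :=
          Real.log_le_log (by linarith) hσ_le
        refine e2.trans ?_
        rw [Real.log_pow, Nat.cast_sub hd1, Nat.cast_one]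
        have e3 : Real.log ((n : ℝ) + 1) ≤ 2 * Real.log n := by
          have : 2 * Real.log n = Real.log ((n : ℝ) ^ 2) := by rw [Real.log_pow]; norm_num
          rw [this]
          refine Real.log_le_log (by linarith) ?_
          nlinarith
        have : (0 : ℝ) ≤ (d : ℝ) - 1 := by linarith
        gcongr
      rw [Real.log_mul hC₁0.ne' (by linarith)]
      have e4 : Real.log C₁ ≤ Real.log C₁ * Real.log n := by nlinarith
      nlinarith
    have hm3 : (m : ℝ) ≤ C₂ * Real.log n := by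
      have e1 : (m : ℝ) ≤ max 1 ((3 ^ d + 1) * Real.log (C₁ * σ) + 1) := by
        rw [hm]
        push_cast
        refine max_le_max le_rfl ?_
        refine (Nat.ceil_lt_add_one ?_).le
        have : 0 ≤ Real.log (C₁ * σ) := Real.log_nonneg (by nlinarith)
        positivity
      refine e1.trans (max_le ?_ ?_)
      · rw [hC₂]
        have : 0 ≤ (3 ^ d + 1) * (Real.log C₁ + 2 * ((d : ℝ) - 1)) := by
          apply mul_nonneg
          · positivity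
          · linarith
        nlinarith
      · rw [hC₂, add_mul, one_mul]
        have e2 : (3 ^ d + 1) * Real.log (C₁ * σ)
            ≤ (3 ^ d + 1) * ((Real.log C₁ + 2 * (d - 1)) * Real.log n) := by gcongr
        linarith
    have hm0 : (0 : ℝ) < m := by exact_mod_cast (by omega : 0 < m)
    have hstep := grid_step d hd δ₀ hδ₀ C₁ hC₁a hC₁b n hnd hn3 ι S w p M t hM hM1 hS m hm1
      hm2 hcase
    rw [← hXdef, ← hκ, ← hh] at hstep
    have e1 : c₁ * T ≤ δ₀ / (12 * 4 ^ d * κ) * ((n : ℝ) / (2 * d * m)) ^ h := by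
      have e0 : 1 / (2 * (d : ℝ) * C₂) * ((n : ℝ) / Real.log n) ≤ (n : ℝ) / (2 * d * m) := by
        rw [div_mul_div_comm, one_mul]
        apply div_le_div_of_nonneg_left hn0.le (by positivity)
        calc 2 * (d : ℝ) * m ≤ 2 * d * (C₂ * Real.log n) := by gcongr
          _ = 2 * d * C₂ * Real.log n := by ring
      rw [hc₁, hT, mul_assoc, ← Real.mul_rpow (by positivity) (by positivity)]
      exact mul_le_mul_of_nonneg_left (Real.rpow_le_rpow (by positivity) e0 hh0.le)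
        (by positivity)
    have e2 : c₁ * T ≤ X + 1 := e1.trans hstep
    have e3 : 2 ≤ c₁ * T := by
      have e4 := hN n hnN
      rw [div_le_iff₀ hc₁0] at e4
      have e5 : (n : ℝ) ^ (h / 2) / 2 ^ h ≤ T := by
        have e6 : Real.log n ≤ (n : ℝ) ^ (1 / 2 : ℝ) / (1 / 2) :=
          Real.log_le_rpow_div hn0.le (by norm_num)
        have e7 : (n : ℝ) ^ (1 / 2 : ℝ) / 2 ≤ (n : ℝ) / Real.log n := by
          rw [div_le_div_iff₀ (by norm_num) hlog0]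
          have e8 : (n : ℝ) ^ (1 / 2 : ℝ) * (n : ℝ) ^ (1 / 2 : ℝ) = n := by
            rw [← Real.rpow_add hn0]
            norm_num
          have e9 : 0 ≤ (n : ℝ) ^ (1 / 2 : ℝ) := Real.rpow_nonneg hn0.le _
          nlinarith
        have e11 : h / 2 = 1 / 2 * h := by ring
        calc (n : ℝ) ^ (h / 2) / 2 ^ h = ((n : ℝ) ^ (1 / 2 : ℝ) / 2) ^ h := by
              rw [Real.div_rpow (Real.rpow_nonneg hn0.le _) (by norm_num),
                ← Real.rpow_mul hn0.le, e11]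
          _ ≤ T := Real.rpow_le_rpow (by positivity) e7 hh0.le
      have h2h : (0 : ℝ) < 2 ^ h := Real.rpow_pos_of_pos (by norm_num) _
      rw [div_le_iff₀ h2h] at e5
      have e10 : 2 * 2 ^ h ≤ (c₁ * T) * 2 ^ h := by
        calc 2 * 2 ^ h ≤ (n : ℝ) ^ (h / 2) * c₁ := e4
          _ ≤ T * 2 ^ h * c₁ := by gcongr
          _ = (c₁ * T) * 2 ^ h := by ring
      exact le_of_mul_le_mul_right e10 h2h
    calc min (c₁ / 2) (1 / d ^ (d - 1)) * T ≤ c₁ / 2 * T := by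
          gcongr
          exact min_le_left _ _
      _ ≤ X := by linarith

end Pool.Agent.H714R2.LA
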