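import Pool.Agent.H714R2.LA.Para
import Pool.Agent.H714R2.LA.Cube

set_option autoImplicit false

/-!
# T11: from the grid to the `L^1` norm
-/

namespace Pool.Agent.H714R2.LA

open Finset MeasureTheory

/-- the rate -/
noncomputable def rate (d : ℕ) (x : ℝ) : ℝ :=
  (Real.log x / Real.log (Real.log x)) ^ (((d : ℝ) - 1) / 2)

theorem t12_mono {x y : ℝ} (hx : Real.exp 1 ≤ x) (hxy : x ≤ y) :
    x / Real.log x ≤ y / Real.log y := by
  have h1 := Real.log_div_self_antitoneOn (a := x) (b := y) hx (hx.trans hxy) hxy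
  have he : 1 < Real.exp 1 := by
    have := Real.add_one_lt_exp (show (1 : ℝ) ≠ 0 by norm_num)
    linarith
  have hx1 : 1 < x := lt_of_lt_of_le he hx
  have hy1 : 1 < y := lt_of_lt_of_le hx1 hxy
  have hlx : 0 < Real.log x := Real.log_pos hx1
  have hly : 0 < Real.log y := Real.log_pos hy1
  simp only at h1
  rw [div_le_div_iff₀ (by linarith) (by linarith)] at h1
  rw [div_le_div_iff₀ hlx hly]
  linarith

/-- weighted near-sharp lower bound: `n` minimal with `4 max(C,1) M ≤ 2^n` in `grid_main` -/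
theorem near_sharp (d : ℕ) (hd : 2 ≤ d) : ∀ C : ℝ, 0 < C →
    ∃ c : ℝ, 0 < c ∧ ∃ M₀ : ℝ, 16 ≤ M₀ ∧ ∀ M : ℝ, M₀ ≤ M →
      ∀ (ι : Type) (S : Finset ι) (w : ι → ℝ) (P : ι → Fin d → ℝ),
        (S.card : ℝ) ≤ C * M →
        ENNReal.ofReal (c * rate d M) ≤
          ∫⁻ x in Set.Icc (0 : Fin d → ℝ) 1, ENNReal.ofReal |H736R2.Lone.disc S w P M x| := by
  intro C hC
  set C1 : ℝ := max C 1 with hC1
  have hC1pos : 1 ≤ C1 := le_max_right _ _
  have hCC1 : C ≤ C1 := le_max_left _ _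
  obtain ⟨c, hc, n₀, hn₀, H⟩ := grid_main d hd (1 / (8 * C1)) (by positivity)
  refine ⟨c, hc, max (max 16 (2 ^ n₀)) (Real.exp (Real.exp 1)), le_max_of_le_left (le_max_left _ _),
    fun M hM ι S w P hS => ?_⟩
  have hM16 : 16 ≤ M := (le_max_left _ _).trans ((le_max_left _ _).trans hM)
  have hMn : (2 : ℝ) ^ n₀ ≤ M := (le_max_right _ _).trans ((le_max_left _ _).trans hM)
  have hMe : Real.exp (Real.exp 1) ≤ M := (le_max_right _ _).trans hM
  have hM0 : 0 < M := by linarith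
  have hex : ∃ n : ℕ, 4 * C1 * M ≤ 2 ^ n := by
    obtain ⟨n, hn⟩ := pow_unbounded_of_one_lt (4 * C1 * M) (by norm_num : (1 : ℝ) < 2)
    exact ⟨n, hn.le⟩
  classical
  set n := Nat.find hex with hn
  have hn1 : 4 * C1 * M ≤ 2 ^ n := Nat.find_spec hex
  have hnpos : 0 < n := by
    rcases Nat.eq_zero_or_pos n with h | h
    · rw [h, pow_zero] at hn1
      nlinarith
    · exact h
  have hn2 : (2 : ℝ) ^ n ≤ 8 * C1 * M := by
    have h1 := Nat.find_min hex (show n - 1 < n by omega)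
    push Not at h1
    have h2 : (2 : ℝ) ^ n = 2 * 2 ^ (n - 1) := by
      rw [← pow_succ']
      congr 1
      omega
    rw [h2]
    linarith
  have hCM : M ≤ C1 * M := by nlinarith
  have hM2 : M ≤ 2 ^ n := by nlinarith
  have hnn : n₀ ≤ n := by
    have h1 : (2 : ℝ) ^ n₀ ≤ 2 ^ n := hMn.trans hM2
    exact (pow_le_pow_iff_right₀ (by norm_num : (1 : ℝ) < 2)).1 h1
  have hlogM : Real.exp 1 ≤ Real.log M := by
    rw [Real.le_log_iff_exp_le hM0]
    exact hMe
  have hnlog : Real.log M ≤ n := by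
    have h1 : Real.log M ≤ Real.log (2 ^ n) := Real.log_le_log hM0 hM2
    rw [Real.log_pow] at h1
    have h2 : Real.log 2 ≤ 1 := by
      have := Real.log_two_lt_d9
      linarith
    have h3 : (0 : ℝ) ≤ n := Nat.cast_nonneg n
    nlinarith
  have hrate : rate d M ≤ ((n : ℝ) / Real.log n) ^ (((d : ℝ) - 1) / 2) := by
    unfold rate
    have he : 1 < Real.exp 1 := by
      have := Real.add_one_lt_exp (show (1 : ℝ) ≠ 0 by norm_num)
      linarith
    have hd' : (2 : ℝ) ≤ d := by exact_mod_cast hd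
    apply Real.rpow_le_rpow
    · apply div_nonneg (by linarith)
      exact Real.log_nonneg (by linarith)
    · exact t12_mono hlogM hnlog
    · linarith
  refine (ENNReal.ofReal_le_ofReal (mul_le_mul_of_nonneg_left hrate hc.le)).trans ?_
  apply transfer (n + 1) S w P M
  intro p t
  apply H n hnn ι S w p M t _ hM2
  · have h1 : (S.card : ℝ) ≤ C1 * M := hS.trans (mul_le_mul_of_nonneg_right hCC1 hM0.le)
    linarith
  · rw [one_div, inv_mul_le_iff₀ (by positivity)]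
    exact hn2

/-- all `m ≥ 3`; small `m` by `H736R2.Lone.small_bound` (pattern: `H736R2.Lone.lower_all`) -/
theorem near_sharp_all (d : ℕ) (hd : 2 ≤ d) :
    ∃ c : ℝ, 0 < c ∧ ∀ m : ℕ, 3 ≤ m → ∀ (ι : Type) (S : Finset ι) (P : ι → Fin d → ℝ),
      S.card = m →
      ENNReal.ofReal (c * rate d m) ≤
        ∫⁻ x in Set.Icc (0 : Fin d → ℝ) 1,
          ENNReal.ofReal |H736R2.Lone.disc S (fun _ => 1) P (m : ℝ) x| := by
  obtain ⟨c, hc, M₀, hM₀, H⟩ := near_sharp d hd 1 one_pos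
  obtain ⟨e, rfl⟩ : ∃ k, d = k + 1 := ⟨d - 1, by omega⟩
  have hr : ∀ m : ℕ, 3 ≤ m → 0 ≤ rate (e + 1) m := by
    intro m hm
    unfold rate
    have hm3 : (3 : ℝ) ≤ m := by exact_mod_cast hm
    have h1 : 1 ≤ Real.log m := by
      rw [Real.le_log_iff_exp_le (by linarith)]
      have := Real.exp_one_lt_d9
      linarith
    apply Real.rpow_nonneg
    apply div_nonneg (by linarith)
    exact Real.log_nonneg h1
  set K : ℝ := ∑ m ∈ Finset.Icc 3 ⌊M₀⌋₊, rate (e + 1) m + 1 with hK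
  have hK0 : 0 ≤ ∑ m ∈ Finset.Icc 3 ⌊M₀⌋₊, rate (e + 1) m :=
    Finset.sum_nonneg fun m hm => hr m (Finset.mem_Icc.1 hm).1
  have hK1 : 1 ≤ K := by linarith
  have hKm : ∀ m : ℕ, 3 ≤ m → (m : ℝ) ≤ M₀ → rate (e + 1) m ≤ K := by
    intro m hm hmM
    have h1 : rate (e + 1) m ≤ ∑ m ∈ Finset.Icc 3 ⌊M₀⌋₊, rate (e + 1) m :=
      Finset.single_le_sum (f := fun m : ℕ => rate (e + 1) m)
        (fun m hm => hr m (Finset.mem_Icc.1 hm).1) (Finset.mem_Icc.2 ⟨hm, Nat.le_floor hmM⟩)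
    linarith
  refine ⟨min c (1 / (4 * 4 ^ (e + 1) * M₀ * K)), lt_min hc (by positivity),
    fun m hm ι S P hS => ?_⟩
  have hm3 : (3 : ℝ) ≤ m := by exact_mod_cast hm
  rcases le_total M₀ m with hmM | hmM
  · refine le_trans (ENNReal.ofReal_le_ofReal ?_) (H m hmM ι S (fun _ => 1) P (by rw [hS, one_mul]))
    exact mul_le_mul_of_nonneg_right (min_le_left _ _) (hr m hm)
  · refine le_trans (ENNReal.ofReal_le_ofReal ?_)
      (H736R2.Lone.small_bound e m (by omega) ι S P)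
    calc min c (1 / (4 * 4 ^ (e + 1) * M₀ * K)) * rate (e + 1) m
        ≤ (1 / (4 * 4 ^ (e + 1) * M₀ * K)) * K :=
          mul_le_mul (min_le_right _ _) (hKm m hm hmM) (hr m hm) (by positivity)
      _ = 1 / (4 * 4 ^ (e + 1) * M₀) := by
          have : K ≠ 0 := by positivity
          field_simp
      _ ≤ 1 / (4 * 4 ^ (e + 1) * m) := by
          apply one_div_le_one_div_of_le (by positivity)
          have : (0 : ℝ) < 4 * 4 ^ (e + 1) := by positivity
          nlinarith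

end Pool.Agent.H714R2.LA
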