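import Pool.Agent.H714R2.LA.TruncP

set_option autoImplicit false

/-!
# T4: the truncation step
-/

namespace Pool.Agent.H714R2.LA

open Finset

variable {d R : ℕ} {s : Fin d → Fin R} {ζ : ℕ → ℝ} {ε L δ : ℝ} {D lam : Om d R → ℝ}

theorem ta_mem_GG {c : Finset (Fin d)} : c ∈ GG d ↔ c.card + 2 ≤ d := by
  simp [GG]

theorem ta_gg_zero_or_one (ζ : ℕ → ℝ) (f : Om d R → ℝ) (s : Fin d → Fin R) (u : Om d R) :
    gg ζ f s u = 0 ∨ gg ζ f s u = 1 := by
  unfold gg
  by_cases h : ∃ c ∈ GG d, gam ζ f s c u = 1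
  · obtain ⟨c, hc, h1⟩ := h
    left
    exact Finset.prod_eq_zero hc (by rw [h1]; ring)
  · right
    push Not at h
    apply Finset.prod_eq_one
    intro c hc
    rcases gam_zero_or_one ζ f s c u with h0 | h1
    · rw [h0]; ring
    · exact absurd h1 (h c hc)

theorem ta_gam_eq_zero (ζ : ℕ → ℝ) (f : Om d R → ℝ) (s : Fin d → Fin R) (u : Om d R)
    (h : gg ζ f s u = 1) {c : Finset (Fin d)} (hc : c ∈ GG d) : gam ζ f s c u = 0 := by
  rcases gam_zero_or_one ζ f s c u with h0 | h1
  · exact h0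
  · exfalso
    unfold gg at h
    rw [Finset.prod_eq_zero hc (by rw [h1]; ring)] at h
    exact zero_ne_one h

theorem ta_prod (K : Finset (Finset (Fin d))) (x : Finset (Fin d) → ℝ)
    (h0 : ∀ i ∈ K, 0 ≤ x i) (h1 : ∀ i ∈ K, x i ≤ 1) :
    (0 ≤ ∏ i ∈ K, (1 - x i)) ∧ (∏ i ∈ K, (1 - x i) ≤ 1) ∧
      (1 - ∏ i ∈ K, (1 - x i) ≤ ∑ i ∈ K, x i) := by
  classical
  induction K using Finset.induction_on with
  | empty => simp
  | insert a K ha ih =>
    rw [Finset.prod_insert ha, Finset.sum_insert ha]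
    obtain ⟨i1, i2, i3⟩ := ih (fun i hi => h0 i (Finset.mem_insert_of_mem hi))
      (fun i hi => h1 i (Finset.mem_insert_of_mem hi))
    have a0 := h0 a (Finset.mem_insert_self _ _)
    have a1 := h1 a (Finset.mem_insert_self _ _)
    refine ⟨mul_nonneg (by linarith) i1, ?_, ?_⟩
    · nlinarith
    · nlinarith

theorem ta_prod_split (ζ : ℕ → ℝ) (f : Om d R → ℝ) (s : Fin d → Fin R) (j : Fin d) (u : Om d R) :
    gg ζ f s u = (∏ c ∈ (GG d).filter (fun c => j ∉ c), (1 - gam ζ f s c u)) *
      ∏ c ∈ (GG d).filter (fun c => j ∈ c), (1 - gam ζ f s c u) := by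
  unfold gg
  rw [mul_comm, Finset.prod_filter_mul_prod_filter_not]

theorem ta_card_GG (d : ℕ) : ((GG d).card : ℝ) ≤ 2 ^ d := by
  have h : (GG d).card ≤ (univ : Finset (Finset (Fin d))).card :=
    Finset.card_le_card (Finset.filter_subset _ _)
  rw [Finset.card_univ, Fintype.card_finset, Fintype.card_fin] at h
  exact_mod_cast h

theorem ta_card_GG_filter (d : ℕ) (p : Finset (Fin d) → Prop) [DecidablePred p] :
    (((GG d).filter p).card : ℝ) ≤ 2 ^ d := by
  have h : ((GG d).filter p).card ≤ (GG d).card := Finset.card_filter_le _ _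
  have h' : (((GG d).filter p).card : ℝ) ≤ ((GG d).card : ℝ) := by exact_mod_cast h
  exact h'.trans (ta_card_GG d)

theorem ta_lam_inv {b : Finset (Fin d)} (hlam : Lam s D ζ L δ lam) : Inv s b lam :=
  hlam.inv.mono (Finset.subset_univ b)

theorem ta_d_le (d : ℕ) : (d : ℝ) ≤ 2 ^ d := by
  exact_mod_cast (Nat.lt_two_pow_self (n := d)).le

/-- averages of the error terms of `clip_pointwise` -/
theorem av_clip_error (hd : 2 ≤ d) (hP : Par d ζ ε) (hL : 0 < L) (hδ : 0 ≤ δ) (hδL : δ ≤ L)
    (hlam : Lam s D ζ L δ lam) :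
    av (fun u => lam u * gg ζ (ind L D) s u * |clip (2 ^ d * L) (D u) - Gf ζ L s D u|) ≤
      ε * (8 ^ (d + 1) * (av (fun u => |D u|) + δ)) := by
  set X := av (fun u => |D u|) with hX
  have hX0 : 0 ≤ X := av_nonneg fun u => abs_nonneg _
  have hε := hP.eps_pos
  have hf : ∀ u, 0 ≤ ind L D u := ind_nonneg L D
  have g0 := fun c u => gam_nonneg ζ (ind L D) s c u
  have g1 := fun c u => gam_le_one ζ (ind L D) s c u
  have g1' : ∀ c u, 0 ≤ 1 - gam ζ (ind L D) s c u := fun c u => by
    have := g1 c u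
    linarith
  have hek : ∀ (c : Finset (Fin d)) (k : Fin d), c ∈ GG d → c.erase k ∈ GG d := by
    intro c k hc
    rw [ta_mem_GG] at hc ⊢
    have := Finset.card_erase_le (s := c) (a := k)
    omega
  have hek0 : (∅ : Finset (Fin d)) ∈ GG d := by
    rw [ta_mem_GG]; simpa using hd
  have hik : ∀ i k : Fin d, i ≠ k → ({i, k} : Finset (Fin d))ᶜ ∈ GG d := by
    intro i k h
    rw [ta_mem_GG, Finset.card_compl, Fintype.card_fin, Finset.card_pair h]
    omega
  have hik' : ∀ i k : Fin d, ({i}ᶜ ∩ {k}ᶜ : Finset (Fin d)) = ({i, k} : Finset (Fin d))ᶜ := by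
    intro i k
    ext x
    simp
  -- the pointwise inequality
  have key : ∀ u, lam u * gg ζ (ind L D) s u * |clip (2 ^ d * L) (D u) - Gf ζ L s D u| ≤
      2 * ∑ k : Fin d, (δ * (1 * ((1 - gam ζ (ind L D) s ∅ u) * gam ζ (ind L D) s {k}ᶜ u)) +
        ∑ i ∈ univ.erase k, |Tt s D i u| *
          ((1 - gam ζ (ind L D) s {i, k}ᶜ u) * gam ζ (ind L D) s {k}ᶜ u) +
        ∑ c ∈ GG d, |Sc s D c u| *
          ((1 - gam ζ (ind L D) s (c.erase k) u) * gam ζ (ind L D) s {k}ᶜ u)) +
      2 * (2 ^ d * L) * ∑ k : Fin d, ∑ i ∈ univ.erase k,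
        (1 - gam ζ (ind L D) s ({i}ᶜ ∩ {k}ᶜ) u) *
          (gam ζ (ind L D) s {i}ᶜ u * gam ζ (ind L D) s {k}ᶜ u) := by
    intro u
    have hR : 0 ≤ 2 * ∑ k : Fin d, (δ * (1 * ((1 - gam ζ (ind L D) s ∅ u) * gam ζ (ind L D) s {k}ᶜ u)) +
        ∑ i ∈ univ.erase k, |Tt s D i u| *
          ((1 - gam ζ (ind L D) s {i, k}ᶜ u) * gam ζ (ind L D) s {k}ᶜ u) +
        ∑ c ∈ GG d, |Sc s D c u| *
          ((1 - gam ζ (ind L D) s (c.erase k) u) * gam ζ (ind L D) s {k}ᶜ u)) +
      2 * (2 ^ d * L) * ∑ k : Fin d, ∑ i ∈ univ.erase k,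
        (1 - gam ζ (ind L D) s ({i}ᶜ ∩ {k}ᶜ) u) *
          (gam ζ (ind L D) s {i}ᶜ u * gam ζ (ind L D) s {k}ᶜ u) := by
      apply add_nonneg
      · apply mul_nonneg (by norm_num)
        apply Finset.sum_nonneg
        intro k _
        apply add_nonneg
        · apply add_nonneg
          · exact mul_nonneg hδ (mul_nonneg (by norm_num) (mul_nonneg (g1' _ _) (g0 _ _)))
          · apply Finset.sum_nonneg
            intro i _
            exact mul_nonneg (abs_nonneg _) (mul_nonneg (g1' _ _) (g0 _ _))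
        · apply Finset.sum_nonneg
          intro i _
          exact mul_nonneg (abs_nonneg _) (mul_nonneg (g1' _ _) (g0 _ _))
      · apply mul_nonneg (by positivity)
        apply Finset.sum_nonneg
        intro k _
        apply Finset.sum_nonneg
        intro i _
        exact mul_nonneg (g1' _ _) (mul_nonneg (g0 _ _) (g0 _ _))
    rcases hlam.zero_or_one u with hl | hl
    · rw [hl]; simpa using hR
    rcases ta_gg_zero_or_one ζ (ind L D) s u with hg | hg
    · rw [hg]; simpa using hR
    rw [hl, hg, one_mul, one_mul]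
    have hz : ∀ c ∈ GG d, gam ζ (ind L D) s c u = 0 := fun c hc =>
      ta_gam_eq_zero ζ (ind L D) s u hg hc
    have hc := clip_pointwise hd hP hL hδL u (fun v => hlam.cube u v hl) hg
    have hrho := rho_abs u (fun v => hlam.cube u v hl)
    refine hc.trans ?_
    apply add_le_add
    · apply mul_le_mul_of_nonneg_left _ (by norm_num)
      apply Finset.sum_le_sum
      intro k _
      rw [mul_add, mul_add]
      apply add_le_add
      · apply add_le_add
        · rw [hz ∅ hek0, sub_zero, one_mul, one_mul, mul_comm]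
          exact mul_le_mul_of_nonneg_right hrho (g0 _ _)
        · rw [Finset.mul_sum]
          apply Finset.sum_le_sum
          intro i hi
          rw [hz _ (hik i k (Finset.ne_of_mem_erase hi)), sub_zero, one_mul, mul_comm]
          exact le_rfl
      · rw [Finset.mul_sum]
        apply Finset.sum_le_sum
        intro c hc
        rw [hz _ (hek c k hc), sub_zero, one_mul, mul_comm]
        exact le_rfl
    · apply mul_le_mul_of_nonneg_left _ (by positivity)
      apply Finset.sum_le_sum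
      intro k _
      apply Finset.sum_le_sum
      intro i hi
      rw [hik', hz _ (hik i k (Finset.ne_of_mem_erase hi)), sub_zero, one_mul]
      exact le_rfl
  -- averages of the terms
  have hbk : ∀ k : Fin d, ({k}ᶜ : Finset (Fin d)) ≠ univ := by
    intro k h
    have : k ∈ ({k}ᶜ : Finset (Fin d)) := by rw [h]; exact Finset.mem_univ k
    simp at this
  have hss : ∀ (a : Finset (Fin d)) (k : Fin d), a ∈ GG d → k ∉ a → a ⊂ {k}ᶜ := by
    intro a k ha hk
    refine Finset.ssubset_iff_subset_ne.mpr ⟨?_, ?_⟩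
    · intro x hx
      simp only [Finset.mem_compl, Finset.mem_singleton]
      rintro rfl
      exact hk hx
    · rintro rfl
      rw [ta_mem_GG, Finset.card_compl, Fintype.card_fin, Finset.card_singleton] at ha
      omega
  have e1 : ∀ k : Fin d, av (fun u => 1 * ((1 - gam ζ (ind L D) s ∅ u) *
      gam ζ (ind L D) s {k}ᶜ u)) ≤ ε := by
    intro k
    have h := K1 (s := s) (F := fun _ => (1 : ℝ)) hP hf (hss ∅ k hek0 (by simp)) (hbk k)
      (fun _ => zero_le_one) (inv_const s _ 1)
    rw [av_const, mul_one] at h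
    exact h
  have hTt : ∀ i, av (fun u => |Tt s D i u|) ≤ X := fun i => av_abs_A_le s {i} D
  have hScabs : ∀ c u, |Sc s D c u| = |A s cᶜ D u| := by
    intro c u
    unfold Sc
    rw [abs_neg, abs_mul, abs_pow, abs_neg, abs_one, one_pow, one_mul]
  have hSc : ∀ c, av (fun u => |Sc s D c u|) ≤ X := by
    intro c
    have : (fun u => |Sc s D c u|) = fun u => |A s cᶜ D u| := by
      funext u; exact hScabs c u
    rw [this]
    exact av_abs_A_le s cᶜ D
  have e2 : ∀ k : Fin d, ∀ i ∈ univ.erase k, av (fun u => |Tt s D i u| *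
      ((1 - gam ζ (ind L D) s {i, k}ᶜ u) * gam ζ (ind L D) s {k}ᶜ u)) ≤ ε * X := by
    intro k i hi
    have hne := Finset.ne_of_mem_erase hi
    have h := K1 (s := s) (F := fun u => |Tt s D i u|) hP hf
      (hss ({i, k}ᶜ) k (hik i k hne) (by simp)) (hbk k)
      (fun _ => abs_nonneg _) (by
        have h1 : Inv s {i} (fun u => |Tt s D i u|) := (inv_A s {i} D).comp (fun x => |x|)
        apply h1.mono
        intro x hx
        simp only [Finset.mem_sdiff, Finset.mem_compl, Finset.mem_singleton, Finset.mem_insert,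
          not_or, not_and, not_not] at hx
        rw [Finset.mem_singleton]
        by_contra h2
        exact hx.1 (hx.2 h2))
    exact h.trans (mul_le_mul_of_nonneg_left (hTt i) hε.le)
  have e3 : ∀ k : Fin d, ∀ c ∈ GG d, av (fun u => |Sc s D c u| *
      ((1 - gam ζ (ind L D) s (c.erase k) u) * gam ζ (ind L D) s {k}ᶜ u)) ≤ ε * X := by
    intro k c hc
    have h := K1 (s := s) (F := fun u => |Sc s D c u|) hP hf
      (hss (c.erase k) k (hek c k hc) (by simp)) (hbk k)
      (fun _ => abs_nonneg _) (by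
        have h1 : Inv s cᶜ (fun u => |Sc s D c u|) := by
          have : (fun u => |Sc s D c u|) = fun u => |A s cᶜ D u| := by
            funext u; exact hScabs c u
          rw [this]
          exact (inv_A s cᶜ D).comp (fun x => |x|)
        apply h1.mono
        intro x hx
        simp only [Finset.mem_sdiff, Finset.mem_compl, Finset.mem_singleton, Finset.mem_erase,
          not_and] at hx
        rw [Finset.mem_compl]
        exact hx.2 hx.1)
    exact h.trans (mul_le_mul_of_nonneg_left (hSc c) hε.le)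
  have e4 : ∀ k : Fin d, ∀ i ∈ univ.erase k, av (fun u =>
      (1 - gam ζ (ind L D) s ({i}ᶜ ∩ {k}ᶜ) u) *
          (gam ζ (ind L D) s {i}ᶜ u * gam ζ (ind L D) s {k}ᶜ u)) ≤ ε * av (ind L D) := by
    intro k i hi
    have hne := Finset.ne_of_mem_erase hi
    apply K2 hP hf
    · intro h
      have : k ∈ ({i}ᶜ : Finset (Fin d)) := by simp [Ne.symm hne]
      have := h this
      simp at this
    · intro h
      have : i ∈ ({k}ᶜ : Finset (Fin d)) := by simp [hne]
      have := h this
      simp at this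
  have hLf : L * av (ind L D) ≤ X := av_ind L hL.le D
  refine (av_mono key).trans ?_
  rw [av_add, av_const_mul, av_const_mul, av_sum, av_sum]
  have hs1 : ∀ k : Fin d, av (fun u => δ * (1 * ((1 - gam ζ (ind L D) s ∅ u) * gam ζ (ind L D) s {k}ᶜ u)) +
        ∑ i ∈ univ.erase k, |Tt s D i u| *
          ((1 - gam ζ (ind L D) s {i, k}ᶜ u) * gam ζ (ind L D) s {k}ᶜ u) +
        ∑ c ∈ GG d, |Sc s D c u| *
          ((1 - gam ζ (ind L D) s (c.erase k) u) * gam ζ (ind L D) s {k}ᶜ u)) ≤
      ε * (δ + 2 ^ d * X + 2 ^ d * X) := by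
    intro k
    rw [av_add, av_add, av_const_mul, av_sum, av_sum]
    have b1 : δ * av (fun u => 1 * ((1 - gam ζ (ind L D) s ∅ u) *
      gam ζ (ind L D) s {k}ᶜ u)) ≤ δ * ε := mul_le_mul_of_nonneg_left (e1 k) hδ
    have b2 : ∑ i ∈ univ.erase k, av (fun u => |Tt s D i u| *
      ((1 - gam ζ (ind L D) s {i, k}ᶜ u) * gam ζ (ind L D) s {k}ᶜ u)) ≤ 2 ^ d * (ε * X) := by
      refine (Finset.sum_le_card_nsmul _ _ _ (e2 k)).trans ?_
      rw [nsmul_eq_mul]
      apply mul_le_mul_of_nonneg_right _ (by positivity)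
      have : (univ.erase k : Finset (Fin d)).card ≤ d := by
        have := Finset.card_erase_le (s := (univ : Finset (Fin d))) (a := k)
        simpa using this
      have h2 : ((univ.erase k : Finset (Fin d)).card : ℝ) ≤ d := by exact_mod_cast this
      exact h2.trans (ta_d_le d)
    have b3 : ∑ c ∈ GG d, av (fun u => |Sc s D c u| *
      ((1 - gam ζ (ind L D) s (c.erase k) u) * gam ζ (ind L D) s {k}ᶜ u)) ≤ 2 ^ d * (ε * X) := by
      refine (Finset.sum_le_card_nsmul _ _ _ (e3 k)).trans ?_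
      rw [nsmul_eq_mul]
      exact mul_le_mul_of_nonneg_right (ta_card_GG d) (by positivity)
    nlinarith [b1, b2, b3]
  have hs2 : ∀ k : Fin d, av (fun u => ∑ i ∈ univ.erase k,
        (1 - gam ζ (ind L D) s ({i}ᶜ ∩ {k}ᶜ) u) *
          (gam ζ (ind L D) s {i}ᶜ u * gam ζ (ind L D) s {k}ᶜ u)) ≤ 2 ^ d * (ε * av (ind L D)) := by
    intro k
    have hfa : 0 ≤ av (ind L D) := av_nonneg hf
    rw [av_sum]
    refine (Finset.sum_le_card_nsmul _ _ _ (e4 k)).trans ?_
    rw [nsmul_eq_mul]
    apply mul_le_mul_of_nonneg_right _ (by positivity)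
    have : (univ.erase k : Finset (Fin d)).card ≤ d := by
      have := Finset.card_erase_le (s := (univ : Finset (Fin d))) (a := k)
      simpa using this
    have h2 : ((univ.erase k : Finset (Fin d)).card : ℝ) ≤ d := by exact_mod_cast this
    exact h2.trans (ta_d_le d)
  have t1 := Finset.sum_le_card_nsmul (univ : Finset (Fin d)) _ _ (fun k _ => hs1 k)
  have t2 := Finset.sum_le_card_nsmul (univ : Finset (Fin d)) _ _ (fun k _ => hs2 k)
  rw [nsmul_eq_mul, Finset.card_univ, Fintype.card_fin] at t1 t2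
  set a : ℝ := 2 ^ d with ha
  have ha1 : 1 ≤ a := one_le_pow₀ (by norm_num)
  have hda : (d : ℝ) ≤ a := ta_d_le d
  have hd0 : (0 : ℝ) ≤ d := Nat.cast_nonneg d
  have h8 : (8 : ℝ) ^ (d + 1) = 8 * a ^ 3 := by
    rw [ha, pow_succ, ← pow_mul, mul_comm d 3, pow_mul]
    norm_num
    ring
  rw [h8]
  have t1' : 2 * ((d : ℝ) * (ε * (δ + a * X + a * X))) ≤ ε * (2 * a * (δ + 2 * a * X)) := by
    have : (d : ℝ) * (ε * (δ + a * X + a * X)) ≤ a * (ε * (δ + a * X + a * X)) :=
      mul_le_mul_of_nonneg_right hda (by positivity)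
    nlinarith
  have t2' : 2 * (a * L) * ((d : ℝ) * (a * (ε * av (ind L D)))) ≤ ε * (2 * a ^ 3 * X) := by
    have h1 : (d : ℝ) * (L * av (ind L D)) ≤ a * X :=
      mul_le_mul hda hLf (mul_nonneg hL.le (av_nonneg hf)) (by positivity)
    have h2 : 2 * (a * L) * ((d : ℝ) * (a * (ε * av (ind L D)))) =
      (2 * a ^ 2 * ε) * ((d : ℝ) * (L * av (ind L D))) := by ring
    rw [h2]
    have := mul_le_mul_of_nonneg_left h1 (show 0 ≤ 2 * a ^ 2 * ε by positivity)
    nlinarith
  have u1 := mul_le_mul_of_nonneg_left t1 (show (0:ℝ) ≤ 2 by norm_num)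
  have u2 := mul_le_mul_of_nonneg_left t2 (show (0:ℝ) ≤ 2 * (a * L) by positivity)
  refine (add_le_add (u1.trans t1') (u2.trans t2')).trans ?_
  rw [← mul_add]
  apply mul_le_mul_of_nonneg_left _ hε.le
  have hA2 : a ≤ a ^ 3 := by nlinarith [sq_nonneg (a - 1), mul_nonneg (sub_nonneg.mpr ha1) (sq_nonneg a)]
  have hA3 : a ^ 2 ≤ a ^ 3 := by nlinarith [mul_nonneg (sub_nonneg.mpr ha1) (sq_nonneg a)]
  have hA0 : 0 ≤ a ^ 3 := by positivity
  nlinarith [mul_le_mul_of_nonneg_right hA2 hδ, mul_le_mul_of_nonneg_right hA3 hX0,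
    mul_nonneg hA0 hX0, mul_nonneg hA0 hδ]

/-- a term `t` invariant in the coordinate `j` is almost orthogonal to `lam * rad s * gg` -/
theorem av_term (hP : Par d ζ ε) (hlam : Lam s D ζ L δ lam) (j : Fin d) (t : Om d R → ℝ)
    (ht : Inv s {j} t) :
    |av (fun u => lam u * rad s u * (t u * gg ζ (ind L D) s u))| ≤
      2 ^ d * ε * av (fun u => |t u|) := by
  have hf : ∀ u, 0 ≤ ind L D u := ind_nonneg L D
  have g0 := fun c u => gam_nonneg ζ (ind L D) s c u
  have g1 := fun c u => gam_le_one ζ (ind L D) s c u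
  have hε := hP.eps_pos
  set g' : Om d R → ℝ := fun u => ∏ c ∈ (GG d).filter (fun c => j ∉ c),
    (1 - gam ζ (ind L D) s c u) with hg'
  have hg'inv : Inv s {j} g' := by
    apply inv_prod
    intro c hc
    have hj : j ∉ c := (Finset.mem_filter.mp hc).2
    have h1 : Inv s {j} (gam ζ (ind L D) s c) := by
      apply (gam_inv ζ (ind L D) s c).mono
      intro x hx
      rw [Finset.mem_singleton] at hx
      rw [Finset.mem_compl, hx]
      exact hj
    exact h1.comp (fun x => 1 - x)
  have hz : av (fun u => lam u * rad s u * (t u * g' u)) = 0 := by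
    have h := av_rad_mul (s := s) (F := fun u => lam u * (t u * g' u)) j
      ((ta_lam_inv hlam).comp2 (ht.comp2 hg'inv (fun x y => x * y)) (fun x y => x * y))
    rw [← h]
    congr 1
    funext u
    ring
  have hdiff : av (fun u => lam u * rad s u * (t u * gg ζ (ind L D) s u)) =
      av (fun u => lam u * rad s u * (t u * (gg ζ (ind L D) s u - g' u))) := by
    have h2 : (fun u => lam u * rad s u * (t u * (gg ζ (ind L D) s u - g' u))) =
      fun u => lam u * rad s u * (t u * gg ζ (ind L D) s u) - lam u * rad s u * (t u * g' u) := by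
      funext u; ring
    rw [h2, av_sub, hz, sub_zero]
  rw [hdiff]
  refine (abs_av_le _).trans ?_
  have hpt : ∀ u, |lam u * rad s u * (t u * (gg ζ (ind L D) s u - g' u))| ≤
      ∑ c ∈ (GG d).filter (fun c => j ∈ c), |t u| *
        ((1 - gam ζ (ind L D) s (c.erase j) u) * gam ζ (ind L D) s c u) := by
    intro u
    have hl : |lam u| ≤ 1 := by
      rcases hlam.zero_or_one u with h | h <;> rw [h] <;> norm_num
    rw [abs_mul, abs_mul, abs_rad, mul_one, abs_mul]
    have hP1 := ta_prod ((GG d).filter (fun c => j ∉ c)) (fun c => gam ζ (ind L D) s c u)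
      (fun c _ => g0 c u) (fun c _ => g1 c u)
    have hP2 := ta_prod ((GG d).filter (fun c => j ∈ c)) (fun c => gam ζ (ind L D) s c u)
      (fun c _ => g0 c u) (fun c _ => g1 c u)
    have hge : |gg ζ (ind L D) s u - g' u| ≤ ∑ c ∈ (GG d).filter (fun c => j ∈ c),
        ((1 - gam ζ (ind L D) s (c.erase j) u) * gam ζ (ind L D) s c u) := by
      have h1 : |gg ζ (ind L D) s u - g' u| = g' u *
          (1 - ∏ c ∈ (GG d).filter (fun c => j ∈ c), (1 - gam ζ (ind L D) s c u)) := by
        rw [ta_prod_split ζ (ind L D) s j u, abs_sub_comm, abs_of_nonneg]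
        · simp only [hg']
          ring
        · simp only [hg']
          have := mul_le_mul_of_nonneg_left hP2.2.1 hP1.1
          linarith
      rw [h1]
      refine (mul_le_mul_of_nonneg_left hP2.2.2 hP1.1).trans ?_
      rw [Finset.mul_sum]
      apply Finset.sum_le_sum
      intro c hc
      apply mul_le_mul_of_nonneg_right _ (g0 c u)
      have hcm : c.erase j ∈ (GG d).filter (fun c => j ∉ c) := by
        rw [Finset.mem_filter]
        refine ⟨?_, by simp⟩
        have := (Finset.mem_filter.mp hc).1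
        rw [ta_mem_GG] at this ⊢
        have := Finset.card_erase_le (s := c) (a := j)
        omega
      rw [← Finset.mul_prod_erase _ _ hcm]
      have hP3 := ta_prod (((GG d).filter (fun c => j ∉ c)).erase (c.erase j))
        (fun c => gam ζ (ind L D) s c u) (fun c _ => g0 c u) (fun c _ => g1 c u)
      have h0 : 0 ≤ 1 - gam ζ (ind L D) s (c.erase j) u := by
        have := g1 (c.erase j) u
        linarith
      exact mul_le_of_le_one_right h0 hP3.2.1
    calc |lam u| * (|t u| * |gg ζ (ind L D) s u - g' u|)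
        ≤ 1 * (|t u| * |gg ζ (ind L D) s u - g' u|) :=
          mul_le_mul_of_nonneg_right hl (by positivity)
      _ = |t u| * |gg ζ (ind L D) s u - g' u| := one_mul _
      _ ≤ |t u| * _ := mul_le_mul_of_nonneg_left hge (abs_nonneg _)
      _ = _ := by rw [Finset.mul_sum]
  refine (av_mono hpt).trans ?_
  rw [av_sum]
  have hterm : ∀ c ∈ (GG d).filter (fun c => j ∈ c), av (fun u => |t u| *
        ((1 - gam ζ (ind L D) s (c.erase j) u) * gam ζ (ind L D) s c u)) ≤
      ε * av (fun u => |t u|) := by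
    intro c hc
    obtain ⟨hc1, hc2⟩ := Finset.mem_filter.mp hc
    rw [ta_mem_GG] at hc1
    apply K1 hP hf (Finset.erase_ssubset hc2)
    · rintro rfl
      rw [Finset.card_univ, Fintype.card_fin] at hc1
      omega
    · exact fun u => abs_nonneg _
    · have h1 : Inv s {j} (fun u => |t u|) := ht.comp (fun x => |x|)
      apply h1.mono
      intro x hx
      simp only [Finset.mem_sdiff, Finset.mem_erase, not_and, not_not] at hx
      rw [Finset.mem_singleton]
      by_contra h2
      exact hx.2 h2 hx.1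
  refine (Finset.sum_le_card_nsmul _ _ _ hterm).trans ?_
  rw [nsmul_eq_mul, mul_assoc]
  apply mul_le_mul_of_nonneg_right (ta_card_GG_filter d _)
  exact mul_nonneg hε.le (av_nonneg fun u => abs_nonneg _)

theorem av_rho (hd : 2 ≤ d) (hP : Par d ζ ε) (hδ : 0 ≤ δ) (hlam : Lam s D ζ L δ lam) :
    |av (fun u => lam u * rad s u * (rho s D u * gg ζ (ind L D) s u)) -
      av (fun u => lam u * rad s u * D u)| ≤ 2 ^ d * ε * δ := by
  have hf : ∀ u, 0 ≤ ind L D u := ind_nonneg L D
  have g0 := fun c u => gam_nonneg ζ (ind L D) s c u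
  have g1 := fun c u => gam_le_one ζ (ind L D) s c u
  have hε := hP.eps_pos
  have hek0 : (∅ : Finset (Fin d)) ∈ GG d := by
    rw [ta_mem_GG]; simpa using hd
  have h1 : av (fun u => lam u * rad s u * rho s D u) = av (fun u => lam u * rad s u * D u) := by
    have hsplit : (fun u => lam u * rad s u * rho s D u) = fun u =>
        ∑ c ∈ (univ : Finset (Finset (Fin d))),
          lam u * rad s u * ((-1) ^ (cᶜ).card * A s cᶜ D u) := by
      funext u
      unfold rho
      rw [Finset.mul_sum]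
    rw [hsplit, av_sum, ← Finset.add_sum_erase _ _ (Finset.mem_univ (univ : Finset (Fin d)))]
    have hrest : ∑ c ∈ (univ : Finset (Finset (Fin d))).erase univ,
        av (fun u => lam u * rad s u * ((-1) ^ (cᶜ).card * A s cᶜ D u)) = 0 := by
      apply Finset.sum_eq_zero
      intro c hc
      have hne : c ≠ univ := Finset.ne_of_mem_erase hc
      obtain ⟨j, hj⟩ : ∃ j, j ∉ c := by
        by_contra h
        push Not at h
        exact hne (Finset.eq_univ_iff_forall.mpr h)
      have hA : Inv s {j} (A s cᶜ D) := (inv_A s cᶜ D).mono (by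
        intro x hx
        rw [Finset.mem_singleton] at hx
        rw [Finset.mem_compl, hx]
        exact hj)
      have h := av_rad_mul (s := s) (F := fun u => lam u * ((-1) ^ (cᶜ).card * A s cᶜ D u)) j
        ((ta_lam_inv hlam).comp2 hA (fun x y => x * ((-1) ^ (cᶜ).card * y)))
      rw [← h]
      congr 1
      funext u
      ring
    rw [hrest, add_zero]
    congr 1
    funext u
    rw [Finset.compl_univ, Finset.card_empty, pow_zero, one_mul, A_empty]
  rw [← h1, ← av_sub]
  refine (abs_av_le _).trans ?_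
  have hpt : ∀ u, |lam u * rad s u * (rho s D u * gg ζ (ind L D) s u) -
      lam u * rad s u * rho s D u| ≤
      ∑ c ∈ (GG d).erase ∅, δ * (1 * ((1 - gam ζ (ind L D) s ∅ u) * gam ζ (ind L D) s c u)) := by
    intro u
    have hR : 0 ≤ ∑ c ∈ (GG d).erase ∅,
        δ * (1 * ((1 - gam ζ (ind L D) s ∅ u) * gam ζ (ind L D) s c u)) := by
      apply Finset.sum_nonneg
      intro c _
      have := g1 ∅ u
      exact mul_nonneg hδ (mul_nonneg zero_le_one (mul_nonneg (by linarith) (g0 _ _)))
    rcases hlam.zero_or_one u with hl | hl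
    · rw [hl]; simpa using hR
    have hrho := rho_abs u (fun v => hlam.cube u v hl)
    have hP2 := ta_prod (GG d) (fun c => gam ζ (ind L D) s c u)
      (fun c _ => g0 c u) (fun c _ => g1 c u)
    have hP3 : 1 - gg ζ (ind L D) s u ≤ ∑ c ∈ (GG d).erase ∅, gam ζ (ind L D) s c u := by
      refine hP2.2.2.trans ?_
      rw [← Finset.add_sum_erase _ _ hek0, hlam.tame u hl, zero_add]
    have h2 : lam u * rad s u * (rho s D u * gg ζ (ind L D) s u) -
      lam u * rad s u * rho s D u = -(rad s u * (rho s D u * (1 - gg ζ (ind L D) s u))) := by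
      rw [hl]; ring
    rw [h2, abs_neg, abs_mul, abs_rad, one_mul, abs_mul]
    have hgg : 0 ≤ 1 - gg ζ (ind L D) s u := by
      have := hP2.2.1
      unfold gg
      linarith
    rw [abs_of_nonneg hgg]
    calc |rho s D u| * (1 - gg ζ (ind L D) s u) ≤ δ * (1 - gg ζ (ind L D) s u) :=
          mul_le_mul_of_nonneg_right hrho hgg
      _ ≤ δ * ∑ c ∈ (GG d).erase ∅, gam ζ (ind L D) s c u := mul_le_mul_of_nonneg_left hP3 hδ
      _ = _ := by
        rw [Finset.mul_sum]
        apply Finset.sum_congr rfl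
        intro c _
        rw [hlam.tame u hl, sub_zero, one_mul, one_mul]
  refine (av_mono hpt).trans ?_
  rw [av_sum]
  have hterm : ∀ c ∈ (GG d).erase ∅, av (fun u =>
      δ * (1 * ((1 - gam ζ (ind L D) s ∅ u) * gam ζ (ind L D) s c u))) ≤ δ * ε := by
    intro c hc
    obtain ⟨hc1, hc2⟩ := Finset.mem_erase.mp hc
    rw [ta_mem_GG] at hc2
    rw [av_const_mul]
    apply mul_le_mul_of_nonneg_left _ hδ
    have h := K1 (s := s) (F := fun _ => (1 : ℝ)) (a := ∅) (b := c) hP hf
      (Finset.empty_ssubset.mpr (Finset.nonempty_iff_ne_empty.mpr hc1)) (by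
        rintro rfl
        rw [Finset.card_univ, Fintype.card_fin] at hc2
        omega)
      (fun _ => zero_le_one) (inv_const s _ 1)
    rw [av_const, mul_one] at h
    exact h
  refine (Finset.sum_le_card_nsmul _ _ _ hterm).trans ?_
  rw [nsmul_eq_mul]
  have hc : (((GG d).erase ∅).card : ℝ) ≤ 2 ^ d := by
    have h : ((GG d).erase ∅).card ≤ (GG d).card := Finset.card_erase_le
    have h' : (((GG d).erase ∅).card : ℝ) ≤ ((GG d).card : ℝ) := by exact_mod_cast h
    exact h'.trans (ta_card_GG d)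
  calc (((GG d).erase ∅).card : ℝ) * (δ * ε) ≤ 2 ^ d * (δ * ε) :=
        mul_le_mul_of_nonneg_right hc (by positivity)
    _ = 2 ^ d * ε * δ := by ring

/-- (S1) -/
theorem S1 (hd : 2 ≤ d) (hP : Par d ζ ε) (hL : 0 < L) (hδ : 0 ≤ δ) (hδL : δ ≤ L)
    (hlam : Lam s D ζ L δ lam) :
    |av (fun u => lam u * rad s u * (clip (2 ^ d * L) (D u) * gg ζ (ind L D) s u)) -
      av (fun u => lam u * rad s u * D u)| ≤ 16 ^ (d + 1) * ε * (av (fun u => |D u|) + δ) := by
  have hε := hP.eps_pos
  set X := av (fun u => |D u|) with hX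
  have hX0 : 0 ≤ X := av_nonneg fun u => abs_nonneg _
  have hScabs : ∀ c u, |Sc s D c u| = |A s cᶜ D u| := by
    intro c u
    unfold Sc
    rw [abs_neg, abs_mul, abs_pow, abs_neg, abs_one, one_pow, one_mul]
  have hSc : ∀ c, av (fun u => |Sc s D c u|) ≤ X := by
    intro c
    have : (fun u => |Sc s D c u|) = fun u => |A s cᶜ D u| := by
      funext u; exact hScabs c u
    rw [this]
    exact av_abs_A_le s cᶜ D
  have hTh : ∀ i, av (fun u => |Th ζ L s D i u|) ≤ (1 + 2 * 2 ^ d) * X := by
    intro i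
    refine (av_mono (fun u => Th_abs hL s i u)).trans ?_
    rw [av_add, av_const_mul]
    have h1 : av (fun u => |Tt s D i u|) ≤ X := av_abs_A_le s {i} D
    have h2 : av (fun u => |rr s D i u|) ≤ 2 ^ d * X := by
      have h3 : ∀ u, |rr s D i u| ≤ ∑ c ∈ (GG d).filter (fun c => i ∉ c), |Sc s D c u| := by
        intro u
        unfold rr
        exact Finset.abs_sum_le_sum_abs _ _
      refine (av_mono h3).trans ?_
      rw [av_sum]
      refine (Finset.sum_le_card_nsmul _ _ _ (fun c _ => hSc c)).trans ?_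
      rw [nsmul_eq_mul]
      exact mul_le_mul_of_nonneg_right (ta_card_GG_filter d _) hX0
    linarith
  -- decomposition
  have hdec : (fun u => lam u * rad s u * (clip (2 ^ d * L) (D u) * gg ζ (ind L D) s u)) =
      fun u => lam u * rad s u * ((clip (2 ^ d * L) (D u) - Gf ζ L s D u) * gg ζ (ind L D) s u) +
        (lam u * rad s u * (rho s D u * gg ζ (ind L D) s u) +
          (∑ i ∈ (univ : Finset (Fin d)), lam u * rad s u * (Th ζ L s D i u * gg ζ (ind L D) s u) +
            ∑ c ∈ GG d, lam u * rad s u * (Sc s D c u * gg ζ (ind L D) s u))) := by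
    funext u
    have e1 : ∑ i ∈ (univ : Finset (Fin d)), lam u * rad s u * (Th ζ L s D i u * gg ζ (ind L D) s u)
        = lam u * rad s u * ((∑ i, Th ζ L s D i u) * gg ζ (ind L D) s u) := by
      rw [Finset.sum_mul, Finset.mul_sum]
    have e2 : ∑ c ∈ GG d, lam u * rad s u * (Sc s D c u * gg ζ (ind L D) s u)
        = lam u * rad s u * ((∑ c ∈ GG d, Sc s D c u) * gg ζ (ind L D) s u) := by
      rw [Finset.sum_mul, Finset.mul_sum]
    rw [e1, e2]
    unfold Gf
    ring
  rw [hdec, av_add, av_add, av_add, av_sum, av_sum]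
  have b0 : |av (fun u => lam u * rad s u *
      ((clip (2 ^ d * L) (D u) - Gf ζ L s D u) * gg ζ (ind L D) s u))| ≤
      ε * (8 ^ (d + 1) * (X + δ)) := by
    refine (abs_av_le _).trans ?_
    have : (fun u => |lam u * rad s u *
      ((clip (2 ^ d * L) (D u) - Gf ζ L s D u) * gg ζ (ind L D) s u)|) =
      fun u => lam u * gg ζ (ind L D) s u * |clip (2 ^ d * L) (D u) - Gf ζ L s D u| := by
      funext u
      have hl : |lam u| = lam u := by
        rcases hlam.zero_or_one u with h | h <;> rw [h] <;> norm_num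
      have hg : |gg ζ (ind L D) s u| = gg ζ (ind L D) s u := by
        rcases ta_gg_zero_or_one ζ (ind L D) s u with h | h <;> rw [h] <;> norm_num
      rw [abs_mul, abs_mul, abs_rad, abs_mul, hl, hg]
      ring
    rw [this]
    exact av_clip_error hd hP hL hδ hδL hlam
  have b1 := av_rho hd hP hδ hlam
  have b2 : |∑ i ∈ (univ : Finset (Fin d)), av (fun u => lam u * rad s u *
      (Th ζ L s D i u * gg ζ (ind L D) s u))| ≤ d * (2 ^ d * ε * ((1 + 2 * 2 ^ d) * X)) := by
    refine (Finset.abs_sum_le_sum_abs _ _).trans ?_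
    refine (Finset.sum_le_card_nsmul _ _ (2 ^ d * ε * ((1 + 2 * 2 ^ d) * X)) ?_).trans ?_
    · intro i _
      refine (av_term hP hlam i (Th ζ L s D i) (Th_inv s i)).trans ?_
      exact mul_le_mul_of_nonneg_left (hTh i) (by positivity)
    · rw [nsmul_eq_mul, Finset.card_univ, Fintype.card_fin]
  have b3 : |∑ c ∈ GG d, av (fun u => lam u * rad s u *
      (Sc s D c u * gg ζ (ind L D) s u))| ≤ 2 ^ d * (2 ^ d * ε * X) := by
    refine (Finset.abs_sum_le_sum_abs _ _).trans ?_
    refine (Finset.sum_le_card_nsmul _ _ (2 ^ d * ε * X) ?_).trans ?_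
    · intro c hc
      obtain ⟨j, hj⟩ : ∃ j, j ∉ c := by
        by_contra h
        push Not at h
        have hcu : c = univ := Finset.eq_univ_iff_forall.mpr h
        rw [ta_mem_GG, hcu, Finset.card_univ, Fintype.card_fin] at hc
        omega
      have hinv : Inv s {j} (Sc s D c) := by
        have hA : Inv s {j} (A s cᶜ D) := (inv_A s cᶜ D).mono (by
          intro x hx
          rw [Finset.mem_singleton] at hx
          rw [Finset.mem_compl, hx]
          exact hj)
        exact hA.comp (fun x => -((-1) ^ (cᶜ).card * x))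
      refine (av_term hP hlam j (Sc s D c) hinv).trans ?_
      exact mul_le_mul_of_nonneg_left (hSc c) (by positivity)
    · rw [nsmul_eq_mul]
      exact mul_le_mul_of_nonneg_right (ta_card_GG d) (by positivity)
  set a : ℝ := 2 ^ d with ha
  have ha1 : 1 ≤ a := one_le_pow₀ (by norm_num)
  have hda : (d : ℝ) ≤ a := ta_d_le d
  have hd0 : (0 : ℝ) ≤ d := Nat.cast_nonneg d
  have h8 : (8 : ℝ) ^ (d + 1) = 8 * a ^ 3 := by
    rw [ha, pow_succ, ← pow_mul, mul_comm d 3, pow_mul]
    norm_num
    ring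
  have h16 : (16 : ℝ) ^ (d + 1) = 16 * a ^ 4 := by
    rw [ha, pow_succ, ← pow_mul, mul_comm d 4, pow_mul]
    norm_num
    ring
  have b2' : (d : ℝ) * (a * ε * ((1 + 2 * a) * X)) ≤ a * (a * ε * ((1 + 2 * a) * X)) :=
    mul_le_mul_of_nonneg_right hda (by positivity)
  rw [h8] at b0
  rw [h16]
  have htri : ∀ x y z w v : ℝ, |x + (y + (z + w)) - v| ≤ |x| + |y - v| + |z| + |w| := by
    intro x y z w v
    have : x + (y + (z + w)) - v = x + (y - v) + z + w := by ring
    rw [this]
    exact (abs_add_le _ _).trans (add_le_add_left ((abs_add_le _ _).trans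
      (add_le_add_left (abs_add_le _ _) _)) _)
  refine (htri _ _ _ _ _).trans ?_
  refine (add_le_add (add_le_add (add_le_add b0 b1) (b2.trans b2')) b3).trans ?_
  have hA4 : a ^ 3 ≤ a ^ 4 := by nlinarith [mul_nonneg (sub_nonneg.mpr ha1) (pow_nonneg (zero_le_one.trans ha1) 3)]
  have hA3 : a ^ 2 ≤ a ^ 3 := by nlinarith [mul_nonneg (sub_nonneg.mpr ha1) (sq_nonneg a)]
  have hA2 : a ≤ a ^ 2 := by nlinarith
  have hXd : 0 ≤ ε * X := by positivity
  have hdd : 0 ≤ ε * δ := by positivity
  have hA0 : 0 ≤ a ^ 3 := by positivity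
  have f1 : ε * (8 * a ^ 3 * (X + δ)) + a * ε * δ + a * (a * ε * ((1 + 2 * a) * X)) +
      a * (a * ε * X) = (10 * a ^ 3 + 2 * a ^ 2) * (ε * X) + (8 * a ^ 3 + a) * (ε * δ) := by ring
  have f2 : 16 * a ^ 4 * ε * (X + δ) = 16 * a ^ 4 * (ε * X) + 16 * a ^ 4 * (ε * δ) := by ring
  rw [f1, f2]
  apply add_le_add
  · apply mul_le_mul_of_nonneg_right _ hXd
    nlinarith
  · apply mul_le_mul_of_nonneg_right _ hdd
    nlinarith

end Pool.Agent.H714R2.LA
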