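import Pool.Agent.H714R2.LA.Gam

set_option autoImplicit false

/-!
# T3: the truncation step, pointwise part (helper28)
-/

namespace Pool.Agent.H714R2.LA

open Finset

variable {d R : ℕ} {s : Fin d → Fin R} {ζ : ℕ → ℝ} {ε L δ : ℝ} {D lam : Om d R → ℝ}

theorem rho_eq (s : Fin d → Fin R) (D : Om d R → ℝ) (u : Om d R) :
    rho s D u = av (fun v => cube s D u v) := by
  unfold rho cube
  rw [av_sum]
  refine sum_congr rfl fun c _ => ?_
  rw [av_const_mul]
  rfl

theorem rho_abs (u : Om d R) (h : ∀ v, |cube s D u v| ≤ δ) : |rho s D u| ≤ δ := by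
  rw [rho_eq]
  calc |av (fun v => cube s D u v)| ≤ av (fun v => |cube s D u v|) := abs_av_le _
    _ ≤ av (fun _ : Om d R => δ) := av_mono h
    _ = δ := av_const δ

/-- the sets of coordinates: `univ`, the sets of codimension one, and `GG d` -/
theorem tp_split (hd : 1 ≤ d) (f : Finset (Fin d) → ℝ) :
    ∑ c, f c = f univ + ∑ i, f ({i}ᶜ) + ∑ c ∈ GG d, f c := by
  have hcu : (univ : Finset (Fin d)).card = d := by simp
  have e1 : (univ.filter fun c : Finset (Fin d) => ¬ c.card + 2 ≤ d) =
      insert univ (univ.image fun i : Fin d => ({i}ᶜ : Finset (Fin d))) := by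
    ext c
    simp only [mem_filter, mem_univ, true_and, mem_insert, mem_image]
    constructor
    · intro h
      by_cases hc : c = univ
      · exact Or.inl hc
      · right
        have h1 : cᶜ.card = 1 := by
          have h2 : c.card + cᶜ.card = d := by rw [card_add_card_compl]; simp
          have h3 : cᶜ.card ≠ 0 := by
            intro h4
            rw [card_eq_zero, compl_eq_empty_iff] at h4
            exact hc h4
          omega
        obtain ⟨i, hi⟩ := card_eq_one.1 h1
        exact ⟨i, by rw [← hi, compl_compl]⟩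
    · rintro (h | ⟨i, h⟩)
      · rw [h, hcu]; omega
      · rw [← h, card_compl, card_singleton, Fintype.card_fin]; omega
  have e2 : (univ : Finset (Fin d)) ∉ univ.image fun i : Fin d => ({i}ᶜ : Finset (Fin d)) := by
    simp only [mem_image, mem_univ, true_and, not_exists]
    intro i h
    have : ({i} : Finset (Fin d)) = ∅ := by
      have h2 := congrArg compl h
      rwa [compl_compl, compl_univ] at h2
    exact singleton_ne_empty i this
  have e3 : ∑ c ∈ univ.image (fun i : Fin d => ({i}ᶜ : Finset (Fin d))), f c =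
      ∑ i, f ({i}ᶜ) := by
    rw [sum_image]
    intro i _ j _ h
    have h2 := compl_injective h
    exact singleton_injective h2
  have e4 := sum_filter_add_sum_filter_not (univ : Finset (Finset (Fin d)))
    (fun c => c.card + 2 ≤ d) f
  rw [e1, sum_insert e2, e3] at e4
  rw [← e4]
  unfold GG
  ring

theorem decomp (s : Fin d → Fin R) (D : Om d R → ℝ) (u : Om d R) (hd : 1 ≤ d) :
    D u = rho s D u + ∑ i, Tt s D i u + ∑ c ∈ GG d, Sc s D c u := by
  unfold rho Tt Sc
  rw [tp_split hd]
  have h1 : (-1 : ℝ) ^ ((univ : Finset (Fin d))ᶜ).card * A s (univ : Finset (Fin d))ᶜ D u = D u := by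
    rw [compl_univ, card_empty, pow_zero, one_mul, A_empty]
  have h2 : ∀ i : Fin d, (-1 : ℝ) ^ (({i} : Finset (Fin d))ᶜᶜ).card * A s ({i} : Finset (Fin d))ᶜᶜ D u
      = -A s {i} D u := by
    intro i
    rw [compl_compl, card_singleton, pow_one]; ring
  simp only [h1, h2, sum_neg_distrib]
  ring

theorem ind_zero_or_one (L : ℝ) (D : Om d R → ℝ) (u : Om d R) : ind L D u = 0 ∨ ind L D u = 1 := by
  unfold ind
  split_ifs
  · exact Or.inr rfl
  · exact Or.inl rfl

/-- if no `c ≠ univ` is wild at `u`, then the union bound gives `v` with `|D| ≤ L` at all the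
mixtures with `c ≠ univ`, and the cube identity bounds `D u` -/
theorem tame_bound (hP : Par d ζ ε) (hL : 0 < L) (hδL : δ ≤ L) (u : Om d R)
    (hcube : ∀ v, |cube s D u v| ≤ δ)
    (htame : ∀ c, c ≠ univ → gam ζ (ind L D) s c u = 0) : |D u| ≤ 2 ^ d * L := by
  have h1 : ∀ c ∈ (univ : Finset (Finset (Fin d))).erase univ,
      A s cᶜ (ind L D) u ≤ ζ c.card := by
    intro c hc
    have h := htame c (ne_of_mem_erase hc)
    unfold gam at h
    by_contra h2
    rw [if_pos (not_le.1 h2).le] at h
    exact one_ne_zero h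
  have h2 : av (fun v => ∑ c ∈ (univ : Finset (Finset (Fin d))).erase univ,
      ind L D (res s cᶜ u v)) ≤ 1 / 2 := by
    rw [av_sum]
    exact (sum_le_sum h1).trans hP.sum
  obtain ⟨v, hv⟩ : ∃ v, ∑ c ∈ (univ : Finset (Finset (Fin d))).erase univ,
      ind L D (res s cᶜ u v) < 1 := by
    by_contra h3
    push Not at h3
    have h4 : av (fun _ : Om d R => (1 : ℝ)) ≤ _ := av_mono h3
    rw [av_const] at h4
    linarith
  have h5 : ∀ c ∈ (univ : Finset (Finset (Fin d))).erase univ, |D (res s cᶜ u v)| ≤ L := by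
    intro c hc
    by_contra h6
    have h7 : ind L D (res s cᶜ u v) = 1 := by
      unfold ind; rw [if_pos (not_le.1 h6)]
    have h8 := single_le_sum (f := fun c => ind L D (res s cᶜ u v))
      (fun c _ => ind_nonneg L D (res s cᶜ u v)) hc
    rw [h7] at h8
    linarith
  have h9 : cube s D u v = D u + ∑ c ∈ (univ : Finset (Finset (Fin d))).erase univ,
      (-1) ^ (cᶜ).card * D (res s cᶜ u v) := by
    unfold cube
    rw [← add_sum_erase _ _ (mem_univ (univ : Finset (Fin d)))]
    congr 1
    rw [compl_univ, card_empty, pow_zero, one_mul]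
    congr 1
  have h10 : |∑ c ∈ (univ : Finset (Finset (Fin d))).erase univ,
      (-1) ^ (cᶜ).card * D (res s cᶜ u v)| ≤ (2 ^ d - 1) * L := by
    refine (abs_sum_le_sum_abs _ _).trans ?_
    calc ∑ c ∈ (univ : Finset (Finset (Fin d))).erase univ, |(-1) ^ (cᶜ).card * D (res s cᶜ u v)|
        ≤ ∑ c ∈ (univ : Finset (Finset (Fin d))).erase univ, L := by
          refine sum_le_sum fun c hc => ?_
          rw [abs_mul, abs_pow, abs_neg, abs_one, one_pow, one_mul]
          exact h5 c hc
      _ = (2 ^ d - 1) * L := by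
          rw [sum_const, card_erase_of_mem (mem_univ _), card_univ, Fintype.card_finset,
            Fintype.card_fin, nsmul_eq_mul, Nat.cast_sub Nat.one_le_two_pow]
          push_cast; ring
  have h11 : D u = cube s D u v - ∑ c ∈ (univ : Finset (Finset (Fin d))).erase univ,
      (-1) ^ (cᶜ).card * D (res s cᶜ u v) := by rw [h9]; ring
  rw [h11]
  have h12 := hcube v
  have h13 := abs_sub (cube s D u v) (∑ c ∈ (univ : Finset (Finset (Fin d))).erase univ,
      (-1) ^ (cᶜ).card * D (res s cᶜ u v))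
  linarith

theorem clip_abs_le {B : ℝ} (hB : 0 ≤ B) (x : ℝ) : |clip B x| ≤ B := by
  unfold clip
  rw [abs_le]
  exact ⟨le_max_left _ _, max_le (by linarith) (min_le_left _ _)⟩

theorem clip_abs_le_abs {B : ℝ} (hB : 0 ≤ B) (x : ℝ) : |clip B x| ≤ |x| := by
  unfold clip
  rcases le_total 0 x with h | h
  · rw [abs_of_nonneg h, max_eq_right (by
      have : 0 ≤ min B x := le_min hB h
      linarith), abs_of_nonneg (le_min hB h)]
    exact min_le_right _ _
  · rw [abs_of_nonpos h, min_eq_right (by linarith), abs_of_nonpos (max_le (by linarith) h)]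
    linarith [le_max_right (-B) x]

theorem clip_lip (B x y : ℝ) : |clip B x - clip B y| ≤ |x - y| := by
  unfold clip
  have h1 := abs_max_sub_max_le_max (-B) (min B x) (-B) (min B y)
  have h2 := abs_min_sub_min_le_max B x B y
  rw [sub_self, abs_zero, max_eq_right (abs_nonneg (min B x - min B y))] at h1
  rw [sub_self, abs_zero, max_eq_right (abs_nonneg (x - y))] at h2
  exact h1.trans h2

theorem clip_of_abs_le {B x : ℝ} (h : |x| ≤ B) : clip B x = x := by
  unfold clip
  rw [min_eq_right ((le_abs_self x).trans h), max_eq_right (by linarith [neg_abs_le x])]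

/-- abstract form of the pointwise inequality -/
theorem tp_aux {ι : Type} [Fintype ι] [DecidableEq ι] (a T r : ι → ℝ) (ρ Sg S B Dv G : ℝ)
    (hB : 0 ≤ B) (ha : ∀ i, a i = 0 ∨ a i = 1) (hD : Dv = ρ + ∑ i, T i + Sg)
    (hG : G = ρ + ∑ i, ((1 - a i) * T i + a i * (clip B (T i + r i) - r i)) + Sg)
    (hr : ∀ i, |r i| ≤ S) (hSg : |Sg| ≤ S) (hrS : ∀ i, |Sg - r i| ≤ S)
    (h0 : (∀ i, a i = 0) → |Dv| ≤ B) :
    |clip B Dv - G| ≤ 2 * ∑ k, a k * (|ρ| + ∑ i ∈ univ.erase k, |T i| + S) +
      2 * B * ∑ k, ∑ i ∈ univ.erase k, a i * a k := by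
  classical
  set K : Finset ι := univ.filter fun i => a i = 1 with hK
  have ha' : ∀ i, a i = if i ∈ K then 1 else 0 := by
    intro i
    have hm : i ∈ K ↔ a i = 1 := by rw [hK, mem_filter]; simp
    rcases ha i with h | h
    · rw [if_neg (by rw [hm, h]; norm_num), h]
    · rw [if_pos (hm.2 h), h]
  have hsumK : ∀ f : ι → ℝ, ∑ i, a i * f i = ∑ i ∈ K, f i := by
    intro f
    have : ∀ i, a i * f i = if i ∈ K then f i else 0 := by
      intro i
      rw [ha']
      split_ifs <;> simp
    simp only [this]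
    rw [sum_ite_mem, univ_inter]
  have hS0 : 0 ≤ S := (abs_nonneg _).trans hSg
  have hG2 : G = Dv + ∑ i ∈ K, (clip B (T i + r i) - (T i + r i)) := by
    rw [← hsumK, hG, hD]
    have : ∑ i, ((1 - a i) * T i + a i * (clip B (T i + r i) - r i)) =
        ∑ i, T i + ∑ i, a i * (clip B (T i + r i) - (T i + r i)) := by
      rw [← sum_add_distrib]
      exact sum_congr rfl fun i _ => by ring
    rw [this]; ring
  rw [hsumK]
  have hsum2 : ∑ k, ∑ i ∈ univ.erase k, a i * a k = ∑ k ∈ K, ((K.card : ℝ) - 1) := by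
    have h1 : ∀ k, ∑ i ∈ univ.erase k, a i * a k = a k * ∑ i ∈ univ.erase k, a i := by
      intro k
      rw [mul_sum]
      exact sum_congr rfl fun i _ => mul_comm _ _
    simp only [h1]
    rw [hsumK]
    refine sum_congr rfl fun k hk => ?_
    have h2 : ∑ i, a i = (K.card : ℝ) := by
      have := hsumK fun _ => 1
      simp only [mul_one, sum_const, nsmul_eq_mul] at this
      exact this
    have h3 : a k = 1 := (mem_filter.1 hk).2
    have h4 := add_sum_erase univ a (mem_univ k)
    rw [h2, h3] at h4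
    linarith
  rw [hsum2, sum_const, nsmul_eq_mul]
  have hTn : ∀ k, 0 ≤ ∑ i ∈ univ.erase k, |T i| := fun k => sum_nonneg fun i _ => abs_nonneg _
  rcases Nat.lt_or_ge K.card 1 with hc | hc
  · -- no wild coordinate
    have hK0 : K = ∅ := card_eq_zero.1 (by omega)
    have h5 : |Dv| ≤ B := h0 fun i => by rw [ha', hK0]; simp
    rw [hG2, hK0, clip_of_abs_le h5]
    simp
  · rcases Nat.lt_or_ge K.card 2 with hc2 | hc2
    · -- exactly one
      obtain ⟨k, hk⟩ := card_eq_one.1 (show K.card = 1 by omega)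
      rw [hG2, hk, card_singleton]
      simp only [sum_singleton, Nat.cast_one, sub_self, mul_zero, add_zero]
      have h6 : Dv - (T k + r k) = ρ + ∑ i ∈ univ.erase k, T i + (Sg - r k) := by
        rw [hD, ← add_sum_erase univ T (mem_univ k)]; ring
      have h7 : |Dv - (T k + r k)| ≤ |ρ| + ∑ i ∈ univ.erase k, |T i| + S := by
        rw [h6]
        refine (abs_add_le _ _).trans (add_le_add ((abs_add_le _ _).trans
          (add_le_add le_rfl (abs_sum_le_sum_abs _ _))) (hrS k))
      have h8 : clip B Dv - (Dv + (clip B (T k + r k) - (T k + r k))) =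
          (clip B Dv - clip B (T k + r k)) - (Dv - (T k + r k)) := by ring
      rw [h8]
      have h9 := abs_sub (clip B Dv - clip B (T k + r k)) (Dv - (T k + r k))
      have h10 := clip_lip B Dv (T k + r k)
      linarith
    · -- at least two
      have hG3 : G = ρ + (∑ i ∈ Kᶜ, T i + ∑ i ∈ K, (clip B (T i + r i) - r i)) + Sg := by
        rw [hG2, hD, ← sum_add_sum_compl K T]
        have : ∑ i ∈ K, (clip B (T i + r i) - (T i + r i)) =
            ∑ i ∈ K, (clip B (T i + r i) - r i) - ∑ i ∈ K, T i := by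
          rw [← sum_sub_distrib]
          exact sum_congr rfl fun i _ => by ring
        rw [this]; ring
      have h11 : |∑ i ∈ K, (clip B (T i + r i) - r i)| ≤ K.card * (B + S) := by
        refine (abs_sum_le_sum_abs _ _).trans ?_
        calc ∑ i ∈ K, |clip B (T i + r i) - r i| ≤ ∑ i ∈ K, (B + S) := by
              refine sum_le_sum fun i _ => (abs_sub _ _).trans
                (add_le_add (clip_abs_le hB _) (hr i))
          _ = _ := by rw [sum_const, nsmul_eq_mul]
      obtain ⟨k0, hk0⟩ := card_pos.1 (show 0 < K.card by omega)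
      have h12 : ∑ i ∈ Kᶜ, |T i| ≤ ∑ k ∈ K, ∑ i ∈ univ.erase k, |T i| := by
        calc ∑ i ∈ Kᶜ, |T i| ≤ ∑ i ∈ univ.erase k0, |T i| := by
              refine sum_le_sum_of_subset_of_nonneg ?_ fun _ _ _ => abs_nonneg _
              intro i hi
              rw [mem_erase]
              refine ⟨?_, mem_univ _⟩
              rintro rfl
              exact (mem_compl.1 hi) hk0
          _ ≤ _ := single_le_sum (f := fun k => ∑ i ∈ univ.erase k, |T i|)
              (fun k _ => hTn k) hk0
      have h13 : |G| ≤ |ρ| + (∑ i ∈ Kᶜ, |T i| + K.card * (B + S)) + S := by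
        rw [hG3]
        refine (abs_add_le _ _).trans (add_le_add ((abs_add_le _ _).trans
          (add_le_add le_rfl ((abs_add_le _ _).trans
            (add_le_add (abs_sum_le_sum_abs _ _) h11)))) hSg)
      have h14 := abs_sub (clip B Dv) G
      have h15 := clip_abs_le hB Dv
      have h16 : ∑ k ∈ K, (|ρ| + ∑ i ∈ univ.erase k, |T i| + S) =
          K.card * |ρ| + ∑ k ∈ K, ∑ i ∈ univ.erase k, |T i| + K.card * S := by
        rw [sum_add_distrib, sum_add_distrib, sum_const, sum_const, nsmul_eq_mul, nsmul_eq_mul]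
      rw [h16]
      have hκ : (2 : ℝ) ≤ K.card := by exact_mod_cast hc2
      have hρ := abs_nonneg ρ
      have hS12 : 0 ≤ ∑ k ∈ K, ∑ i ∈ univ.erase k, |T i| := sum_nonneg fun k _ => hTn k
      set κ : ℝ := (K.card : ℝ)
      have e1 : |ρ| ≤ 2 * (κ * |ρ|) := by nlinarith
      have e2 : κ * S + S ≤ 2 * (κ * S) := by nlinarith
      have e3 : B + κ * B ≤ 2 * B * (κ * (κ - 1)) := by
        have : 1 + κ ≤ 2 * (κ * (κ - 1)) := by nlinarith
        nlinarith
      linarith

/-- the main pointwise inequality.  Let `K = {k | el k u = 1}`.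
`K = ∅`: no `c ≠ univ` is wild (the sets in `GG d` are tame since `gg u = 1`), so
`|D u| ≤ 2^d L`, `clip (D u) = D u = Gf u`.
`K = {k}`: with `q = Tt k u + rr k u` and `h = D u - q` one has `Gf u = clip q + h` and
`|clip (q + h) - clip q - h| ≤ 2 |h|`,
`|h| ≤ |rho| + ∑_{i ≠ k} |Tt i| + ∑_{c ∈ GG} |Sc c|`.
`|K| ≥ 2`: estimate everything trivially. -/
theorem clip_pointwise (hd : 2 ≤ d) (hP : Par d ζ ε) (hL : 0 < L) (hδL : δ ≤ L) (u : Om d R)
    (hcube : ∀ v, |cube s D u v| ≤ δ) (hg : gg ζ (ind L D) s u = 1) :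
    |clip (2 ^ d * L) (D u) - Gf ζ L s D u| ≤
      2 * ∑ k, el ζ (ind L D) s k u *
        (|rho s D u| + ∑ i ∈ univ.erase k, |Tt s D i u| + ∑ c ∈ GG d, |Sc s D c u|) +
      2 * (2 ^ d * L) * ∑ k, ∑ i ∈ univ.erase k,
        el ζ (ind L D) s i u * el ζ (ind L D) s k u := by
  have hGG : ∀ c ∈ GG d, gam ζ (ind L D) s c u = 0 := by
    intro c hc
    rcases gam_zero_or_one ζ (ind L D) s c u with h | h
    · exact h
    · exfalso
      unfold gg at hg
      rw [prod_eq_zero hc (by rw [h]; ring)] at hg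
      exact zero_ne_one hg
  refine tp_aux (fun i => el ζ (ind L D) s i u) (fun i => Tt s D i u) (fun i => rr s D i u)
    (rho s D u) (∑ c ∈ GG d, Sc s D c u) (∑ c ∈ GG d, |Sc s D c u|) (2 ^ d * L) (D u)
    (Gf ζ L s D u) (by positivity) (fun i => gam_zero_or_one _ _ _ _ _)
    (decomp s D u (by omega)) rfl ?_ (abs_sum_le_sum_abs _ _) ?_ ?_
  · intro i
    unfold rr
    exact (abs_sum_le_sum_abs _ _).trans
      (sum_le_sum_of_subset_of_nonneg (filter_subset _ _) fun _ _ _ => abs_nonneg _)
  · intro i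
    have h1 : ∑ c ∈ GG d, Sc s D c u - rr s D i u =
        ∑ c ∈ (GG d).filter (fun c => ¬ i ∉ c), Sc s D c u := by
      unfold rr
      rw [← sum_filter_add_sum_filter_not (GG d) (fun c => i ∉ c) fun c => Sc s D c u]
      ring
    rw [h1]
    exact (abs_sum_le_sum_abs _ _).trans
      (sum_le_sum_of_subset_of_nonneg (filter_subset _ _) fun _ _ _ => abs_nonneg _)
  · intro h0
    refine tame_bound hP hL hδL u hcube fun c hc => ?_
    by_cases hcG : c ∈ GG d
    · exact hGG c hcG
    · have h1 : cᶜ.card = 1 := by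
        have h2 : c.card + cᶜ.card = d := by rw [card_add_card_compl]; simp
        have h3 : cᶜ.card ≠ 0 := by
          intro h4
          rw [card_eq_zero, compl_eq_empty_iff] at h4
          exact hc h4
        have h4 : ¬ c.card + 2 ≤ d := fun h => hcG (by
          unfold GG; rw [mem_filter]; exact ⟨mem_univ _, h⟩)
        omega
      obtain ⟨i, hi⟩ := card_eq_one.1 h1
      have h5 : c = {i}ᶜ := by rw [← hi, compl_compl]
      rw [h5]
      exact h0 i

theorem Sc_inv (s : Fin d → Fin R) (c : Finset (Fin d)) : Inv s cᶜ (Sc s D c) := by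
  intro u v
  unfold Sc
  rw [inv_A s cᶜ D u v]

theorem rr_inv (s : Fin d → Fin R) (i : Fin d) : Inv s {i} (rr s D i) := by
  have h : Inv s {i} fun u => ∑ c ∈ (GG d).filter (fun c => i ∉ c), Sc s D c u := by
    refine inv_sum _ _ fun c hc => (Sc_inv s c).mono ?_
    rw [singleton_subset_iff, mem_compl]
    exact (mem_filter.1 hc).2
  exact h

theorem Th_inv (s : Fin d → Fin R) (i : Fin d) : Inv s {i} (Th ζ L s D i) := by
  intro u v
  have h1 : el ζ (ind L D) s i (res s {i} u v) = el ζ (ind L D) s i u := by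
    have h := gam_inv ζ (ind L D) s ({i}ᶜ)
    rw [compl_compl] at h
    exact h u v
  have h2 : Tt s D i (res s {i} u v) = Tt s D i u := inv_A s {i} D u v
  have h3 : rr s D i (res s {i} u v) = rr s D i u := rr_inv s i u v
  unfold Th
  rw [h1, h2, h3]

theorem Th_abs (hL : 0 < L) (s : Fin d → Fin R) (i : Fin d) (u : Om d R) :
    |Th ζ L s D i u| ≤ |Tt s D i u| + 2 * |rr s D i u| := by
  unfold Th
  rcases gam_zero_or_one ζ (ind L D) s ({i}ᶜ) u with h | h
  · have h' : el ζ (ind L D) s i u = 0 := h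
    rw [h']
    have := abs_nonneg (rr s D i u)
    simp only [sub_zero, one_mul, zero_mul, add_zero]
    linarith
  · have h' : el ζ (ind L D) s i u = 1 := h
    rw [h']
    simp only [sub_self, zero_mul, zero_add, one_mul]
    have h1 := abs_sub (clip (2 ^ d * L) (Tt s D i u + rr s D i u)) (rr s D i u)
    have h2 := clip_abs_le_abs (show (0 : ℝ) ≤ 2 ^ d * L by positivity)
      (Tt s D i u + rr s D i u)
    have h3 := abs_add_le (Tt s D i u) (rr s D i u)
    linarith

end Pool.Agent.H714R2.LA
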