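import Pool.Agent.H714R2.LA.Ops

set_option autoImplicit false

/-!
# T8: digit strings
-/

namespace Pool.Agent.H714R2.LA

open Finset

theorem val_lt {R : ℕ} (b : Fin R → Bool) : val b < 2 ^ R := by sorry

theorem val_injective (R : ℕ) : Function.Injective (val : (Fin R → Bool) → ℕ) := by sorry

theorem sum_val {E : Type} [AddCommMonoid E] (R : ℕ) (F : ℕ → E) :
    ∑ b : Fin R → Bool, F (val b) = ∑ a ∈ range (2 ^ R), F a := by sorry

/-- the first `r` digits determine `val b / 2 ^ (R - r)` -/
theorem val_div_congr {R : ℕ} (r : ℕ) (hr : r ≤ R) (b b' : Fin R → Bool)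
    (h : ∀ k : Fin R, k.val < r → b k = b' k) :
    val b / 2 ^ (R - r) = val b' / 2 ^ (R - r) := by sorry

/-- changing the digit `k` from `0` to `1` -/
theorem val_update {R : ℕ} (b : Fin R → Bool) (k : Fin R) :
    (val (Function.update b k true) : ℝ) - val (Function.update b k false) = 2 ^ (R - 1 - k.val) := by
  sorry

variable {d R : ℕ} {ι : Type}

theorem emp_res (S : Finset ι) (p : ι → Fin d → ℕ) (s : Fin d → Fin R) (u v : Om d R) :
    Emp S p s (res s univ u v) ↔ Emp S p s u := by sorry

/-- the fraction of the boxes of shape `s` which contain a point -/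
theorem emp_count (S : Finset ι) (p : ι → Fin d → ℕ) (n : ℕ) (s : Fin d → Fin R)
    (hs : s ∈ Sh d R n) (lam : Om d R → ℝ)
    (hlam : ∀ u, Emp S p s u → lam u = 0) (h1 : ∀ u, lam u ≤ 1) :
    av lam ≤ (S.card : ℝ) / 2 ^ n := by sorry

end Pool.Agent.H714R2.LA
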